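import Mathlib.Data.Nat.SuccPred
import Mathlib.Data.Countable.Small
import Mathlib.SetTheory.Cardinal.Order
import Pool.Agent.Lib.helper92.ZF.Tools

/-! Generic extensions for a forcing notion that lives in the second universe. -/

namespace Pool.Agent.MP_b60a07_lc.H92

open ZFSet Pool.Agent.ZF92
open scoped Classical

inductive Name (P : Type 1) : Type 2
  | mk (I : Type 1) (A : I → Name P) (c : I → P) : Name P

def fEq {P : Type 1} (le : P → P → Prop) : Name P → Name P → P → Prop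
  | ⟨_, A, c⟩, ⟨_, B, d⟩, p =>
    (∀ i q, le q p → ∃ r, le r q ∧ (le r (c i) → ∃ j, le r (d j) ∧ fEq le (A i) (B j) r)) ∧
    (∀ j q, le q p → ∃ r, le r q ∧ (le r (d j) → ∃ i, le r (c i) ∧ fEq le (A i) (B j) r))

def fMem {P : Type 1} (le : P → P → Prop) (x : Name P) : Name P → P → Prop
  | ⟨_, B, d⟩, p => ∀ q, le q p → ∃ r, le r q ∧ ∃ j, le r (d j) ∧ fEq le (B j) x r

def cs {α : Type 2} (x : α) (v : ℕ → α) : ℕ → α
  | 0 => x
  | n + 1 => v n

@[simp] theorem cs_zero {α : Type 2} (x : α) (v : ℕ → α) : cs x v 0 = x := rfl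
@[simp] theorem cs_succ {α : Type 2} (x : α) (v : ℕ → α) (n : ℕ) : cs x v (n + 1) = v n := rfl

def Frc {P : Type 1} (le : P → P → Prop) : Fm → (ℕ → Name P) → P → Prop
  | .mem i j, v, p => fMem le (v i) (v j) p
  | .eq i j, v, p => fEq le (v i) (v j) p
  | .neg a, v, p => ∀ q, le q p → ¬ Frc le a v q
  | .and a b, v, p => Frc le a v p ∧ Frc le b v p
  | .all a, v, p => ∀ x, Frc le a (cs x v) p

class Pre {P : Type 1} (le : P → P → Prop) : Prop where
  refl : ∀ p, le p p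
  trans : ∀ {p q r}, le p q → le q r → le p r

variable {P : Type 1} {le : P → P → Prop} [Pre le]

theorem lrefl (p : P) : le p p := Pre.refl p
theorem ltrans {p q r : P} (h : le p q) (h' : le q r) : le p r := Pre.trans h h'

theorem fEq_mono {x y : Name P} {p q : P} (hq : le q p) (h : fEq le x y p) : fEq le x y q := by
  obtain ⟨I, A, c⟩ := x
  obtain ⟨J, B, d⟩ := y
  exact ⟨fun i r hr => h.1 i r (ltrans hr hq), fun j r hr => h.2 j r (ltrans hr hq)⟩

theorem fEq_dense {x y : Name P} {p : P} (h : ∀ q, le q p → ∃ r, le r q ∧ fEq le x y r) :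
    fEq le x y p := by
  obtain ⟨I, A, c⟩ := x
  obtain ⟨J, B, d⟩ := y
  refine ⟨fun i q hq => ?_, fun j q hq => ?_⟩
  · obtain ⟨r, hr, h'⟩ := h q hq
    obtain ⟨s, hs, h''⟩ := h'.1 i r (lrefl r)
    exact ⟨s, ltrans hs hr, h''⟩
  · obtain ⟨r, hr, h'⟩ := h q hq
    obtain ⟨s, hs, h''⟩ := h'.2 j r (lrefl r)
    exact ⟨s, ltrans hs hr, h''⟩

theorem fEq_refl (x : Name P) (p : P) : fEq le x x p := by
  induction x generalizing p with
  | mk I A c ih =>
    exact ⟨fun i q _ => ⟨q, lrefl q, fun h => ⟨i, h, ih i q⟩⟩,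
      fun i q _ => ⟨q, lrefl q, fun h => ⟨i, h, ih i q⟩⟩⟩

omit [Pre le] in
theorem fEq_symm {x y : Name P} {p : P} (h : fEq le x y p) : fEq le y x p := by
  induction x generalizing y p with
  | mk I A c ih =>
    obtain ⟨J, B, d⟩ := y
    refine ⟨fun j q hq => ?_, fun i q hq => ?_⟩
    · obtain ⟨r, hr, h'⟩ := h.2 j q hq
      exact ⟨r, hr, fun hd => let ⟨i, hi, he⟩ := h' hd; ⟨i, hi, ih i he⟩⟩
    · obtain ⟨r, hr, h'⟩ := h.1 i q hq
      exact ⟨r, hr, fun hd => let ⟨j, hj, he⟩ := h' hd; ⟨j, hj, ih i he⟩⟩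

theorem fEq_trans {x y z : Name P} {p : P} (h : fEq le x y p) (h' : fEq le y z p) :
    fEq le x z p := by
  induction x generalizing y z p with
  | mk I A c ih =>
    obtain ⟨J, B, d⟩ := y
    obtain ⟨K, C, e⟩ := z
    refine ⟨fun i q hq => ?_, fun k q hq => ?_⟩
    · obtain ⟨r, hr, h1⟩ := h.1 i q hq
      by_cases hc : le r (c i)
      · obtain ⟨j, hj, he⟩ := h1 hc
        obtain ⟨s, hs, h2⟩ := h'.1 j r (ltrans hr hq)
        obtain ⟨k, hk, he'⟩ := h2 (ltrans hs hj)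
        exact ⟨s, ltrans hs hr, fun _ => ⟨k, hk, ih i (fEq_mono hs he) he'⟩⟩
      · exact ⟨r, hr, fun h => absurd h hc⟩
    · obtain ⟨r, hr, h1⟩ := h'.2 k q hq
      by_cases hc : le r (e k)
      · obtain ⟨j, hj, he⟩ := h1 hc
        obtain ⟨s, hs, h2⟩ := h.2 j r (ltrans hr hq)
        obtain ⟨i, hi, he'⟩ := h2 (ltrans hs hj)
        exact ⟨s, ltrans hs hr, fun _ => ⟨i, hi, ih i he' (fEq_mono hs he)⟩⟩
      · exact ⟨r, hr, fun h => absurd h hc⟩

theorem fMem_mono {x y : Name P} {p q : P} (hq : le q p) (h : fMem le x y p) :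
    fMem le x y q := by
  obtain ⟨J, B, d⟩ := y
  exact fun r hr => h r (ltrans hr hq)

theorem fMem_dense {x y : Name P} {p : P} (h : ∀ q, le q p → ∃ r, le r q ∧ fMem le x y r) :
    fMem le x y p := by
  obtain ⟨J, B, d⟩ := y
  intro q hq
  obtain ⟨r, hr, h'⟩ := h q hq
  obtain ⟨s, hs, h''⟩ := h' r (lrefl r)
  exact ⟨s, ltrans hs hr, h''⟩

theorem fMem_congr_left {x x' y : Name P} {p : P} (he : fEq le x x' p) (h : fMem le x y p) :
    fMem le x' y p := by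
  obtain ⟨J, B, d⟩ := y
  intro q hq
  obtain ⟨r, hr, j, hj, h'⟩ := h q hq
  exact ⟨r, hr, j, hj, fEq_trans h' (fEq_mono (ltrans hr hq) he)⟩

theorem fMem_mk {I : Type 1} {A : I → Name P} {c : I → P} {p : P} (i : I) (h : le p (c i)) :
    fMem le (A i) (Name.mk I A c) p :=
  fun q hq => ⟨q, lrefl q, i, ltrans hq h, fEq_refl _ _⟩

theorem Frc.mono {a : Fm} {v : ℕ → Name P} {p q : P} (hq : le q p) (h : Frc le a v p) :
    Frc le a v q := by
  induction a generalizing p q v with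
  | mem x y => exact fMem_mono hq h
  | eq x y => exact fEq_mono hq h
  | neg a _ => exact fun r hr => h r (ltrans hr hq)
  | and a b iha ihb => exact ⟨iha hq h.1, ihb hq h.2⟩
  | all f ih => exact fun x => ih hq (h x)

theorem Frc.dense {a : Fm} {v : ℕ → Name P} {p : P}
    (h : ∀ q, le q p → ∃ r, le r q ∧ Frc le a v r) : Frc le a v p := by
  induction a generalizing p v with
  | mem x y => exact fMem_dense h
  | eq x y => exact fEq_dense h
  | neg a _ =>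
    intro q hq ha
    obtain ⟨r, hr, h'⟩ := h q hq
    exact h' r (lrefl r) (ha.mono hr)
  | and a b iha ihb =>
    exact ⟨iha fun q hq => let ⟨r, hr, h'⟩ := h q hq; ⟨r, hr, h'.1⟩,
      ihb fun q hq => let ⟨r, hr, h'⟩ := h q hq; ⟨r, hr, h'.2⟩⟩
  | all f ih => exact fun x => ih fun q hq => let ⟨r, hr, h'⟩ := h q hq; ⟨r, hr, h' x⟩

theorem not_frc {a : Fm} {v : ℕ → Name P} {p : P} (h : ¬ Frc le a v p) :
    ∃ q, le q p ∧ Frc le (.neg a) v q := by
  by_contra hn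
  refine h (Frc.dense fun q hq => ?_)
  by_contra hn'
  exact hn ⟨q, hq, fun r hr ha => hn' ⟨r, hr, ha⟩⟩

def natName (t : P) : ℕ → Name P
  | n => Name.mk (ULift (Fin n)) (fun i => natName t i.down) (fun _ => t)
decreasing_by exact i.down.2

omit [Pre le] in
theorem natName_eq (t : P) (n : ℕ) :
    natName t n = Name.mk (ULift (Fin n)) (fun i => natName t i.down) (fun _ => t) := by
  rw [natName]

def omegaName (t : P) : Name P := Name.mk (ULift ℕ) (fun n => natName t n.down) (fun _ => t)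

def nI : Name P → Type 1 | ⟨I, _, _⟩ => I
def nA : (x : Name P) → nI x → Name P | ⟨_, A, _⟩ => A
def nc : (x : Name P) → nI x → P | ⟨_, _, c⟩ => c

def emp : Name P := ⟨PEmpty, PEmpty.elim, PEmpty.elim⟩

def Fin' (N : Set (Name P)) (w : ℕ → Name P) : Prop :=
  (∀ i, w i ∈ N) ∧ ∃ k, ∀ i, k ≤ i → w i = emp

structure Gen (le : P → P → Prop) {J : Type} (R : J → (ℕ → Name P) → Name P → P → Prop)
    (N : Set (Name P)) (G : Set P) : Prop where
  emp_mem : emp ∈ N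
  up : ∀ {p q}, p ∈ G → le p q → q ∈ G
  dir : ∀ {p q}, p ∈ G → q ∈ G → ∃ r ∈ G, le r p ∧ le r q
  gs : ∀ j w, Fin' N w → ∃ p ∈ G, (∃ x ∈ N, R j w x p) ∨ ∀ q, le q p → ∀ x, ¬ R j w x q

theorem exists_gen (le : P → P → Prop) [Pre le] {J : Type} [Countable J]
    (R : J → (ℕ → Name P) → Name P → P → Prop) (p0 : P) :
    ∃ N G, N.Countable ∧ Gen le R N G := by
  obtain ⟨c, hc⟩ := exists_surjective_nat (Option J × List ℕ)
  let env : ℕ → (ℕ → Name P) → ℕ → Name P := fun n x i =>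
    if h : i < (c n.unpair.1).2.length then x ((c n.unpair.1).2[i]) else emp
  have hstep : ∀ (n : ℕ) (s : P × (ℕ → Name P)), ∃ t : P × Name P, le t.1 s.1 ∧
      ((c n.unpair.1).1 = none → t.2 = emp) ∧ ∀ j, (c n.unpair.1).1 = some j →
        R j (env n s.2) t.2 t.1 ∨ ∀ q, le q t.1 → ∀ x, ¬ R j (env n s.2) x q := by
    intro n s
    rcases hj : (c n.unpair.1).1 with _ | j
    · exact ⟨(s.1, emp), lrefl _, fun _ => rfl, by simp⟩
    · by_cases h : ∃ q, le q s.1 ∧ ∃ x, R j (env n s.2) x q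
      · obtain ⟨q, hq, x, hx⟩ := h
        exact ⟨(q, x), hq, by simp, fun j' e => Or.inl (Option.some.inj e ▸ hx)⟩
      · exact ⟨(s.1, emp), lrefl _, by simp, fun j' e => Or.inr fun q hq x hx =>
          h ⟨q, hq, x, Option.some.inj e ▸ hx⟩⟩
  choose F hF1 hF2 hF3 using hstep
  let s : ℕ → P × (ℕ → Name P) := fun n => Nat.rec (p0, fun _ => emp)
    (fun n t => ((F n t).1, Function.update t.2 n (F n t).2)) n
  have hs : ∀ n, s (n + 1) = ((F n (s n)).1, Function.update (s n).2 n (F n (s n)).2) :=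
    fun n => rfl
  have hmono : ∀ m n, m ≤ n → le (s n).1 (s m).1 := by
    intro m n h
    induction h with
    | refl => exact lrefl _
    | step _ ih => exact ltrans (hF1 _ _) ih
  have hx : ∀ n i, i < n → (s n).2 i = (F i (s i)).2 := by
    intro n
    induction n with
    | zero => simp
    | succ n ih =>
      intro i hi
      rw [hs]
      rcases Nat.lt_succ_iff_lt_or_eq.1 hi with h | rfl
      · simp only [Function.update_of_ne h.ne, ih i h]
      · simp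
  refine ⟨Set.range fun i => (F i (s i)).2, {p | ∃ n, le (s n).1 p}, Set.countable_range _, ?_,
    fun ⟨n, hn⟩ h => ⟨n, ltrans hn h⟩, fun ⟨m, hm⟩ ⟨n, hn⟩ => ⟨(s (max m n)).1, ⟨_, lrefl _⟩,
      ltrans (hmono _ _ (le_max_left _ _)) hm, ltrans (hmono _ _ (le_max_right _ _)) hn⟩, ?_⟩
  · obtain ⟨a, ha⟩ := hc (none, [])
    exact ⟨Nat.pair a 0, hF2 _ _ (by simp [ha])⟩
  · rintro j w ⟨hw, k, hk⟩
    choose u hu using hw
    obtain ⟨a, ha⟩ := hc (some j, (List.range k).map u)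
    set n := Nat.pair a ((Finset.range k).sup u + 1) with hn
    have he : env n (s n).2 = w := by
      funext i
      simp only [env, hn, Nat.unpair_pair, ha, List.length_map, List.length_range,
        List.getElem_map, List.getElem_range]
      split_ifs with h
      · rw [hx _ _ (lt_of_lt_of_le (Nat.lt_succ_of_le (Finset.le_sup (f := u)
          (Finset.mem_range.2 h))) (Nat.right_le_pair _ _))]
        exact hu i
      · exact (hk i (not_lt.1 h)).symm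
    refine ⟨(F n (s n)).1, ⟨n + 1, lrefl _⟩, ?_⟩
    have := hF3 n (s n) j (by simp [hn, ha])
    rw [he] at this
    exact this.imp_left fun h => ⟨_, ⟨n, rfl⟩, h⟩

/-- The value of a name. -/
noncomputable def val (N : Set (Name P)) [Countable N] (G : Set P) : Name P → ZFSet.{0}
  | ⟨_, A, c⟩ => range fun y : {y : N // ∃ i, A i = y.1 ∧ c i ∈ G} => val N G (A y.2.choose)

theorem mem_val {N : Set (Name P)} [Countable N] {G : Set P} {I : Type 1} {A : I → Name P}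
    {c : I → P} {z : ZFSet} :
    z ∈ val N G ⟨I, A, c⟩ ↔ ∃ i, A i ∈ N ∧ c i ∈ G ∧ val N G (A i) = z := by
  rw [val, mem_range]
  refine ⟨fun ⟨y, h⟩ => ⟨_, y.2.choose_spec.1.symm ▸ y.1.2, y.2.choose_spec.2, h⟩,
    fun ⟨i, h1, h2, h⟩ => ?_⟩
  have h3 : ∃ j, A j = A i ∧ c j ∈ G := ⟨i, rfl, h2⟩
  exact ⟨⟨⟨A i, h1⟩, h3⟩, (congrArg (val N G) h3.choose_spec.1).trans h⟩

theorem mem_val' {N : Set (Name P)} [Countable N] {G : Set P} {x : Name P} {z : ZFSet} :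
    z ∈ val N G x ↔ ∃ i, nA x i ∈ N ∧ nc x i ∈ G ∧ val N G (nA x i) = z := by
  obtain ⟨I, A, c⟩ := x
  exact mem_val

def bd : Fm → ℕ
  | .mem i j => max i j + 1
  | .eq i j => max i j + 1
  | .neg a => bd a
  | .and a b => max (bd a) (bd b)
  | .all a => bd a

theorem cs_congr {α : Type 2} {v w : ℕ → α} {k : ℕ} (h : ∀ i < k, v i = w i) (x : α) :
    ∀ i < k, cs x v i = cs x w i := by
  intro i hi
  cases i with
  | zero => rfl
  | succ i => exact h i (by omega)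

omit [Pre le] in
theorem frc_congr (φ : Fm) {v w : ℕ → Name P} (h : ∀ i < bd φ, v i = w i) :
    Frc le φ v = Frc le φ w := by
  induction φ generalizing v w with
  | mem i j => funext p; simp only [Frc]; rw [h i (by simp [bd]), h j (by simp [bd])]
  | eq i j => funext p; simp only [Frc]; rw [h i (by simp [bd]), h j (by simp [bd])]
  | neg a ih => funext p; simp only [Frc]; rw [ih h]
  | and a b iha ihb =>
    funext p
    simp only [Frc]
    rw [iha fun i hi => h i (lt_max_of_lt_left hi), ihb fun i hi => h i (lt_max_of_lt_right hi)]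
  | all a ih =>
    funext p
    simp only [Frc]
    exact forall_congr fun x => by rw [ih (cs_congr h x)]

def trunc (k : ℕ) (w : ℕ → Name P) (i : ℕ) : Name P := if i < k then w i else emp

theorem trunc_lt {k i : ℕ} {w : ℕ → Name P} (h : i < k) : trunc k w i = w i := if_pos h

theorem fin'_trunc {N : Set (Name P)} (h0 : emp ∈ N) {w : ℕ → Name P} (hw : ∀ i, w i ∈ N) (k : ℕ) :
    Fin' N (trunc k w) :=
  ⟨fun i => by unfold trunc; split_ifs; exacts [hw i, h0], k, fun _ hi => if_neg (not_lt.2 hi)⟩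

theorem Fin'.cons {N : Set (Name P)} {w : ℕ → Name P} (hw : Fin' N w) {x : Name P} (hx : x ∈ N) :
    Fin' N (cs x w) := by
  obtain ⟨h, k, hk⟩ := hw
  refine ⟨fun i => ?_, k + 1, fun i hi => ?_⟩
  · cases i with
    | zero => exact hx
    | succ i => exact h i
  · cases i with
    | zero => omega
    | succ i => exact hk i (by omega)

theorem fin'_emp {N : Set (Name P)} (h0 : emp ∈ N) : Fin' N (fun _ => emp) :=
  ⟨fun _ => h0, 0, fun _ _ => rfl⟩

variable (le) (t : P)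

def upairN (x y : Name P) : Name P := ⟨ULift Bool, fun b => cond b.down x y, fun _ => t⟩
def pairN (x y : Name P) : Name P := upairN t (upairN t x x) (upairN t x y)
def sepN (x : Name P) (F : Name P → P → Prop) : Name P :=
  ⟨{s : nI x × P // F (nA x s.1) s.2}, fun s => nA x s.1.1, fun s => s.1.2⟩
def unionN (x : Name P) : Name P :=
  ⟨Σ i : nI x, nI (nA x i), fun s => nA (nA x s.1) s.2, fun _ => t⟩
def subN (x : Name P) (s : Set (nI x × P)) : Name P := ⟨s, fun s => nA x s.1.1, fun s => s.1.2⟩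
def powN (x : Name P) : Name P := ⟨Set (nI x × P), subN x, fun _ => t⟩
noncomputable def witN (φ : Fm) (v : ℕ → Name P) (q : P) : Name P :=
  @Classical.epsilon _ ⟨emp⟩ fun y => Frc le φ (cs y v) q
noncomputable def colN (φ : Fm) (x : Name P) (v : ℕ → Name P) : Name P :=
  ⟨nI x × P, fun s => witN le φ (cs (nA x s.1) v) s.2, fun _ => t⟩
def NoRep (x y : Name P) (S : nI x → Prop) (q : P) : Prop :=
  ∀ k, S k → ∀ r, le r q → le r (nc x k) → ¬ fEq le (nA x k) y r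
def woN (x : Name P) : Name P :=
  ⟨{s : nI x × nI x × P // le s.2.2 (nc x s.1) ∧
      NoRep le x (nA x s.2.1) (fun k => k = s.1 ∨ WellOrderingRel k s.1) s.2.2},
    fun s => pairN t (nA x s.1.1) (nA x s.1.2.1), fun s => s.1.2.2⟩

def R0 : ℕ × Fm → (ℕ → Name P) → Name P → P → Prop
  | (0, _), v, x, q => ∃ j, x = nA (v 1) j ∧ le q (nc (v 1) j) ∧ fEq le (v 0) x q
  | (1, _), v, x, q => ∃ i, x = nA (v 0) i ∧ le q (nc (v 0) i) ∧
      ∀ r, le r q → ¬ ∃ j, le r (nc (v 1) j) ∧ fEq le x (nA (v 1) j) r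
  | (2, φ), v, _, q => Frc le φ v q
  | (3, φ), v, x, q => Frc le (.neg φ) (cs x v) q
  | (4, _), v, x, _ => x = upairN t (v 0) (v 1)
  | (5, _), v, x, _ => x = unionN t (v 0)
  | (6, φ), v, x, _ => x = sepN (v 0) fun y q => fMem le y (v 0) q ∧
      Frc le φ (cs y fun i => v (i + 1)) q
  | (7, _), v, x, _ => x = powN t (v 0)
  | (8, _), v, x, _ => x = subN (v 0) {s | fMem le (nA (v 0) s.1) (v 1) s.2}
  | (9, _), _, x, _ => x = omegaName t
  | (10, φ), v, x, _ => x = colN le t φ (v 0) fun i => v (i + 1)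
  | (11, φ), v, x, q => (∃ y, Frc le φ (cs y v) q) ∧ x = witN le φ v q
  | (12, _), v, x, _ => x = woN le t (v 0)
  | (13, _), v, x, q => ∃ k, x = nA (v 0) k ∧ le q (nc (v 0) k) ∧ fEq le x (v 1) q ∧
      NoRep le (v 0) (v 1) (fun k' => WellOrderingRel k' k) q
  | (14, _), v, x, _ => ∃ y, v 0 = upairN t x y
  | (15, _), v, x, _ => ∃ y, v 0 = upairN t y x
  | (n + 16, _), _, x, _ => x = natName t n

variable {le t} {N : Set (Name P)} {G : Set P}

omit [Pre le] in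
theorem upairN_inj {x y x' y' : Name P} (e : upairN t x y = upairN t x' y') : x = x' ∧ y = y' := by
  simp only [upairN, Name.mk.injEq, heq_eq_eq, true_and, and_true] at e
  exact ⟨congrFun e ⟨true⟩, congrFun e ⟨false⟩⟩

theorem fMem_nA (x : Name P) (i : nI x) {p : P} (h : le p (nc x i)) : fMem le (nA x i) x p := by
  obtain ⟨I, A, c⟩ := x
  exact fMem_mk i h

omit [Pre le] in
theorem fMem_iff {x y : Name P} {p : P} : fMem le x y p ↔
    ∀ q, le q p → ∃ r, le r q ∧ ∃ j, le r (nc y j) ∧ fEq le (nA y j) x r := by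
  obtain ⟨I, A, c⟩ := y
  rfl

namespace Gen

theorem dense {J : Type} {R : J → (ℕ → Name P) → Name P → P → Prop} (h : Gen le R N G) (j : J)
    {w : ℕ → Name P} (hw : Fin' N w) {p : P} (hp : p ∈ G)
    (hd : ∀ q, le q p → ∃ r, le r q ∧ ∃ x, R j w x r) : ∃ r ∈ G, ∃ x ∈ N, R j w x r := by
  obtain ⟨r, hr, h1 | h1⟩ := h.gs j w hw
  · exact ⟨r, hr, h1⟩
  · obtain ⟨q, -, hq1, hq2⟩ := h.dir hr hp
    obtain ⟨s, hs, x, hx⟩ := hd q hq2
    exact absurd hx (h1 s (ltrans hs hq1) x)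

theorem op {J : Type} {R : J → (ℕ → Name P) → Name P → P → Prop} (h : Gen le R N G) (j : J)
    {w : ℕ → Name P} (hw : Fin' N w) {y : Name P} (e : ∀ x q, R j w x q ↔ x = y) : y ∈ N := by
  obtain ⟨r, -, ⟨x, hx, h1⟩ | h1⟩ := h.gs j w hw
  · exact (e x r).1 h1 ▸ hx
  · exact absurd ((e y r).2 rfl) (h1 r (lrefl r) y)

omit [Pre le] in
theorem env1 {J : Type} {R : J → (ℕ → Name P) → Name P → P → Prop} (h : Gen le R N G)
    {x : Name P} (hx : x ∈ N) : Fin' N (cs x fun _ => emp) := (fin'_emp h.emp_mem).cons hx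

omit [Pre le] in
theorem env2 {J : Type} {R : J → (ℕ → Name P) → Name P → P → Prop} (h : Gen le R N G)
    {x y : Name P} (hx : x ∈ N) (hy : y ∈ N) : Fin' N (cs x (cs y fun _ => emp)) :=
  (h.env1 hy).cons hx

variable (h : Gen le (R0 le t) N G)
include h

theorem dir3 {p q r : P} (hp : p ∈ G) (hq : q ∈ G) (hr : r ∈ G) :
    ∃ s ∈ G, le s p ∧ le s q ∧ le s r := by
  obtain ⟨a, ha, h1, h2⟩ := h.dir hp hq
  obtain ⟨b, hb, h3, h4⟩ := h.dir ha hr
  exact ⟨b, hb, ltrans h3 h1, ltrans h3 h2, h4⟩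

omit [Pre le] in
theorem nonempty : ∃ p, p ∈ G :=
  let ⟨p, hp, _⟩ := h.gs (9, .eq 0 0) _ (fin'_emp h.emp_mem); ⟨p, hp⟩

theorem mem_wit {x y : Name P} (hx : x ∈ N) (hy : y ∈ N) {p : P} (hp : p ∈ G)
    (hd : ∀ q, le q p → ∃ r, le r q ∧ ∃ j, le r (nc y j) ∧ fEq le x (nA y j) r) :
    ∃ j, nA y j ∈ N ∧ nc y j ∈ G ∧ ∃ r ∈ G, fEq le x (nA y j) r := by
  obtain ⟨r, hr, _, hz, j, rfl, h1, h2⟩ := h.dense (0, .eq 0 0) (h.env2 hx hy) hp fun q hq => by
    obtain ⟨r, hr, j, h1, h2⟩ := hd q hq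
    exact ⟨r, hr, _, j, rfl, h1, h2⟩
  exact ⟨j, hz, h.up hr h1, r, hr, h2⟩

theorem upairN_mem {x y : Name P} (hx : x ∈ N) (hy : y ∈ N) : upairN t x y ∈ N :=
  h.op (4, .eq 0 0) (h.env2 hx hy) fun _ _ => Iff.rfl

theorem of_upairN_mem {x y : Name P} (hx : upairN t x y ∈ N) : x ∈ N ∧ y ∈ N :=
  ⟨h.op (14, .eq 0 0) (h.env1 hx) fun _ _ =>
    ⟨fun ⟨_, e⟩ => (upairN_inj e).1.symm, fun e => ⟨y, e ▸ rfl⟩⟩,
   h.op (15, .eq 0 0) (h.env1 hx) fun _ _ =>
    ⟨fun ⟨_, e⟩ => (upairN_inj e).2.symm, fun e => ⟨x, e ▸ rfl⟩⟩⟩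

theorem pairN_mem_iff {x y : Name P} : pairN t x y ∈ N ↔ x ∈ N ∧ y ∈ N :=
  ⟨fun hx => h.of_upairN_mem (h.of_upairN_mem hx).2,
    fun hx => h.upairN_mem (h.upairN_mem hx.1 hx.1) (h.upairN_mem hx.1 hx.2)⟩

theorem natName_mem (n : ℕ) : natName t n ∈ N :=
  h.op (n + 16, .eq 0 0) (fin'_emp h.emp_mem) fun _ _ => Iff.rfl

variable [Countable N]

theorem val_eq_iff {x y : Name P} (hx : x ∈ N) (hy : y ∈ N) :
    val N G x = val N G y ↔ ∃ p ∈ G, fEq le x y p := by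
  induction x generalizing y with
  | mk I A c ih =>
  obtain ⟨J, B, d⟩ := y
  constructor
  · intro e
    obtain ⟨p, hp, h1⟩ := h.gs (1, .eq 0 0) _ (h.env2 hx hy)
    obtain ⟨p', hp', h2⟩ := h.gs (1, .eq 0 0) _ (h.env2 hy hx)
    rcases h1 with ⟨_, hz, i, rfl, h1, h3⟩ | h1
    · obtain ⟨j, hj, hd, e'⟩ := mem_val.1 (e ▸ mem_val.2 ⟨i, hz, h.up hp h1, rfl⟩)
      obtain ⟨q, hq, h4⟩ := (ih i hz hj).1 e'.symm
      obtain ⟨s, -, s1, s2, s3⟩ := h.dir3 hp hq hd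
      exact absurd ⟨j, s3, fEq_mono s2 h4⟩ (h3 s s1)
    rcases h2 with ⟨_, hz, j, rfl, h2, h3⟩ | h2
    · obtain ⟨i, hi, hd, e'⟩ := mem_val.1 (e.symm ▸ mem_val.2 ⟨j, hz, h.up hp' h2, rfl⟩)
      obtain ⟨q, hq, h4⟩ := (ih i hi hz).1 e'
      obtain ⟨s, -, s1, s2, s3⟩ := h.dir3 hp' hq hd
      exact absurd ⟨i, s3, fEq_symm (fEq_mono s2 h4)⟩ (h3 s s1)
    obtain ⟨s, hs, s1, s2⟩ := h.dir hp hp'
    refine ⟨s, hs, fun i q hq => ?_, fun j q hq => ?_⟩
    · by_cases hc : le q (c i)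
      · by_contra hn
        exact h1 q (ltrans hq s1) _ ⟨i, rfl, hc, fun r hr hj => hn ⟨r, hr, fun _ => hj⟩⟩
      · exact ⟨q, lrefl q, fun h' => absurd h' hc⟩
    · by_cases hc : le q (d j)
      · by_contra hn
        exact h2 q (ltrans hq s2) _ ⟨j, rfl, hc, fun r hr ⟨i, hi, he⟩ =>
          hn ⟨r, hr, fun _ => ⟨i, hi, fEq_symm he⟩⟩⟩
      · exact ⟨q, lrefl q, fun h' => absurd h' hc⟩
  · rintro ⟨p, hp, he⟩
    ext z
    rw [mem_val, mem_val]
    constructor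
    · rintro ⟨i, hi, hc, rfl⟩
      obtain ⟨s, hs, s1, s2⟩ := h.dir hp hc
      obtain ⟨j, hj, hd, r, hr, e⟩ := h.mem_wit hi hy hs fun q hq => by
        obtain ⟨r, hr, h1⟩ := he.1 i q (ltrans hq s1)
        exact ⟨r, hr, h1 (ltrans hr (ltrans hq s2))⟩
      exact ⟨j, hj, hd, ((ih i hi hj).2 ⟨r, hr, e⟩).symm⟩
    · rintro ⟨j, hj, hd, rfl⟩
      obtain ⟨s, hs, s1, s2⟩ := h.dir hp hd
      obtain ⟨i, hi, hc, r, hr, e⟩ := h.mem_wit hj hx hs fun q hq => by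
        obtain ⟨r, hr, h1⟩ := he.2 j q (ltrans hq s1)
        obtain ⟨i, h2, h3⟩ := h1 (ltrans hr (ltrans hq s2))
        exact ⟨r, hr, i, h2, fEq_symm h3⟩
      exact ⟨i, hi, hc, (ih i hi hj).2 ⟨r, hr, fEq_symm e⟩⟩

theorem val_mem_iff {x y : Name P} (hx : x ∈ N) (hy : y ∈ N) :
    val N G x ∈ val N G y ↔ ∃ p ∈ G, fMem le x y p := by
  obtain ⟨J, B, d⟩ := y
  constructor
  · intro e
    obtain ⟨j, hj, hd, e'⟩ := mem_val.1 e
    obtain ⟨q, hq, h1⟩ := (h.val_eq_iff hj hx).1 e'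
    obtain ⟨s, hs, s1, s2⟩ := h.dir hq hd
    exact ⟨s, hs, fMem_congr_left (fEq_mono s1 h1) (fMem_mk j s2)⟩
  · rintro ⟨p, hp, hm⟩
    obtain ⟨j, hj, hd, r, hr, e⟩ := h.mem_wit hx hy hp fun q hq => by
      obtain ⟨r, hr, j, h1, h2⟩ := hm q hq
      exact ⟨r, hr, j, h1, fEq_symm h2⟩
    exact mem_val.2 ⟨j, hj, hd, ((h.val_eq_iff hx hj).2 ⟨r, hr, e⟩).symm⟩

omit [Pre le] h in
theorem val_cons (x : Name P) (w : ℕ → Name P) :
    val N G ∘ cs x w = cons (val N G x) (val N G ∘ w) := by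
  funext i; cases i <;> rfl

omit [Pre le] h [Countable N] in
theorem cons_mem {x : Name P} {w : ℕ → Name P} (hx : x ∈ N) (hw : ∀ i, w i ∈ N) :
    ∀ i, cs x w i ∈ N := by
  intro i; cases i
  · exact hx
  · exact hw _

theorem truth (φ : Fm) {w : ℕ → Name P} (hw : ∀ i, w i ∈ N) :
    Sat (val N G '' N) φ (val N G ∘ w) ↔ ∃ p ∈ G, Frc le φ w p := by
  induction φ generalizing w with
  | mem i j => exact h.val_mem_iff (hw i) (hw j)
  | eq i j => exact h.val_eq_iff (hw i) (hw j)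
  | neg a ih =>
    simp only [Sat, ih hw, Frc]
    constructor
    · intro hn
      obtain ⟨p, hp, ⟨_, -, h1⟩ | h1⟩ := h.gs (2, a) _ (fin'_trunc h.emp_mem hw (bd a))
      · exact absurd ⟨p, hp, frc_congr (le := le) a (fun i => trunc_lt) ▸ h1⟩ hn
      · exact ⟨p, hp, fun q hq h2 => h1 q hq emp (by
          show Frc le a _ q
          rwa [frc_congr a (fun i => trunc_lt)])⟩
    · rintro ⟨p, hp, h1⟩ ⟨q, hq, h2⟩
      obtain ⟨s, -, s1, s2⟩ := h.dir hp hq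
      exact h1 s s1 (h2.mono s2)
  | and a b iha ihb =>
    simp only [Sat, iha hw, ihb hw, Frc]
    constructor
    · rintro ⟨⟨p, hp, h1⟩, ⟨q, hq, h2⟩⟩
      obtain ⟨s, hs, s1, s2⟩ := h.dir hp hq
      exact ⟨s, hs, h1.mono s1, h2.mono s2⟩
    · rintro ⟨p, hp, h1, h2⟩
      exact ⟨⟨p, hp, h1⟩, ⟨p, hp, h2⟩⟩
  | all a ih =>
    simp only [Sat, Frc, Set.forall_mem_image, ← val_cons]
    have e : ∀ x, Frc le a (cs x (trunc (bd a) w)) = Frc le a (cs x w) := fun x =>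
      frc_congr a (cs_congr (fun i => trunc_lt) x)
    constructor
    · intro hn
      obtain ⟨p, hp, ⟨x, hx, h1⟩ | h1⟩ := h.gs (3, a) _ (fin'_trunc h.emp_mem hw (bd a))
      · obtain ⟨q, hq, h2⟩ := (ih (cons_mem hx hw)).1 (hn hx)
        obtain ⟨s, -, s1, s2⟩ := h.dir hp hq
        exact absurd (e x ▸ h2.mono s2) (h1 s s1)
      · refine ⟨p, hp, fun x => ?_⟩
        by_contra h2
        obtain ⟨q, hq, h3⟩ := not_frc h2
        exact h1 q hq x fun r hr h4 => h3 r hr (e x ▸ h4)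
    · rintro ⟨p, hp, h1⟩ x hx
      exact (ih (cons_mem hx hw)).2 ⟨p, hp, h1 x⟩

variable (ht : ∀ p, le p t)
include ht

omit [Countable N] [Pre le] in
theorem top_mem : t ∈ G := let ⟨p, hp⟩ := h.nonempty; h.up hp (ht p)

omit [Pre le] in
theorem val_upairN {x y : Name P} (hx : x ∈ N) (hy : y ∈ N) :
    val N G (upairN t x y) = {val N G x, val N G y} := by
  ext z
  rw [upairN, mem_val, mem_pair]
  constructor
  · rintro ⟨⟨_ | _⟩, -, -, rfl⟩
    · exact Or.inr rfl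
    · exact Or.inl rfl
  · rintro (rfl | rfl)
    · exact ⟨⟨true⟩, hx, h.top_mem ht, rfl⟩
    · exact ⟨⟨false⟩, hy, h.top_mem ht, rfl⟩

theorem val_pairN {x y : Name P} (hx : x ∈ N) (hy : y ∈ N) :
    val N G (pairN t x y) = pair (val N G x) (val N G y) := by
  rw [pairN, h.val_upairN ht (h.upairN_mem hx hx) (h.upairN_mem hx hy), h.val_upairN ht hx hx,
    h.val_upairN ht hx hy, pair_eq_singleton]
  rfl

theorem val_natName (n : ℕ) : val N G (natName t n) = nat n := by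
  induction n using Nat.strong_induction_on with
  | _ n ih =>
    ext z
    rw [natName_eq, mem_val, mem_nat]
    constructor
    · rintro ⟨⟨i⟩, -, -, rfl⟩
      exact ⟨i, i.2, ih i i.2⟩
    · rintro ⟨m, hm, rfl⟩
      exact ⟨⟨⟨m, hm⟩⟩, h.natName_mem m, h.top_mem ht, ih m hm⟩

omit ht in
theorem sep_mem (φ : Fm) {v : ℕ → ZFSet} (hv : ∀ i, v i ∈ val N G '' N) {a : ZFSet}
    (ha : a ∈ val N G '' N) : a.sep (fun x => Sat (val N G '' N) φ (cons x v)) ∈ val N G '' N := by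
  obtain ⟨x, hx, rfl⟩ := ha
  choose w hw e using hv
  obtain rfl : v = val N G ∘ w := (funext e).symm
  have e1 : ∀ y, Frc le φ (cs y (trunc (bd φ) w)) = Frc le φ (cs y w) := fun y =>
    frc_congr φ (cs_congr (fun i => trunc_lt) y)
  refine ⟨sepN x fun y q => fMem le y x q ∧ Frc le φ (cs y w) q,
    h.op (6, φ) ((fin'_trunc h.emp_mem hw (bd φ)).cons hx) fun _ _ => by
      simp only [R0, cs_zero, cs_succ, e1], ?_⟩
  ext z
  rw [sepN, mem_val, mem_sep]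
  constructor
  · rintro ⟨⟨⟨i, q⟩, h1, h2⟩, hi, hq, rfl⟩
    refine ⟨(h.val_mem_iff hi hx).2 ⟨q, hq, h1⟩, ?_⟩
    rw [← val_cons]
    exact (h.truth φ (cons_mem hi hw)).2 ⟨q, hq, h2⟩
  · rintro ⟨hz, h2⟩
    obtain ⟨i, hi, hc, rfl⟩ := mem_val'.1 hz
    rw [← val_cons] at h2
    obtain ⟨p, hp, h3⟩ := (h.truth φ (cons_mem hi hw)).1 h2
    obtain ⟨s, hs, s1, s2⟩ := h.dir hp hc
    exact ⟨⟨(i, s), fMem_nA x i s2, h3.mono s1⟩, hi, hs, rfl⟩

omit ht in
theorem idx_exists {x y : Name P} (hx : x ∈ N) (hy : y ∈ N) (hm : val N G y ∈ val N G x) :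
    ∃ k, nA x k ∈ N ∧ ∃ q ∈ G, le q (nc x k) ∧ fEq le (nA x k) y q ∧
      NoRep le x y (fun k' => WellOrderingRel k' k) q := by
  obtain ⟨p, hp, hm⟩ := (h.val_mem_iff hy hx).1 hm
  obtain ⟨r, hr, _, hz, k, rfl, h1⟩ := h.dense (13, .eq 0 0) (h.env2 hx hy) hp fun q hq => by
    obtain ⟨k, ⟨r, hr, h1, h2⟩, hmin⟩ := (WellOrderingRel.isWellOrder (α := nI x)).wf.has_min
      {k | ∃ r, le r q ∧ le r (nc x k) ∧ fEq le (nA x k) y r} (by
        obtain ⟨r, hr, j, h1, h2⟩ := fMem_iff.1 hm q hq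
        exact ⟨j, r, hr, h1, h2⟩)
    exact ⟨r, hr, _, k, rfl, h1, h2, fun k' hk' s hs h3 h4 =>
      hmin k' ⟨s, ltrans hs hr, h3, h4⟩ hk'⟩
  exact ⟨k, hz, r, hr, h1⟩

theorem wo_mem {a : ZFSet} (ha : a ∈ val N G '' N) :
    ∃ r ∈ val N G '' N, WellOrd (val N G '' N) r a := by
  obtain ⟨x, hx, rfl⟩ := ha
  have hex : ∀ z : val N G x, ∃ k, nA x k ∈ N ∧ val N G (nA x k) = z.1 ∧ ∃ q ∈ G, le q (nc x k) ∧
      NoRep le x (nA x k) (fun k' => WellOrderingRel k' k) q := by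
    rintro ⟨z, hz⟩
    obtain ⟨i, hi, -, rfl⟩ := mem_val'.1 hz
    obtain ⟨k, hk, q, hq, h1, h2, h3⟩ := h.idx_exists hx hi hz
    exact ⟨k, hk, (h.val_eq_iff hk hi).2 ⟨q, hq, h2⟩, q, hq, h1, fun k' hk' r hr h4 h5 =>
      h3 k' hk' r hr h4 (fEq_trans h5 (fEq_mono hr h2))⟩
  choose idx hN hv q hq hc hno using hex
  have hwo := WellOrderingRel.isWellOrder (α := nI x)
  have hmin : ∀ (z : val N G x) i, nA x i ∈ N → nc x i ∈ G → val N G (nA x i) = z.1 →
      ¬ WellOrderingRel i (idx z) := by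
    intro z i hi hci e hlt
    obtain ⟨p, hp, h1⟩ := (h.val_eq_iff hi (hN z)).1 (e.trans (hv z).symm)
    obtain ⟨s, -, s1, s2, s3⟩ := h.dir3 hp (hq z) hci
    exact hno z i hlt s s2 s3 (fEq_mono s1 h1)
  have key : ∀ y z : val N G x, pair y.1 z.1 ∈ val N G (woN le t x) ↔
      WellOrderingRel (idx y) (idx z) := by
    intro y z
    rw [woN, mem_val]
    constructor
    · rintro ⟨⟨⟨i, j, s⟩, h1, h2⟩, hp, hs, e⟩
      obtain ⟨hi, hj⟩ := h.pairN_mem_iff.1 hp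
      rw [h.val_pairN ht hi hj] at e
      obtain ⟨e1, e2⟩ := pair_inj.1 e
      have h3 := hmin y i hi (h.up hs h1) e1
      obtain ⟨p, hp', h4⟩ := (h.val_eq_iff (hN z) hj).1 ((hv z).trans e2.symm)
      obtain ⟨r, -, r1, r2, r3⟩ := h.dir3 hs hp' (hq z)
      have h5 : ¬ (idx z = i ∨ WellOrderingRel (idx z) i) := fun h5 =>
        h2 _ h5 r r1 (ltrans r3 (hc z)) (fEq_mono r2 h4)
      have h6 : WellOrderingRel i (idx z) := by
        rcases trichotomous_of WellOrderingRel i (idx z) with h6 | h6 | h6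
        · exact h6
        · exact absurd (Or.inl h6.symm) h5
        · exact absurd (Or.inr h6) h5
      rcases trichotomous_of WellOrderingRel (idx y) i with h7 | h7 | h7
      · exact _root_.trans h7 h6
      · exact h7 ▸ h6
      · exact absurd h7 h3
    · intro hlt
      obtain ⟨s, hs, s1, s2⟩ := h.dir (hq y) (hq z)
      refine ⟨⟨(idx y, idx z, s), ltrans s1 (hc y), fun k hk r hr => hno z k ?_ r (ltrans hr s2)⟩,
        h.pairN_mem_iff.2 ⟨hN y, hN z⟩, hs, by rw [h.val_pairN ht (hN y) (hN z), hv, hv]⟩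
      rcases hk with rfl | hk
      · exact hlt
      · exact _root_.trans hk hlt
  refine ⟨_, ⟨woN le t x, h.op (12, .eq 0 0) (h.env1 hx) fun _ _ => Iff.rfl, rfl⟩,
    fun y hy e => irrefl_of WellOrderingRel _ ((key ⟨y, hy⟩ ⟨y, hy⟩).1 e),
    fun y hy z hz w hw e1 e2 => (key ⟨y, hy⟩ ⟨w, hw⟩).2
      (_root_.trans ((key ⟨y, hy⟩ ⟨z, hz⟩).1 e1) ((key ⟨z, hz⟩ ⟨w, hw⟩).1 e2)),
    fun y hy z hz => ?_, fun A _ hA hne => ?_⟩
  · rcases trichotomous_of WellOrderingRel (idx ⟨y, hy⟩) (idx ⟨z, hz⟩) with h1 | h1 | h1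
    · exact Or.inl ((key ⟨y, hy⟩ ⟨z, hz⟩).2 h1)
    · exact Or.inr (Or.inl ((hv ⟨y, hy⟩).symm.trans (h1 ▸ hv ⟨z, hz⟩)))
    · exact Or.inr (Or.inr ((key ⟨z, hz⟩ ⟨y, hy⟩).2 h1))
  · obtain ⟨y, hy⟩ := (eq_empty_or_nonempty A).resolve_left hne
    obtain ⟨_, ⟨z, hz, rfl⟩, hm⟩ := hwo.wf.has_min (idx '' {z | z.1 ∈ A}) ⟨_, ⟨y, hA hy⟩, hy, rfl⟩
    exact ⟨z.1, hz, fun w hw e => hm _ ⟨⟨w, hA hw⟩, hw, rfl⟩ ((key ⟨w, hA hw⟩ z).1 e)⟩

theorem zfc : ZFC (val N G '' N) where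
  transitive := by
    rintro _ ⟨x, -, rfl⟩ y hy
    obtain ⟨i, hi, -, e⟩ := mem_val'.1 hy
    exact ⟨_, hi, e⟩
  pairing := by
    rintro _ ⟨x, hx, rfl⟩ _ ⟨y, hy, rfl⟩
    exact ⟨_, h.upairN_mem hx hy, h.val_upairN ht hx hy⟩
  union := by
    rintro _ ⟨x, hx, rfl⟩
    have h1 : unionN t x ∈ N := h.op (5, .eq 0 0) (h.env1 hx) fun _ _ => Iff.rfl
    convert h.sep_mem (.neg (.all (.neg (.and (.mem 0 2) (.mem 1 0))))) (v := fun _ => val N G x)
      (fun _ => ⟨x, hx, rfl⟩) ⟨_, h1, rfl⟩ using 1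
    ext z
    simp only [mem_sUnion, mem_sep, Sat, cons_zero, cons_succ]
    constructor
    · rintro ⟨y, hy, hz⟩
      obtain ⟨i, hi, -, rfl⟩ := mem_val'.1 hy
      refine ⟨?_, fun hn => hn _ ⟨_, hi, rfl⟩ ⟨hy, hz⟩⟩
      obtain ⟨j, hj, -, rfl⟩ := mem_val'.1 hz
      exact mem_val.2 ⟨⟨i, j⟩, hj, h.top_mem ht, rfl⟩
    · rintro ⟨-, hn⟩
      by_contra hn'
      exact hn fun y _ hy => hn' ⟨y, hy⟩
  power := by
    rintro _ ⟨x, hx, rfl⟩
    refine ⟨_, ⟨powN t x, h.op (7, .eq 0 0) (h.env1 hx) fun _ _ => Iff.rfl, rfl⟩, ?_⟩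
    rintro _ ⟨y, hy, rfl⟩ hsub
    refine mem_val.2 ⟨{s | fMem le (nA x s.1) y s.2},
      h.op (8, .eq 0 0) (h.env2 hx hy) fun _ _ => Iff.rfl, h.top_mem ht, ?_⟩
    ext z
    rw [subN, mem_val]
    constructor
    · rintro ⟨⟨⟨i, q⟩, h1⟩, hi, hq, rfl⟩
      exact (h.val_mem_iff hi hy).2 ⟨q, hq, h1⟩
    · intro hz
      obtain ⟨i, hi, -, rfl⟩ := mem_val'.1 (hsub hz)
      obtain ⟨q, hq, h1⟩ := (h.val_mem_iff hi hy).1 hz
      exact ⟨⟨(i, q), h1⟩, hi, hq, rfl⟩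
  infinity := by
    refine ⟨omegaName t, h.op (9, .eq 0 0) (fin'_emp h.emp_mem) fun _ _ => Iff.rfl, ?_⟩
    ext z
    rw [omegaName, mem_val, ZF92.mem_omega]
    exact ⟨fun ⟨⟨n⟩, _, _, e⟩ => ⟨n, e.symm.trans (h.val_natName ht n)⟩,
      fun ⟨n, e⟩ => ⟨⟨n⟩, h.natName_mem n, h.top_mem ht, (h.val_natName ht n).trans e.symm⟩⟩
  separation φ v hv a ha := h.sep_mem φ hv ha
  collection := by
    rintro φ v hv _ ⟨x, hx, rfl⟩ hex
    choose w hw e using hv
    obtain rfl : v = val N G ∘ w := (funext e).symm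
    have hw' := fin'_trunc h.emp_mem hw (bd φ)
    have e1 : ∀ y z, Frc le φ (cs y (cs z (trunc (bd φ) w))) = Frc le φ (cs y (cs z w)) :=
      fun y z => frc_congr φ (cs_congr (cs_congr (fun i => trunc_lt) z) y)
    refine ⟨_, ⟨colN le t φ x (trunc (bd φ) w), h.op (10, φ) (hw'.cons hx) fun _ _ => Iff.rfl, rfl⟩,
      fun z hz => ?_⟩
    obtain ⟨i, hi, -, rfl⟩ := mem_val'.1 hz
    obtain ⟨_, ⟨y, hy, rfl⟩, h1⟩ := hex _ hz
    rw [← val_cons, ← val_cons] at h1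
    obtain ⟨p, hp, h2⟩ := (h.truth φ (cons_mem hy (cons_mem hi hw))).1 h1
    obtain ⟨r, hr, _, hy', h3, rfl⟩ := h.dense (11, φ) (hw'.cons hi) hp fun q hq =>
      ⟨q, lrefl q, _, ⟨y, e1 _ _ ▸ h2.mono hq⟩, rfl⟩
    refine ⟨_, mem_val.2 ⟨(i, r), hy', h.top_mem ht, rfl⟩, ?_⟩
    rw [← val_cons, ← val_cons]
    exact (h.truth φ (cons_mem hy' (cons_mem hi hw))).2 ⟨r, hr, e1 _ _ ▸ Classical.epsilon_spec h3⟩
  wellorder a ha := h.wo_mem ht ha

end Gen

/-- Adding further tasks. -/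
theorem exists_gen_zfc (le : P → P → Prop) [Pre le] (t : P) {J : Type} [Countable J]
    (R : J → (ℕ → Name P) → Name P → P → Prop) :
    ∃ N G, N.Countable ∧ Gen le (R0 le t) N G ∧ Gen le R N G := by
  have : Countable Fm := by
    let f : Fm → ℕ := fun φ => Fm.rec (fun i j => Nat.pair 0 (Nat.pair i j))
      (fun i j => Nat.pair 1 (Nat.pair i j)) (fun _ a => Nat.pair 2 a)
      (fun _ _ a b => Nat.pair 3 (Nat.pair a b)) (fun _ a => Nat.pair 4 a) φ
    refine Function.Injective.countable (f := f) fun a => ?_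
    induction a with
    | mem i j => rintro (_ | _ | _ | _ | _) e <;> simp_all [f]
    | eq i j => rintro (_ | _ | _ | _ | _) e <;> simp_all [f]
    | neg a ih =>
      rintro (_ | _ | b | _ | _) e <;> simp only [f, Nat.pair_eq_pair] at e <;> try omega
      rw [ih e.2]
    | and a b iha ihb =>
      rintro (_ | _ | _ | _ | _) e <;> simp only [f, Nat.pair_eq_pair] at e <;> try omega
      rw [iha e.2.1, ihb e.2.2]
    | all a ih =>
      rintro (_ | _ | _ | _ | _) e <;> simp only [f, Nat.pair_eq_pair] at e <;> try omega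
      rw [ih e.2]
  obtain ⟨N, G, h0, h⟩ := exists_gen le (J := (ℕ × Fm) ⊕ J) (Sum.elim (R0 le t) R) t
  exact ⟨N, G, h0, ⟨h.emp_mem, h.up, h.dir, fun j => h.gs (.inl j)⟩,
    ⟨h.emp_mem, h.up, h.dir, fun j => h.gs (.inr j)⟩⟩

end Pool.Agent.MP_b60a07_lc.H92
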