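import Mathlib.SetTheory.Cardinal.Finite
import Mathlib.SetTheory.Ordinal.Basic
import Mathlib.Tactic.SuppressCompilation
import Pool.Agent.MP_b60a07_lc.h92.Gen
import Mathlib.SetTheory.Cardinal.Arithmetic
import Mathlib.Tactic.Monotonicity.Lemmas
import Mathlib.Data.Finset.Sort
import Mathlib.Order.Interval.Set.Infinite
import Mathlib.CategoryTheory.Countable
import Mathlib.Data.Finset.Functor
import Pool.Agent.Lib.helper92.ZF.Cube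

-- ======== part 0: formerly Pool.Agent.MP_b60a07_lc.h92.Api
section MrgPart0

/-! Sorts and definable relations of a generic extension that come from the ground universe. -/

namespace Pool.Agent.MP_b60a07_lc.H92

open ZFSet Pool.Agent.ZF92 Function
open scoped Classical

set_option linter.unusedSectionVars false

universe u v u' v'

abbrev Od : Type 1 := Ordinal.{0}

variable {P : Type 1} {le : P → P → Prop} {t : P} [Pre le] {N : Set (Name P)} {G : Set P}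

noncomputable def chk (t : P) (o : Od) : Name P := ⟨Set.Iio o, fun i => chk t i.1, fun _ => t⟩
termination_by o
decreasing_by exact i.2

theorem chk_eq (t : P) (o : Od) : chk t o = ⟨Set.Iio o, fun i => chk t i.1, fun _ => t⟩ := by
  rw [chk]

theorem chk_fEq (ht : ∀ p, le p t) {a b : Od} {p : P} (h : fEq le (chk t a) (chk t b) p) :
    a = b := by
  induction a using WellFoundedLT.induction generalizing b p with
  | ind a ih =>
  rw [chk_eq t a, chk_eq t b] at h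
  refine le_antisymm (not_lt.1 fun hlt => ?_) (not_lt.1 fun hlt => ?_)
  · obtain ⟨r, -, h1⟩ := h.1 ⟨b, hlt⟩ p (lrefl p)
    obtain ⟨j, -, he⟩ := h1 (ht r)
    exact absurd (ih b hlt he) (ne_of_gt j.2)
  · obtain ⟨r, -, h1⟩ := h.2 ⟨a, hlt⟩ p (lrefl p)
    obtain ⟨i, -, he⟩ := h1 (ht r)
    exact absurd (ih i i.2 he) (ne_of_lt i.2)

theorem chk_inj (ht : ∀ p, le p t) : Injective (chk t) := fun _ _ h =>
  chk_fEq ht (p := t) (h ▸ fEq_refl _ _)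

def prodN (t : P) {A : Type u} {B : Type v} (f : A → Name P) (g : B → Name P) (p : A × B) :
    Name P := pairN t (f p.1) (g p.2)

def relN {A : Type 1} (nm : A → Name P) (R : A → P → Prop) : Name P :=
  ⟨{s : A × P // R s.1 s.2}, fun s => nm s.1.1, fun s => s.1.2⟩

def finN (t : P) {A : Type 1} (nm : A → Name P) (a : Finset A) : Name P :=
  ⟨a, fun s => nm s.1, fun _ => t⟩

theorem finN_inj {A : Type 1} {nm : A → Name P} (h : Injective nm) : Injective (finN t nm) :=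
  fun a b e => by
    have h1 : ∀ c : Finset A, Set.range (nA (finN t nm c)) = nm '' c := fun c =>
      (Set.image_eq_range nm c).symm
    exact Finset.coe_injective (h.image_injective ((h1 a).symm.trans (e ▸ h1 b)))

theorem natName_inj : Injective (natName t) := fun a b e => by
  rw [natName_eq, natName_eq, Name.mk.injEq] at e
  have := congrArg Nat.card e.1
  simpa using this

theorem prodN_inj {A : Type u} {B : Type v} {f : A → Name P} {g : B → Name P} (hf : Injective f)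
    (hg : Injective g) : Injective (prodN t f g) := fun _ _ e =>
  Prod.ext (hf (upairN_inj (upairN_inj e).2).1) (hg (upairN_inj (upairN_inj e).2).2)

theorem fMem_relN {A : Type 1} {nm : A → Name P} {R : A → P → Prop} {a : A} {p : P} (h : R a p) :
    fMem le (nm a) (relN nm R) p :=
  fMem_mk (A := fun s : {s : A × P // R s.1 s.2} => nm s.1.1) (c := fun s => s.1.2) ⟨(a, p), h⟩
    (lrefl p)

structure Sub (N : Set (Name P)) {A : Type 1} (nm : A → Name P) where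
  a : A
  mem : nm a ∈ N

theorem Sub.ext {A : Type 1} {nm : A → Name P} {x y : Sub N nm} (h : x.a = y.a) : x = y := by
  cases x; cases y; congr

variable [Countable N]

def VI (N : Set (Name P)) [Countable N] (G : Set P) {A : Type u} (nm : A → Name P) : Prop :=
  ∀ a b, nm a ∈ N → nm b ∈ N → val N G (nm a) = val N G (nm b) → a = b

theorem mem_val_relN {A : Type 1} {nm : A → Name P} (hv : VI N G nm) {R : A → P → Prop} {a : A}
    (ha : nm a ∈ N) : val N G (nm a) ∈ val N G (relN nm R) ↔ ∃ p ∈ G, R a p := by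
  rw [relN, mem_val]
  constructor
  · rintro ⟨⟨⟨b, p⟩, h1⟩, hb, hp, e⟩
    exact ⟨p, hp, hv _ _ hb ha e ▸ h1⟩
  · rintro ⟨p, hp, h1⟩
    exact ⟨⟨(a, p), h1⟩, ha, hp, rfl⟩

def Emb (N : Set (Name P)) [Countable N] (G : Set P) {X : Type u} [Srt (val N G '' N) X]
    {A : Type v} (nm : A → Name P) (j : X → A) : Prop :=
  ∀ x, nm (j x) ∈ N ∧ cd (val N G '' N) x = val N G (nm (j x))

namespace Gen

variable (h : Gen le (R0 le t) N G) (ht : ∀ p, le p t)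
include h ht

theorem vi_chk : VI N G (chk t) := fun _ _ ha hb e =>
  let ⟨_, _, h1⟩ := (h.val_eq_iff ha hb).1 e; chk_fEq ht h1

theorem chk_mem {a b : Od} (ha : chk t a ∈ N) :
    val N G (chk t a) ∈ val N G (chk t b) ↔ a < b := by
  rw [chk_eq t b, mem_val]
  exact ⟨fun ⟨i, hi, _, e⟩ => h.vi_chk ht _ _ hi ha e ▸ i.2,
    fun hab => ⟨⟨a, hab⟩, ha, h.top_mem ht, rfl⟩⟩

theorem vi_nat : VI N G (natName t) := fun a b _ _ e => by
  rw [h.val_natName ht, h.val_natName ht] at e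
  exact nat_inj e

theorem vi_prod {A : Type u} {B : Type v} {f : A → Name P} {g : B → Name P} (hf : VI N G f)
    (hg : VI N G g) : VI N G (prodN t f g) := fun a b ha hb e => by
  obtain ⟨h1, h2⟩ := h.pairN_mem_iff.1 ha
  obtain ⟨h3, h4⟩ := h.pairN_mem_iff.1 hb
  rw [prodN, prodN, h.val_pairN ht h1 h2, h.val_pairN ht h3 h4, pair_inj] at e
  exact Prod.ext (hf _ _ h1 h3 e.1) (hg _ _ h2 h4 e.2)

theorem mem_val_fin {A : Type 1} {nm : A → Name P} {a : Finset A} (ha : ∀ x ∈ a, nm x ∈ N)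
    {z : ZFSet} : z ∈ val N G (finN t nm a) ↔ ∃ x ∈ a, z = val N G (nm x) := by
  rw [finN, mem_val]
  exact ⟨fun ⟨x, _, _, e⟩ => ⟨x, x.2, e.symm⟩, fun ⟨x, hx, e⟩ =>
    ⟨⟨x, hx⟩, ha x hx, h.top_mem ht, e.symm⟩⟩

theorem vi_fin {A : Type 1} {nm : A → Name P} (hv : VI N G nm)
    (hf : ∀ a, finN t nm a ∈ N → ∀ x ∈ a, nm x ∈ N) : VI N G (finN t nm) := by
  have key : ∀ a b, finN t nm a ∈ N → finN t nm b ∈ N →
      val N G (finN t nm a) = val N G (finN t nm b) → a ⊆ b := fun a b ha hb e x hx => by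
    obtain ⟨y, hy, e'⟩ := (h.mem_val_fin ht (hf b hb)).1
      (e ▸ (h.mem_val_fin ht (hf a ha)).2 ⟨x, hx, rfl⟩)
    exact hv _ _ (hf a ha x hx) (hf b hb y hy) e' ▸ hy
  exact fun a b ha hb e => (key a b ha hb e).antisymm (key b a hb ha e.symm)

variable [Fact (ZFC (val N G '' N))]

omit ht in
theorem mem_val_un {A : Type 1} {nm : A → Name P} {z : ZFSet} :
    z ∈ val N G (relN nm fun _ _ => True) ↔ ∃ x : Sub N nm, z = val N G (nm x.a) := by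
  rw [relN, mem_val]
  obtain ⟨p, hp⟩ := h.nonempty
  exact ⟨fun ⟨s, h1, _, e⟩ => ⟨⟨_, h1⟩, e.symm⟩,
    fun ⟨x, e⟩ => ⟨⟨(x.a, p), trivial⟩, x.mem, hp, e.symm⟩⟩

omit ht in
theorem exists_srt {A : Type 1} {nm : A → Name P} (hv : VI N G nm)
    (hu : relN nm (fun _ _ => True) ∈ N) : ∃ _ : Srt (val N G '' N) (Sub N nm),
      Sm (val N G '' N) (Sub N nm) ∧ Emb N G nm (Sub.a : Sub N nm → A) := by
  let S : Srt (val N G '' N) (Sub N nm) :=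
    { code := fun x => val N G (nm x.a)
      mem := fun x => ⟨_, x.mem, rfl⟩
      inj := fun x y e => Sub.ext (hv _ _ x.mem y.mem e)
      dom := ((DP.const 0 (Set.mem_image_of_mem (val N G) hu)).and (DP.mem 1 0)).ex.congr
        fun v _ => by
        simp only [cons_zero, cons_succ]
        exact ⟨fun hx => ⟨_, ⟨_, hu, rfl⟩, rfl, h.mem_val_un.2 hx⟩,
          fun ⟨_, _, e, hx⟩ => h.mem_val_un.1 (e ▸ hx)⟩ }
  exact ⟨S, sm_of_subset ⟨_, hu, rfl⟩ fun x => h.mem_val_un.2 ⟨x, rfl⟩, fun x => ⟨x.mem, rfl⟩⟩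

theorem emb_nat : Emb N G (natName t) (fun n : ℕ => n) :=
  fun n => ⟨h.natName_mem n, (h.val_natName ht n).symm⟩

theorem emb_prod {X : Type u} {Y : Type v} [Srt (val N G '' N) X] [Srt (val N G '' N) Y]
    {A : Type u'} {B : Type v'} {f : A → Name P} {g : B → Name P} {i : X → A} {j : Y → B}
    (hi : Emb N G f i) (hj : Emb N G g j) :
    Emb N G (prodN t f g) (fun p : X × Y => (i p.1, j p.2)) := fun p =>
  ⟨h.pairN_mem_iff.2 ⟨(hi _).1, (hj _).1⟩, by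
    rw [cd_prod, prodN, h.val_pairN ht (hi _).1 (hj _).1, (hi _).2, (hj _).2]⟩

theorem emb_fin {X : Type u} [Srt (val N G '' N) X] [Sm (val N G '' N) X] {A : Type 1}
    {nm : A → Name P} {j : X → A} (hj : Emb N G nm j)
    (hf : ∀ a : Finset A, (∀ x ∈ a, nm x ∈ N) → finN t nm a ∈ N) :
    Emb N G (finN t nm) (fun s : Finset X => s.image j) := fun s => by
  have h1 : ∀ x ∈ s.image j, nm x ∈ N := Finset.forall_mem_image.2 fun x _ => (hj x).1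
  refine ⟨hf _ h1, ?_⟩
  ext z
  simp only [mem_cd_finset, h.mem_val_fin ht h1, Finset.mem_image, exists_exists_and_eq_and,
    fun x => (hj x).2]

omit h ht in
theorem _root_.Pool.Agent.MP_b60a07_lc.H92.Emb.exists_ps {X : Type u} [Srt (val N G '' N) X]
    [Sm (val N G '' N) X] {A : Type 1} {nm : A → Name P} {j : X → A} (hj : Emb N G nm j)
    (hv : VI N G nm) {R : A → P → Prop} (hR : relN nm R ∈ N) :
    ∃ s : PS (val N G '' N) X, ∀ x, x ∈ s ↔ ∃ p ∈ G, R (j x) p :=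
  ⟨_, fun _ => PS.mem_of ((DfF.cd_mem_set DfF.id (Set.mem_image_of_mem (val N G) hR)).congr
    fun x => by rw [(hj x).2, mem_val_relN hv (hj x).1])⟩

omit ht in
theorem exists_name {X : Type u} [Srt (val N G '' N) X] [Sm (val N G '' N) X] {A : Type v}
    {nm : A → Name P} {j : X → A} (hj : Emb N G nm j) {s : X → Prop}
    (ds : DfF (val N G '' N) s) : ∃ τ ∈ N, ∀ x, s x ↔ ∃ p ∈ G, fMem le (nm (j x)) τ p := by
  obtain ⟨τ, hτ, e⟩ := cd_mem (M := val N G '' N) (PS.of (val N G '' N) s)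
  exact ⟨τ, hτ, fun x => by
    rw [← h.val_mem_iff (hj x).1 hτ, e, ← (hj x).2, cd_mem_cd_ps, PS.mem_of ds]⟩

end Gen

end Pool.Agent.MP_b60a07_lc.H92

end MrgPart0

-- ======== part 1: formerly Pool.Agent.MP_b60a07_lc.h92.Iter
section MrgPart1

/-! The poset of pairs (a forcing notion with the chain condition, a condition in it). -/

namespace Pool.Agent.MP_b60a07_lc.H92

open Function Set
open scoped Classical

def Ub (I : Od → Prop) : Prop := ∀ δ, ∃ i, δ < i ∧ I i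

theorem exists_bd {ι : Type*} [Small.{0} ι] (f : ι → Od) : ∃ b, ∀ i, f i < b := by
  obtain ⟨b, hb⟩ := Ordinal.bddAbove_of_small (s := range f)
  exact ⟨b + 1, fun i => (hb ⟨i, rfl⟩).trans_lt (lt_add_one b)⟩

theorem Ub.fiber {K : Type*} [Small.{0} K] {I : Od → Prop} (hI : Ub I) (R : Od → K → Prop)
    (h : ∀ i, I i → ∃ k, R i k) : ∃ k, Ub fun i => I i ∧ R i k := by
  by_contra hn
  simp only [Ub, not_exists, not_forall] at hn
  choose g hg using hn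
  obtain ⟨b, hb⟩ := exists_bd g
  obtain ⟨i, h1, h2⟩ := hI b
  obtain ⟨k, hk⟩ := h i h2
  exact hg k i ⟨(hb k).trans h1, h2, hk⟩

theorem ub_top : Ub fun _ => True := fun δ => ⟨δ + 1, lt_add_one δ, trivial⟩

theorem Ub.gt {I : Od → Prop} (hI : Ub I) (η : Od) : Ub fun i => I i ∧ η < i := fun δ =>
  let ⟨i, h1, h2⟩ := hI (max δ η); ⟨i, (max_lt_iff.1 h1).1, h2, (max_lt_iff.1 h1).2⟩

theorem fodor (f : Od → Od) (hf : ∀ ξ, 0 < ξ → f ξ < ξ) : ∃ η, Ub fun ξ => f ξ ≤ η := by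
  by_contra hn
  simp only [Ub, not_exists, not_forall, not_and] at hn
  choose g hg using hn
  let d : ℕ → Od := fun n => Nat.rec 0 (fun _ x => max x (g x) + 1) n
  have hd : ∀ n, d (n + 1) = max (d n) (g (d n)) + 1 := fun _ => rfl
  have hle : ∀ n, d n ≤ ⨆ n, d n := Ordinal.le_iSup d
  have h1 : ∀ n, max (d n) (g (d n)) < ⨆ n, d n := fun n =>
    (lt_add_one _).trans_le ((hd n).symm.le.trans (hle (n + 1)))
  obtain ⟨n, hn⟩ := Ordinal.lt_iSup_iff.1 (hf _ (max_lt_iff.1 (h1 0)).1)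
  exact hg (d n) _ (max_lt_iff.1 (h1 n)).2 hn.le

theorem Ub.seq {I : Od → Prop} (hI : Ub I) (h : Od → Od) :
    ∃ s : Od → Od, (∀ ξ, I (s ξ)) ∧ ∀ ξ η, ξ < η → s ξ < s η ∧ h (s ξ) < s η := by
  have key : ∀ (η : Od) (g : Iio η → Od), ∃ i, I i ∧ ∀ ξ, g ξ < i ∧ h (g ξ) < i := fun η g => by
    obtain ⟨b, hb⟩ := exists_bd fun ξ => max (g ξ) (h (g ξ))
    obtain ⟨i, h1, h2⟩ := hI b
    exact ⟨i, h2, fun ξ => max_lt_iff.1 ((hb ξ).trans h1)⟩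
  choose F h1 h2 using key
  let s : Od → Od := (wellFounded_lt (α := Od)).fix fun η g => F η fun ξ => g ξ.1 ξ.2
  have hs : ∀ η, s η = F η fun ξ => s ξ.1 := fun η => WellFounded.fix_eq _ _ η
  exact ⟨s, fun ξ => hs ξ ▸ h1 _ _, fun ξ η hlt => by rw [hs η]; exact h2 η _ ⟨ξ, hlt⟩⟩

/-- The chain condition. -/
def CC {α : Type*} (b : α → α → Prop) : Prop :=
  ∀ f : Od → α, (∀ i, b (f i) (f i)) → ∃ i j, i < j ∧ ∃ r, b r (f i) ∧ b r (f j)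

theorem CC.pair {α : Type*} {b : α → α → Prop} (hc : CC b) {I : Od → Prop} (hI : Ub I)
    (h : Od → Od) (f : Od → α) (hf : ∀ i, I i → b (f i) (f i)) :
    ∃ i j, I i ∧ I j ∧ i < j ∧ h i < j ∧ ∃ r, b r (f i) ∧ b r (f j) := by
  obtain ⟨s, h1, h2⟩ := hI.seq h
  obtain ⟨i, j, h3, h4⟩ := hc (fun i => f (s i)) fun i => hf _ (h1 i)
  exact ⟨_, _, h1 i, h1 j, (h2 i j h3).1, (h2 i j h3).2, h4⟩

/-- The condition forces that the set is unbounded. -/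
def Fu {α : Type*} (b : α → α → Prop) (x : α) (Y : Od → α → Prop) : Prop :=
  ∀ δ y, b y x → ∃ z, b z y ∧ ∃ i, δ < i ∧ Y i z

theorem CC.bnd {α : Type*} {b : α → α → Prop} (hc : CC b) (hl : ∀ {p q}, b p q → b p p)
    (tr : ∀ {p q r}, b p q → b q r → b p r) (Y : Od → α → Prop)
    (hY : ∀ i p q, b q p → Y i p → Y i q) :
    ∃ β, ∀ r i, β < i → Y i r → b r r → ∃ r', b r' r ∧ Fu b r' Y := by
  by_contra hn
  simp only [Fu, not_exists, not_forall, not_and] at hn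
  choose r i h1 h2 h3 h4 using hn
  choose δ y h5 h6 using fun β => h4 β (r β) (h3 β)
  obtain ⟨a, c, -, -, -, h7, s, h8, h9⟩ := hc.pair ub_top δ y fun β _ => hl (h5 β)
  exact h6 a s h8 (i c) (h7.trans (h1 c)) (hY _ _ _ (tr h9 (h5 c)) (h2 c))

abbrev U : Type 1 := Set Od × Od
abbrev Rl : Type 1 := U → U → Prop
def t0 : U := (∅, 0)

structure Good (b : Rl) : Prop where
  l : ∀ {p q}, b p q → b p p
  r : ∀ {p q}, b p q → b q q
  tr : ∀ {p q r}, b p q → b q r → b p r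
  top0 : b t0 t0
  top : ∀ {p}, b p p → b p t0
  sz : ∃ e : Od → U, ∀ p, b p p → ∃ i, e i = p
  cc : CC b

structure Ext (b b' : Rl) : Prop where
  le : ∀ {p q}, b p q → b' p q
  ag : ∀ {p q}, b p p → b q q → b' p q → b p q
  red : ∀ r, b' r r → ∃ π, b π π ∧ b' r π ∧ (∀ q, b q q → b' r q → b π q) ∧
    ∀ q, b q π → ∃ s, b' s q ∧ b' s r

theorem Good.ext {b : Rl} (h : Good b) : Ext b b :=
  ⟨id, fun _ _ => id, fun r hr => ⟨r, hr, hr, fun _ _ => id, fun q hq => ⟨q, h.l hq, hq⟩⟩⟩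

theorem Ext.trans {a b c : Rl} (h : Ext a b) (h' : Ext b c)
    (tr : ∀ {p q r}, c p q → c q r → c p r) : Ext a c := by
  refine ⟨fun e => h'.le (h.le e), fun hp hq e => h.ag hp hq (h'.ag (h.le hp) (h.le hq) e),
    fun r hr => ?_⟩
  obtain ⟨π, h1, h2, h3, h4⟩ := h'.red r hr
  obtain ⟨ρ, g1, g2, g3, g4⟩ := h.red π h1
  refine ⟨ρ, g1, tr h2 (h'.le g2), fun q hq e => g3 q hq (h3 q (h.le hq) e), fun q hq => ?_⟩
  obtain ⟨s, s1, s2⟩ := g4 q hq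
  obtain ⟨u, u1, u2⟩ := h4 s s2
  exact ⟨u, tr u1 (h'.le s1), u2⟩

theorem exists_surj (α : Type 1) [Nonempty α] (h : Cardinal.mk α ≤ Cardinal.mk Od) :
    ∃ e : Od → α, Surjective e :=
  let ⟨f⟩ := h; ⟨invFun f, invFun_surjective f.injective⟩

theorem surj_prod : ∃ e : Od → Od × Od, Surjective e :=
  exists_surj _ (by simp [Cardinal.mul_eq_self Cardinal.aleph0_lt_univ.le])

def sup (d : Od → Rl) : Rl := fun p q => ∃ i, d i p q

section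

variable {d : Od → Rl} (hg : ∀ i, Good (d i)) (hd : ∀ i j, ∃ k, Ext (d i) (d k) ∧ Ext (d j) (d k))
include hg hd

theorem sup_tr {p q r : U} (h : sup d p q) (h' : sup d q r) : sup d p r := by
  obtain ⟨i, hi⟩ := h
  obtain ⟨j, hj⟩ := h'
  obtain ⟨k, h1, h2⟩ := hd i j
  exact ⟨k, (hg k).tr (h1.le hi) (h2.le hj)⟩

omit hg in
theorem ext_sup (i : Od) : Ext (d i) (sup d) := by
  have ag : ∀ i {p q}, d i p p → d i q q → sup d p q → d i p q := fun i p q hp hq ⟨j, hj⟩ =>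
    let ⟨_, h1, h2⟩ := hd i j; h1.ag hp hq (h2.le hj)
  refine ⟨fun e => ⟨i, e⟩, ag i, fun r ⟨j, hj⟩ => ?_⟩
  obtain ⟨k, h1, h2⟩ := hd i j
  obtain ⟨π, g1, g2, g3, g4⟩ := h1.red r (h2.le hj)
  exact ⟨π, g1, ⟨k, g2⟩, fun q hq e => g3 q hq (ag k (h2.le hj) (h1.le hq) e),
    fun q hq => let ⟨s, s1, s2⟩ := g4 q hq; ⟨s, ⟨k, s1⟩, k, s2⟩⟩

theorem good_sup (hc : CC (sup d)) : Good (sup d) := by
  choose e he using fun i => (hg i).sz
  obtain ⟨c, hc'⟩ := surj_prod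
  refine ⟨fun ⟨i, h⟩ => ⟨i, (hg i).l h⟩, fun ⟨i, h⟩ => ⟨i, (hg i).r h⟩, sup_tr hg hd,
    ⟨0, (hg 0).top0⟩, fun ⟨i, h⟩ => ⟨i, (hg i).top h⟩,
    ⟨fun i => e (c i).1 (c i).2, fun p ⟨i, h⟩ => ?_⟩, hc⟩
  obtain ⟨j, hj⟩ := he i p h
  obtain ⟨k, hk⟩ := hc' (i, j)
  exact ⟨k, by simp only [hk, hj]⟩

end

theorem chain {b0 : Rl} (h0 : Good b0) (F : Od → Rl → Rl)
    (hF : ∀ ξ c, Good c → Good (F ξ c) ∧ Ext c (F ξ c)) :
    ∃ (b : Rl) (c : Od → Rl), Good b ∧ (∀ ξ, Good (c ξ) ∧ Ext b0 (c ξ) ∧ Ext (F ξ (c ξ)) b) ∧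
      ∀ p, b p p → ∃ ξ, c ξ p p := by
  let s : Od → Rl := (wellFounded_lt (α := Od)).fix fun ξ g =>
    F ξ (sup fun η => if h : η < ξ then g η h else b0)
  let c : Od → Rl := fun ξ => sup fun η => if η < ξ then s η else b0
  have hs : ∀ ξ, s ξ = F ξ (c ξ) := fun ξ => WellFounded.fix_eq _ _ ξ
  have step : ∀ ξ, (Good (c ξ) ∧ Ext b0 (c ξ) ∧ ∀ η < ξ, Ext (s η) (c ξ)) →
      Good (s ξ) ∧ Ext b0 (s ξ) ∧ ∀ η ≤ ξ, Ext (s η) (s ξ) := fun ξ h => by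
    obtain ⟨h1, h2⟩ := hF ξ _ h.1
    rw [← hs] at h1 h2
    exact ⟨h1, h.2.1.trans h2 h1.tr, fun η hη => hη.eq_or_lt.elim (fun e => e ▸ h1.ext)
      fun hη => (h.2.2 η hη).trans h2 h1.tr⟩
  have key : ∀ ξ, Good (c ξ) ∧ Ext b0 (c ξ) ∧ ∀ η < ξ, Ext (s η) (c ξ) := fun ξ => by
    induction ξ using WellFoundedLT.induction with
    | ind ξ ih =>
    have h1 := fun η hη => step η (ih η hη)
    have hg : ∀ η, Good (if η < ξ then s η else b0) := fun η => by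
      split_ifs with h
      exacts [(h1 η h).1, h0]
    have hb : ∀ η, Ext b0 (if η < ξ then s η else b0) := fun η => by
      split_ifs with h
      exacts [(h1 η h).2.1, h0.ext]
    have hd : ∀ i j, ∃ k, Ext (if i < ξ then s i else b0) (if k < ξ then s k else b0) ∧
        Ext (if j < ξ then s j else b0) (if k < ξ then s k else b0) := fun i j => by
      by_cases hi : i < ξ
      · by_cases hj : j < ξ
        · have hk := max_lt hi hj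
          exact ⟨max i j, by
            simpa only [hi, hj, hk, if_true] using ⟨(h1 _ hk).2.2 i (le_max_left _ _),
              (h1 _ hk).2.2 j (le_max_right _ _)⟩⟩
        · exact ⟨i, (hg i).ext, by rw [if_neg hj]; exact hb i⟩
      · exact ⟨j, by rw [if_neg hi]; exact hb j, (hg j).ext⟩
    refine ⟨good_sup hg hd fun f hf => ?_, by simpa using ext_sup hd ξ,
      fun η hη => by simpa only [hη, if_true] using ext_sup hd η⟩
    obtain ⟨k, hk⟩ := ub_top.fiber (K := Iic ξ)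
      (fun i k => (if k.1 < ξ then s k.1 else b0) (f i) (f i)) fun i _ => by
      obtain ⟨η, h⟩ := hf i
      by_cases hη : η < ξ
      · exact ⟨⟨η, hη.le⟩, h⟩
      · exact ⟨⟨ξ, le_refl ξ⟩, by simpa [hη] using h⟩
    obtain ⟨i, j, -, -, h2, -, r, h3, h4⟩ := (hg k).cc.pair hk id f fun _ h => h.2
    exact ⟨i, j, h2, r, ⟨k, h3⟩, k, h4⟩
  have h1 := fun ξ => step ξ (key ξ)
  have hd : ∀ i j, ∃ k, Ext (s i) (s k) ∧ Ext (s j) (s k) := fun i j =>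
    ⟨max i j, (h1 _).2.2 i (le_max_left _ _), (h1 _).2.2 j (le_max_right _ _)⟩
  have tr : ∀ {p q r}, sup s p q → sup s q r → sup s p r := sup_tr (fun i => (h1 i).1) hd
  have h2 : ∀ ξ, Ext (c ξ) (sup s) := fun ξ =>
    (hs ξ ▸ (hF ξ _ (key ξ).1).2 : Ext (c ξ) (s ξ)).trans (ext_sup hd ξ) tr
  refine ⟨sup s, c, good_sup (fun i => (h1 i).1) hd fun f hf => ?_,
    fun ξ => ⟨(key ξ).1, (key ξ).2.1, hs ξ ▸ ext_sup hd ξ⟩,
    fun p ⟨ξ, h⟩ => ⟨ξ + 1, ((key _).2.2 ξ (lt_add_one ξ)).le h⟩⟩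
  choose π p1 p2 p3 p4 using fun ξ => (h2 ξ).red (f ξ) (hf ξ)
  have h3 : ∀ ξ, ∃ η, (0 < ξ → η < ξ) ∧ s η (π ξ) (π ξ) := fun ξ => by
    obtain ⟨η, h⟩ := p1 ξ
    by_cases hη : η < ξ
    · exact ⟨η, fun _ => hη, by simpa [hη] using h⟩
    · exact ⟨0, id, (h1 0).2.1.le (by simpa [hη] using h)⟩
  choose g g1 g2 using h3
  choose k hk using hf
  obtain ⟨η, hη⟩ := fodor g g1
  obtain ⟨i, j, hi, hj, h4, h5, r, h6, h7⟩ := (h1 η).1.cc.pair (hη.gt η) k π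
    fun i hi => ((h1 η).2.2 _ hi.1).le (g2 i)
  obtain ⟨u, u1, u2⟩ := p4 i r (((key i).2.2 η hi.2).le h6)
  obtain ⟨ρ, -, -, r3, -⟩ := (h2 j).red u (let ⟨a, h⟩ := u1; ⟨a, (h1 a).1.l h⟩)
  have h8 := ((key j).2.2 η hj.2).le h7
  obtain ⟨v, v1, v2⟩ := p4 j ρ ((key j).1.tr (r3 r ((key j).1.l h8) u1) h8)
  exact ⟨i, j, h4, v, tr v1 ((h2 j).le (r3 _ (((key j).2.2 _ h5).le (hk i)) u2)), v2⟩

structure PP where
  b : Rl
  p : U
  g : Good b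
  m : b p p

def leP (x y : PP) : Prop := Ext y.b x.b ∧ x.b x.p y.p

instance : Pre leP where
  refl x := ⟨x.g.ext, x.m⟩
  trans {x _ _} h h' := ⟨h'.1.trans h.1 x.g.tr, x.g.tr h.2 (h.1.le h'.2)⟩

theorem exists_top : ∃ t : PP, ∀ x, leP x t := by
  refine ⟨⟨fun p q => p = t0 ∧ q = t0, t0, ⟨fun h => ⟨h.1, h.1⟩, fun h => ⟨h.2, h.2⟩,
    fun h h' => ⟨h.1, h'.2⟩, ⟨rfl, rfl⟩, fun h => ⟨h.1, rfl⟩, ⟨fun _ => t0, fun p h => ⟨0, h.1.symm⟩⟩,
    fun f hf => ⟨0, 1, zero_lt_one, t0, ⟨rfl, (hf 0).1⟩, rfl, (hf 1).1⟩⟩, rfl, rfl⟩,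
    fun x => ⟨⟨?_, fun h h' _ => ⟨h.1, h'.1⟩, fun r hr => ⟨t0, ⟨rfl, rfl⟩, x.g.top hr,
      fun q h _ => ⟨rfl, h.1⟩, fun q h => ⟨r, h.1 ▸ x.g.top hr, hr⟩⟩⟩, x.g.top x.m⟩⟩
  rintro _ _ ⟨rfl, rfl⟩
  exact x.g.top0

/-- Downward closed. -/
def Dn (R : PP → Prop) : Prop := ∀ ⦃x y⦄, leP y x → R x → R y

/-- The condition is below `p` read in `b`. -/
def Bl (x : PP) (b : Rl) (p : U) : Prop := Ext b x.b ∧ x.b x.p p

theorem Bl.mono {x y : PP} {b : Rl} {p q : U} (h : Bl x b p) (hy : leP y x) (hq : b p q) :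
    Bl y b q := ⟨h.1.trans hy.1 y.g.tr, y.g.tr hy.2 (hy.1.le (x.g.tr h.2 (h.1.le hq)))⟩

def At (R : PP → Prop) (b : Rl) (p : U) : Prop := ∃ g m, R ⟨b, p, g, m⟩

theorem At.of {R : PP → Prop} {b : Rl} {p : U} (h : At R b p) (hR : Dn R) {x : PP}
    (hx : Bl x b p) : R x := let ⟨g, m, h⟩ := h; hR (x := ⟨b, p, g, m⟩) hx h

theorem At.mono {R : PP → Prop} {b : Rl} {p q : U} (h : At R b p) (hR : Dn R) (hq : b q p) :
    At R b q := let ⟨g, m, h⟩ := h; ⟨g, g.l hq, hR (x := ⟨b, p, g, m⟩) ⟨g.ext, hq⟩ h⟩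

theorem red (x : PP) {b : Rl} (h : Ext b x.b) : ∃ π, b π π ∧ Bl x b π ∧
    (∀ q, b q q → Bl x b q → b π q) ∧ ∀ q, b q π → ∃ z, leP z x ∧ Bl z b q := by
  obtain ⟨π, h1, h2, h3, h4⟩ := h.red _ x.m
  refine ⟨π, h1, ⟨h, h2⟩, fun q hq e => h3 q hq e.2, fun q hq => ?_⟩
  obtain ⟨s, s1, s2⟩ := h4 q hq
  exact ⟨⟨x.b, s, x.g, x.g.l s1⟩, ⟨x.g.ext, s2⟩, h, s1⟩

def Cap (R : PP → Prop) (b : Rl) : Prop :=
  ∀ p, b p p → ∀ x, Bl x b p → R x → ∃ q, b q p ∧ At R b q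

theorem capture {ι : Type 1} (e : Od → ι) (he : Surjective e) (R : ι → PP → Prop)
    (hR : ∀ i, Dn (R i)) {b0 : Rl} (h0 : Good b0) : ∃ b, Good b ∧ Ext b0 b ∧ ∀ i, Cap (R i) b := by
  have one : ∀ c, ∃ b, Good c → (Good b ∧ Ext c b) ∧ ∀ i p, c p p → ∀ x, Bl x b p → R i x →
      ∃ q, b q p ∧ At (R i) b q := fun c => by
    by_cases hc : Good c
    swap
    · exact ⟨c, fun h => absurd h hc⟩
    obtain ⟨u, hu⟩ := hc.sz
    obtain ⟨k, hk⟩ := surj_prod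
    have h1 : ∀ ξ a, ∃ a', Good a → (Good a' ∧ Ext a a') ∧ ((∃ x, Bl x a (u (k ξ).2) ∧
        R (e (k ξ).1) x) → ∃ q, a' q (u (k ξ).2) ∧ At (R (e (k ξ).1)) a' q) := fun ξ a => by
      by_cases h : ∃ x, Bl x a (u (k ξ).2) ∧ R (e (k ξ).1) x
      · obtain ⟨x, h1, h2⟩ := h
        exact ⟨x.b, fun _ => ⟨⟨x.g, h1.1⟩, fun _ => ⟨x.p, h1.2, x.g, x.m, h2⟩⟩⟩
      · exact ⟨a, fun ha => ⟨⟨ha, ha.ext⟩, fun h' => absurd h' h⟩⟩
    choose F hF using h1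
    obtain ⟨b, d, h1, h2, -⟩ := chain hc F fun ξ a ha => (hF ξ a ha).1
    have h3 : ∀ ξ, Ext (d ξ) b := fun ξ => (hF ξ _ (h2 ξ).1).1.2.trans (h2 ξ).2.2 h1.tr
    refine ⟨b, fun _ => ⟨⟨h1, (h2 0).2.1.trans (h3 0) h1.tr⟩, fun i p hp x hx hr => ?_⟩⟩
    obtain ⟨i, rfl⟩ := he i
    obtain ⟨j, rfl⟩ := hu p hp
    obtain ⟨ξ, hξ⟩ := hk (i, j)
    obtain ⟨q, q1, q2⟩ := (hF ξ _ (h2 ξ).1).2 ⟨x, by
      rw [hξ]; exact ⟨⟨(h3 ξ).trans hx.1 x.g.tr, hx.2⟩, hr⟩⟩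
    rw [hξ] at q1 q2
    have q3 := (h2 ξ).2.2.le q1
    exact ⟨q, q3, h1, h1.l q3, q2.of (hR _) ⟨(h2 ξ).2.2, h1.l q3⟩⟩
  choose F hF using one
  obtain ⟨b, d, h1, h2, h3⟩ := chain h0 (fun _ => F) fun _ a ha => (hF a ha).1
  refine ⟨b, h1, (h2 0).2.1.trans ((hF _ (h2 0).1).1.2.trans (h2 0).2.2 h1.tr) h1.tr,
    fun i p hp x hx hr => ?_⟩
  obtain ⟨ξ, hξ⟩ := h3 p hp
  obtain ⟨q, q1, q2⟩ := (hF _ (h2 ξ).1).2 i p hξ x ⟨(h2 ξ).2.2.trans hx.1 x.g.tr, hx.2⟩ hr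
  have q3 := (h2 ξ).2.2.le q1
  exact ⟨q, q3, h1, h1.l q3, q2.of (hR _) ⟨(h2 ξ).2.2, h1.l q3⟩⟩

/-- The order of a two step iteration. -/
def le2 {W : Type 1} (b : Rl) (D : U → Finset W → Prop) (u v : U × Finset W) : Prop :=
  b u.1 v.1 ∧ D u.1 u.2 ∧ D v.1 v.2 ∧ v.2 ⊆ u.2

theorem gen {W : Type 1} (e : Od → Finset W) (he : Surjective e) {b : Rl} (hb : Good b)
    (D : U → Finset W → Prop) (Dm : ∀ p q a, b q p → D p a → D q a) (D0 : ∀ p, D p ∅)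
    (hc : CC (le2 b D)) (u0 : U × Finset W) (h0 : le2 b D u0 u0) :
    ∃ (x : PP) (H : W → PP → Prop), Bl x b u0.1 ∧ (∀ w, Dn (H w)) ∧ ∀ y, leP y x →
      ∃ u, le2 b D u u0 ∧ Bl y b u.1 ∧ (∀ w, H w y → w ∈ u.2) ∧
        ∀ v, le2 b D v u → ∃ z, leP z y ∧ Bl z b v.1 ∧ ∀ w ∈ v.2, H w z := by
  obtain ⟨s, hs⟩ := hb.sz
  obtain ⟨k, hk⟩ := surj_prod
  obtain ⟨t, ht⟩ : ∃ t : Set Od, ∀ i, (s i).1 ≠ t := by
    simpa [Surjective] using cantor_surjective fun i => (s i).1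
  let dec : U → U × Finset W := fun u => if u.1 = t then (s (k u.2).1, e (k u.2).2) else (u, ∅)
  have d0 : ∀ p, b p p → dec p = (p, ∅) := fun p hp => by
    obtain ⟨i, rfl⟩ := hs p hp
    exact if_neg (ht i)
  have d1 : ∀ v : U × Finset W, b v.1 v.1 → ∃ u, dec u = v := fun v hv => by
    obtain ⟨i, hi⟩ := hs _ hv
    obtain ⟨j, hj⟩ := he v.2
    obtain ⟨l, hl⟩ := hk (i, j)
    exact ⟨(t, l), by simp only [dec, if_true, hl, hi, hj]⟩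
  let b' : Rl := fun u v => le2 b D (dec u) (dec v)
  have tr : ∀ {u v w}, le2 b D u v → le2 b D v w → le2 b D u w := fun h h' =>
    ⟨hb.tr h.1 h'.1, h.2.1, h'.2.2.1, h'.2.2.2.trans h.2.2.2⟩
  have hl : ∀ {u v}, le2 b D u v → le2 b D u u := fun h => ⟨hb.l h.1, h.2.1, h.2.1, subset_rfl⟩
  have up : ∀ {u q}, le2 b D u u → b q q → (le2 b D u (dec q) ↔ b u.1 q) := fun h hq => by
    rw [d0 _ hq]
    exact ⟨fun h => h.1, fun h' => ⟨h', h.2.1, D0 _, Finset.empty_subset _⟩⟩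
  have le : ∀ {p q}, b p q → b' p q := fun h => by
    simp only [b', d0 _ (hb.l h), d0 _ (hb.r h)]
    exact ⟨h, D0 _, D0 _, subset_rfl⟩
  have hb' : Good b' := by
    refine ⟨hl, fun h => ⟨hb.r h.1, h.2.2.1, h.2.2.1, subset_rfl⟩, tr, le hb.top0,
      fun h => (up h hb.top0).2 (hb.top h.1),
      ⟨fun i => if (k i).1 = 0 then (t, (k i).2) else s (k i).2, fun p hp => ?_⟩, fun f hf => ?_⟩
    · by_cases h : p.1 = t
      · obtain ⟨l, hl⟩ := hk (0, p.2)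
        exact ⟨l, by simp [hl, ← h]⟩
      · obtain ⟨i, hi⟩ := hs p (by simpa only [dec, if_neg h] using hp.1)
        obtain ⟨l, hl⟩ := hk (1, i)
        exact ⟨l, by simp [hl, hi]⟩
    · obtain ⟨i, j, h1, r, h2, h3⟩ := hc (fun i => dec (f i)) hf
      obtain ⟨r, rfl⟩ := d1 r (hb.l h2.1)
      exact ⟨i, j, h1, r, h2, h3⟩
  have hE : Ext b b' := by
    refine ⟨le, fun hp hq h => by simpa only [d0 _ hp] using (up (hl h) hq).1 h, fun r hr =>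
      ⟨_, hr.1, (up hr hr.1).2 hr.1, fun q hq h => (up hr hq).1 h, fun q hq => ?_⟩⟩
    obtain ⟨u, hu⟩ := d1 (q, (dec r).2) (hb.l hq)
    have h1 : b' u r := by
      simp only [b', hu]
      exact ⟨hq, Dm _ _ _ hq hr.2.1, hr.2.1, subset_rfl⟩
    exact ⟨u, (up (hl h1) (hb.l hq)).2 (by rw [hu]; exact hb.l hq), h1⟩
  have bl : ∀ {y u}, b' u u → Bl y b' u → Bl y b (dec u).1 := fun {y u} h h' =>
    ⟨hE.trans h'.1 y.g.tr, y.g.tr h'.2 (h'.1.le ((up h h.1).2 h.1))⟩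
  obtain ⟨x, rfl⟩ := d1 u0 h0.1
  refine ⟨⟨b', x, hb', h0⟩, fun w y => ∃ u, b' u u ∧ w ∈ (dec u).2 ∧ Bl y b' u,
    bl h0 ⟨hb'.ext, h0⟩, fun w y z h ⟨u, h1, h2, h3⟩ => ⟨u, h1, h2, h3.mono h h1⟩, fun y hy => ?_⟩
  obtain ⟨π, h1, h2, h3, h4⟩ := red y hy.1
  refine ⟨dec π, h3 x h0 hy, bl h1 h2, fun w ⟨u, u1, u2, u3⟩ => (h3 u u1 u3).2.2.2 u2,
    fun v hv => ?_⟩
  obtain ⟨v, rfl⟩ := d1 v (hb.l hv.1)
  obtain ⟨z, z1, z2⟩ := h4 v hv
  exact ⟨z, z1, bl (hl hv) z2, fun w hw => ⟨v, hl hv, hw, z2⟩⟩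

end Pool.Agent.MP_b60a07_lc.H92

end MrgPart1

-- ======== part 2: formerly Pool.Agent.MP_b60a07_lc.h92.Steps
section MrgPart2

/-! The four density arguments. -/

namespace Pool.Agent.MP_b60a07_lc.H92

open Function Set
open scoped Classical

abbrev W0 : Type 1 := Od × ℕ

theorem mk_W0 : Cardinal.mk W0 = Cardinal.mk Od := by
  simpa using Cardinal.mul_eq_left Cardinal.aleph0_lt_univ.le Cardinal.aleph0_lt_univ.le
    Cardinal.aleph0_ne_zero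

theorem surj_W0 : ∃ e : Od → W0, Surjective e := exists_surj _ mk_W0.le

theorem surj_fin : ∃ e : Od → Finset W0, Surjective e :=
  exists_surj _ ((Cardinal.mk_finset_of_infinite _).trans mk_W0).le

theorem Cap.red {R : PP → Prop} {b : Rl} (h : Cap R b) (hb : Good b) (hR : Dn R) {x : PP}
    (hx : R x) {π : U} (hπ : ∀ q, b q π → ∃ z, leP z x ∧ Bl z b q) {q : U} (hq : b q π) :
    ∃ r, b r q ∧ At R b r :=
  let ⟨z, h1, h2⟩ := hπ q hq; h q (hb.l hq) z h2 (hR h1 hx)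

theorem Fu.lift {b : Rl} (hb : Good b) {p : U} (hp : b p p) {Y : Od → U → Prop} (h : Fu b p Y) :
    Fu leP ⟨b, p, hb, hp⟩ fun i y => ∃ r, b r r ∧ Y i r ∧ Bl y b r := fun δ y hy => by
  obtain ⟨π, -, -, h3, h4⟩ := red y hy.1
  obtain ⟨r, r1, i, r2, r3⟩ := h δ π (h3 p hp hy)
  obtain ⟨z, z1, z2⟩ := h4 r r1
  exact ⟨z, z1, i, r2, r, hb.l r1, r3, z2⟩

theorem collapse (x0 : PP) (i : Od) : ∃ (x : PP) (H : W0 → PP → Prop), leP x x0 ∧ (∀ w, Dn (H w)) ∧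
    (∀ y, leP y x → ∀ j j' n, H (j, n) y → H (j', n) y → j = j') ∧
    ∀ j < i, ∀ y, leP y x → ∃ z, leP z y ∧ ∃ n, H (j, n) z := by
  obtain ⟨e, he⟩ := surj_fin
  obtain ⟨x, H, h1, h2, h3⟩ := gen e he x0.g
    (fun _ a => ∀ w ∈ a, w.1 < i ∧ ∀ w' ∈ a, w.2 = w'.2 → w.1 = w'.1) (fun _ _ _ _ => id)
    (by simp) (fun f hf => by
      obtain ⟨k, hk⟩ := ub_top.fiber (K := Set (Iio i × ℕ))
        (fun ξ k => ∀ w, w ∈ k ↔ (w.1.1, w.2) ∈ (f ξ).2) fun ξ _ => ⟨_, fun _ => Iff.rfl⟩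
      obtain ⟨a, c, ha, hc, h1, -, r, h2, h3⟩ := x0.g.cc.pair hk id (fun ξ => (f ξ).1)
        fun ξ _ => (hf ξ).1
      exact ⟨a, c, h1, (r, (f a).2), ⟨h2, (hf a).2.1, (hf a).2.1, subset_rfl⟩, h3, (hf a).2.1,
        (hf c).2.1, fun w hw => (ha.2 (⟨w.1, ((hf c).2.1 w hw).1⟩, w.2)).1 ((hc.2 _).2 hw)⟩)
    (x0.p, ∅) ⟨x0.m, by simp, by simp, subset_rfl⟩
  refine ⟨x, H, h1, h2, fun y hy j j' n a c => ?_, fun j hj y hy => ?_⟩
  · obtain ⟨u, u1, -, u2, -⟩ := h3 y hy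
    exact (u1.2.1 _ (u2 _ a)).2 _ (u2 _ c) rfl
  · obtain ⟨u, u1, -, -, u3⟩ := h3 y hy
    have hn : ∀ w ∈ u.2, w.2 ≠ u.2.sup Prod.snd + 1 := fun w hw =>
      (Nat.lt_succ_of_le (Finset.le_sup (f := Prod.snd) hw)).ne
    obtain ⟨z, z1, -, z2⟩ := u3 (u.1, insert (j, u.2.sup Prod.snd + 1) u.2) ⟨x0.g.l u1.1, by
      simp only [Finset.forall_mem_insert]
      exact ⟨⟨hj, fun _ => trivial, fun w hw e => absurd e.symm (hn w hw)⟩, fun w hw =>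
        ⟨(u1.2.1 w hw).1, fun e => absurd e (hn w hw), (u1.2.1 w hw).2⟩⟩, u1.2.1,
      Finset.subset_insert _ _⟩
    exact ⟨z, z1, _, z2 _ (Finset.mem_insert_self _ _)⟩

theorem regular (x0 : PP) (F : W0 → PP → Prop) (hF : ∀ w, Dn (F w)) : ∃ x, leP x x0 ∧
    ((∃ β, ∀ y, leP y x → ∀ w, F w y → w.1 < β) ∨
      ∃ n j j', j ≠ j' ∧ F (j, n) x ∧ F (j', n) x) := by
  by_contra hn
  simp only [not_exists, not_and, not_or] at hn
  obtain ⟨e, he⟩ := surj_W0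
  obtain ⟨b, hb, h1, h2⟩ := capture e he F hF x0.g
  have h3 : ∀ n, ∃ β, ∀ j, β < j → ∀ r, b r x0.p → ¬ At (F (j, n)) b r := fun n => by
    by_contra h
    push Not at h
    have h' : Ub fun j => ∃ r, b r x0.p ∧ At (F (j, n)) b r := h
    choose! r r1 r2 using fun j (h : ∃ r, b r x0.p ∧ At (F (j, n)) b r) => h
    obtain ⟨i, j, hi, hj, h4, -, s, s1, s2⟩ := hb.cc.pair h' id r fun j h => hb.l (r1 j h)
    exact (hn ⟨b, s, hb, hb.l s1⟩ ⟨h1, hb.tr s1 (r1 i hi)⟩).2 n i j h4.ne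
      ((r2 i hi).of (hF _) ⟨hb.ext, s1⟩) ((r2 j hj).of (hF _) ⟨hb.ext, s2⟩)
  choose β hβ using h3
  obtain ⟨γ, hγ⟩ := exists_bd β
  refine (hn ⟨b, x0.p, hb, h1.le x0.m⟩ ⟨h1, h1.le x0.m⟩).1 γ fun y hy w hw => ?_
  obtain ⟨π, p1, -, p3, p4⟩ := red y hy.1
  obtain ⟨r, r1, r2⟩ := (h2 w).red hb (hF w) hw p4 p1
  exact lt_of_le_of_lt (not_lt.1 fun h => hβ w.2 w.1 h r (hb.tr r1 (p3 _ (h1.le x0.m) hy)) r2) (hγ _)

theorem martin (x0 : PP) (K : Finset W0 → PP → Prop) (hK : ∀ a, Dn (K a)) (D : W0 → W0 → PP → Prop)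
    (hD : ∀ ξ w, Dn (D ξ w)) (h0 : K ∅ x0) : ∃ x, leP x x0 ∧
    ((∃ a ξ, K a x ∧ ∀ y, leP y x → ∀ w, D ξ w y → ¬ K (insert w a) y) ∨
      (∃ A : Od × Finset W0 → PP → Prop, (∀ z, Dn (A z)) ∧ Fu leP x (fun i y => ∃ a, A (i, a) y) ∧
        (∀ z y, A z y → K z.2 y) ∧
        ∀ y, leP y x → ∀ z z', z.1 ≠ z'.1 → A z y → A z' y → ¬ K (z.2 ∪ z'.2) y) ∨
      ∃ H : W0 → PP → Prop, (∀ w, Dn (H w)) ∧
        (∀ y, leP y x → ∃ c, K c y ∧ ∀ w, H w y → w ∈ c) ∧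
        ∀ ξ y, leP y x → ∃ z, leP z y ∧ ∃ w, H w z ∧ D ξ w z) := by
  by_contra hn
  simp only [not_exists, not_and, not_or] at hn
  obtain ⟨e, he⟩ := exists_surj (Finset W0 ⊕ W0 × W0) (by
    rw [Cardinal.mk_sum, Cardinal.mk_prod, Cardinal.mk_finset_of_infinite, mk_W0]
    simp [Cardinal.mul_eq_self Cardinal.aleph0_lt_univ.le,
      Cardinal.add_eq_self Cardinal.aleph0_lt_univ.le])
  obtain ⟨b, hb, h1, h2⟩ := capture e he (Sum.elim K fun p => D p.1 p.2)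
    (by rintro (a | p); exacts [hK a, hD _ _]) x0.g
  have m0 := h1.le x0.m
  have k0 : At (K ∅) b x0.p := ⟨hb, m0, hK _ (show leP ⟨b, _, hb, m0⟩ x0 from ⟨h1, m0⟩) h0⟩
  obtain ⟨e', he'⟩ := surj_fin
  obtain ⟨x, H, g1, g2, g3⟩ := gen e' he' hb (fun p a => a = ∅ ∨ b p x0.p ∧ At (K a) b p)
    (fun _ _ _ h h' => h'.imp_right fun h' => ⟨hb.tr h h'.1, h'.2.mono (hK _) h⟩)
    (fun _ => Or.inl rfl) (fun f hf => by
      obtain ⟨k, hk⟩ := ub_top.fiber (K := Bool) (fun ξ k => cond k ((f ξ).2 = ∅)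
        (b (f ξ).1 x0.p ∧ At (K (f ξ).2) b (f ξ).1)) fun ξ _ =>
          (hf ξ).2.1.elim (fun h => ⟨true, h⟩) fun h => ⟨false, h⟩
      cases k
      · obtain ⟨β, hβ⟩ := hb.cc.bnd hb.l hb.tr
          (fun i r => (b (f i).1 x0.p ∧ At (K (f i).2) b (f i).1) ∧ b r (f i).1)
          fun _ _ _ h h' => ⟨h'.1, hb.tr h h'.2⟩
        obtain ⟨i, hi, -, h3⟩ := hk β
        obtain ⟨r, r1, r2⟩ := hβ _ i hi ⟨h3, (hf i).1⟩ (hf i).1
        have h4 := (hn ⟨b, r, hb, hb.l r1⟩ ⟨h1, hb.tr r1 h3.1⟩).2.1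
          (fun z y => z.2 = (f z.1).2 ∧ (b (f z.1).1 x0.p ∧ At (K (f z.1).2) b (f z.1).1) ∧
            Bl y b (f z.1).1) (fun z _ _ h h' => ⟨h'.1, h'.2.1, h'.2.2.mono h (hf _).1⟩)
          (fun δ y hy => let ⟨z, z1, j, z2, s, _, s2, s3⟩ := r2.lift hb (hb.l r1) δ y hy
            ⟨z, z1, j, z2, (f j).2, rfl, s2.1, s3.mono (lrefl z) s2.2⟩)
          fun z y h => h.1 ▸ h.2.1.2.of (hK _) h.2.2
        push Not at h4
        obtain ⟨y, hy, ⟨i, a⟩, ⟨j, c⟩, hne, ⟨a0, a1, a2⟩, ⟨c0, c1, c2⟩, h5⟩ := h4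
        dsimp only at a0 c0 a1 a2 c1 c2 hne h5
        subst a0 c0
        obtain ⟨π, p1, -, p3, p4⟩ := red y hy.1
        obtain ⟨s, s1, s2⟩ := (h2 (.inl _)).red hb (hK _) h5 p4 p1
        have a3 := hb.tr s1 (p3 _ (hf i).1 a2)
        have c3 := hb.tr s1 (p3 _ (hf j).1 c2)
        have h6 : le2 b (fun p a => a = ∅ ∨ b p x0.p ∧ At (K a) b p) (s, (f i).2 ∪ (f j).2) (f i) :=
          ⟨a3, Or.inr ⟨hb.tr a3 a1.1, s2⟩, Or.inr a1, Finset.subset_union_left⟩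
        have h7 : le2 b (fun p a => a = ∅ ∨ b p x0.p ∧ At (K a) b p) (s, (f i).2 ∪ (f j).2) (f j) :=
          ⟨c3, h6.2.1, Or.inr c1, Finset.subset_union_right⟩
        rcases lt_or_gt_of_ne hne with h | h
        exacts [⟨i, j, h, _, h6, h7⟩, ⟨j, i, h, _, h7, h6⟩]
      · obtain ⟨a, c, ha, hc, h1, -, r, h2, h3⟩ := hb.cc.pair hk id (fun ξ => (f ξ).1)
          fun ξ _ => (hf ξ).1
        exact ⟨a, c, h1, (r, ∅), ⟨h2, Or.inl rfl, Or.inl ha.2, ha.2.le⟩, h3, Or.inl rfl,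
          Or.inl hc.2, hc.2.le⟩)
    (x0.p, ∅) ⟨m0, Or.inl rfl, Or.inl rfl, subset_rfl⟩
  have g4 : ∀ u, le2 b (fun p a => a = ∅ ∨ b p x0.p ∧ At (K a) b p) u (x0.p, ∅) →
      At (K u.2) b u.1 := fun u hu => hu.2.1.elim (fun e => e ▸ k0.mono (hK _) hu.1) And.right
  refine (hn x ⟨h1.trans g1.1 x.g.tr, g1.2⟩).2.2 H g2 (fun y hy => ?_) fun ξ y hy => ?_
  · obtain ⟨u, u1, u2, u3, -⟩ := g3 y hy
    exact ⟨u.2, (g4 u u1).of (hK _) u2, u3⟩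
  · obtain ⟨u, u1, -, -, u4⟩ := g3 y hy
    obtain ⟨_, m, h3⟩ := g4 u u1
    have h4 := (hn ⟨b, u.1, hb, m⟩ ⟨h1, u1.1⟩).1 u.2 ξ h3
    push Not at h4
    obtain ⟨y', hy', w, h5, h6⟩ := h4
    obtain ⟨π, p1, -, p3, p4⟩ := red y' hy'.1
    obtain ⟨s, s1, s2⟩ := (h2 (.inl _)).red hb (hK _) h6 p4 p1
    obtain ⟨r, r1, r2⟩ := (h2 (.inr (ξ, w))).red hb (hD _ _) h5 p4 s1
    have r3 := hb.tr r1 (hb.tr s1 (p3 _ m hy'))
    obtain ⟨z, z1, z2, z3⟩ := u4 (r, insert w u.2) ⟨r3, Or.inr ⟨hb.tr r3 u1.1, s2.mono (hK _) r1⟩,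
      u1.2.1, Finset.subset_insert _ _⟩
    exact ⟨z, z1, w, z3 w (Finset.mem_insert_self _ _), r2.of (hD _ _) z2⟩

theorem exists_enum (s : Finset Od) : ∃ x : ℕ → Od, (∀ l m, l < m → m < s.card → x l < x m) ∧
    (∀ l < s.card, x l ∈ s) ∧ ∀ i ∈ s, ∃ l < s.card, x l = i := by
  refine ⟨fun l => if h : l < s.card then s.orderEmbOfFin rfl ⟨l, h⟩ else 0, fun l m h1 h2 => ?_,
    fun l h => ?_, fun i hi => ?_⟩
  · simp only [h2, h1.trans h2, dif_pos]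
    exact (s.orderEmbOfFin rfl).strictMono h1
  · simp [h]
  · obtain ⟨l, hl⟩ : i ∈ range (s.orderEmbOfFin rfl) := by simpa using hi
    exact ⟨l, l.2, by simpa using hl⟩

theorem Good.nice {b : Rl} (hb : Good b) {s : Od → U} (hs : ∀ p, b p p → ∃ i, s i = p)
    (T : U → Prop) : ∃ β, ∀ q, b q q → T q → ∃ i ≤ β, T (s i) ∧ ∃ r, b r q ∧ b r (s i) := by
  by_contra hn
  push Not at hn
  choose q h1 h2 h3 using hn
  choose k hk using fun β => hs _ (h1 β)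
  obtain ⟨i, j, -, -, -, h4, r, h5, h6⟩ := hb.cc.pair ub_top k q fun β _ => h1 β
  exact h3 j (k i) h4.le (hk i ▸ h2 i) r h6 (hk i ▸ h5)

abbrev Pat := Finset (ℕ × ℕ)

theorem clique_cc {b : Rl} (hb : Good b) (e : Od → ℕ → U → Prop)
    (he : ∀ {i n p q}, b q p → e i n p → e i n q) (ρ : ℕ → ℕ → Prop) (hρ : ∀ u v, ρ u v → ρ v u)
    (p0 : U) (H : ∀ Y : Od → U → Prop, (∀ i p q, b q p → Y i p → Y i q) → ∀ q, b q p0 → Fu b q Y →
      (∀ i r, Y i r → e i 0 r) → ∃ r, b r q ∧ ∃ i j, Y i r ∧ Y j r ∧ ∃ u v, ρ u v ∧ e i u r ∧ e j v r) :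
    ∃ g : Od → Od, CC (le2 b fun p a => ∀ i ∈ a, b p p0 ∧ e i 0 p ∧ ∀ j ∈ a, i < j →
      g i < j ∧ ∃ u v, ρ u v ∧ e i u p ∧ e j v p) := by
  obtain ⟨s, hs⟩ := hb.sz
  let Tc : Set (Pat × Od) → Pat → U → Prop := fun c σ q =>
    ∀ q', b q' q → ∃ i, (σ, i) ∈ c ∧ ∃ r, b r q' ∧ b r (s i)
  let Re : (ℕ → Od) → ℕ → Pat → U → Prop := fun t m σ r => ∀ z ∈ σ, z.1 < m ∧ e (t z.1) z.2 r
  have Rm : ∀ {t m σ p q}, b q p → Re t m σ p → Re t m σ q := fun h h' z hz =>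
    ⟨(h' z hz).1, he h (h' z hz).2⟩
  let Con : Set (Pat × Od) → (ℕ → Od) → ℕ → Pat → U → Prop := fun c t m τ q =>
    ∀ r, b r q → ∀ σ, Re t m σ r → Tc c (σ ∪ τ) r
  let Y : Set (Pat × Od) → (ℕ → Od) → ℕ × Pat × Pat → Od → U → Prop := fun c t k y q =>
    e y 0 q ∧ Con c (update t k.1 y) (k.1 + 1) k.2.1 q ∧ Con c (update t k.1 y) (k.1 + 1) k.2.2 q
  have Ym : ∀ c t k i p q, b q p → Y c t k i p → Y c t k i q := fun c t k i p q h h' =>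
    ⟨he h h'.1, fun r hr => h'.2.1 r (hb.tr hr h), fun r hr => h'.2.2 r (hb.tr hr h)⟩
  choose B hB using fun c t k => hb.cc.bnd hb.l hb.tr (Y c t k) (Ym c t k)
  choose g hg using fun δ : Od => exists_bd
    fun z : Set (Pat × Iic δ) × (ℕ → Iic δ) × ℕ × Pat × Pat =>
      B ((fun w => (w.1, w.2.1)) '' z.1) (fun l => (z.2.1 l).1) z.2.2
  replace hg : ∀ δ c t k, (∀ z ∈ c, z.2 ≤ δ) → (∀ l, t l ≤ δ) → B c t k < g δ :=
    fun δ c t k h1 h2 => by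
      have := hg δ ((fun w => (w.1, w.2.1)) ⁻¹' c, fun l => ⟨t l, h2 l⟩, k)
      rwa [image_preimage_eq_of_subset fun z hz => ⟨(z.1, ⟨z.2, h1 z hz⟩), rfl⟩] at this
  refine ⟨g, fun f hf => ?_⟩
  obtain ⟨η, hη⟩ := fodor (fun ξ => ((f ξ).2.filter (· < ξ)).sup id) fun ξ hξ =>
    (Finset.sup_lt_iff hξ).2 fun i hi => (Finset.mem_filter.1 hi).2
  choose x x1 x2 x3 using fun ξ => exists_enum ((f ξ).2.filter (ξ ≤ ·))
  obtain ⟨⟨ρt, n, σ0⟩, hA⟩ := hη.fiber (K := Set (Iic η) × ℕ × Pat) (fun ξ k =>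
    (∀ i, i ∈ k.1 ↔ i.1 ∈ (f ξ).2 ∧ i.1 < ξ) ∧ ((f ξ).2.filter (ξ ≤ ·)).card = k.2.1 ∧
      Re (x ξ) k.2.1 k.2.2 (f ξ).1 ∧ ∀ l m, l < m → m < k.2.1 →
        ∃ u v, ρ u v ∧ (l, u) ∈ k.2.2 ∧ (m, v) ∈ k.2.2) fun ξ _ => by
    choose! u v h1 h2 h3 using fun l m h1 h2 => (((hf ξ).2.1 _ (Finset.mem_filter.1
      (x2 ξ l (h1.trans h2))).1).2.2 _ (Finset.mem_filter.1 (x2 ξ m h2)).1 (x1 ξ l m h1 h2)).2
    set n := ((f ξ).2.filter (ξ ≤ ·)).card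
    refine ⟨(_, n, ((Finset.range n ×ˢ Finset.range n).filter fun z => z.1 < z.2).biUnion fun z =>
      {(z.1, u z.1 z.2), (z.2, v z.1 z.2)}), fun _ => Iff.rfl, rfl, fun z hz => ?_,
      fun l m hl hm => ⟨_, _, h1 l m hl hm, Finset.mem_biUnion.2 ⟨(l, m), ?_, by simp⟩,
        Finset.mem_biUnion.2 ⟨(l, m), ?_, by simp⟩⟩⟩
    · simp only [Finset.mem_biUnion, Finset.mem_filter, Finset.mem_product, Finset.mem_range,
        Finset.mem_insert, Finset.mem_singleton] at hz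
      obtain ⟨w, ⟨⟨h4, h5⟩, h6⟩, rfl | rfl⟩ := hz
      exacts [⟨h4, h2 _ _ h6 h5⟩, ⟨h5, h3 _ _ h6 h5⟩]
    all_goals simp [hl, hm, hl.trans hm]
  obtain ⟨A, hA, root, card, A3, A4⟩ : ∃ A : Od → Prop, Ub A ∧
      (∀ ξ ξ', A ξ → A ξ' → ∀ i ∈ (f ξ).2, i < ξ → i ∈ (f ξ').2) ∧
      (∀ ξ, A ξ → ((f ξ).2.filter (ξ ≤ ·)).card = n) ∧ (∀ ξ, A ξ → Re (x ξ) n σ0 (f ξ).1) ∧
      ∀ l m, l < m → m < n → ∃ u v, ρ u v ∧ (l, u) ∈ σ0 ∧ (m, v) ∈ σ0 :=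
    ⟨_, hA, fun ξ ξ' h h' i h1 h2 => ((h'.2.1 ⟨i, le_trans (Finset.le_sup (f := id)
      (by simp [h1, h2])) h.1⟩).1 ((h.2.1 _).2 ⟨h1, h2⟩)).1,
      fun _ h => h.2.2.1, fun _ h => h.2.2.2.1, let ⟨_, _, h⟩ := hA 0; h.2.2.2.2⟩
  let T : Pat → U → Prop := fun σ q => Fu b q fun ξ r => A ξ ∧ b r (f ξ).1 ∧ Re (x ξ) n σ r
  have Tm : ∀ {σ p q}, b q p → T σ p → T σ q := fun h h' δ y hy => h' δ y (hb.tr hy h)
  have Tr : ∀ σ q, (∀ q', b q' q → ∃ r, b r q' ∧ T σ r) → T σ q := fun σ q h δ y hy =>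
    let ⟨r, r1, r2⟩ := h y hy; let ⟨z, z1, z2⟩ := r2 δ r (hb.l r1); ⟨z, hb.tr z1 r1, z2⟩
  have hβ : ∀ σ, ∃ β, ∀ q, b q q → T σ q → ∃ i ≤ β, T σ (s i) ∧ ∃ r, b r q ∧ b r (s i) :=
    fun σ => hb.nice hs (T σ)
  choose β hβ using hβ
  obtain ⟨γ, hγ⟩ := exists_bd β
  let c : Set (Pat × Od) := {z | z.2 ≤ γ ∧ T z.1 (s z.2)}
  have hc : ∀ σ q, Tc c σ q ↔ T σ q := fun σ q => by
    refine ⟨fun h => Tr σ q fun q' h' => ?_, fun h q' h' => ?_⟩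
    · obtain ⟨_, h1, r, r1, r2⟩ := h q' h'
      exact ⟨r, r1, Tm r2 h1.2⟩
    · obtain ⟨i, h1, h2, h3⟩ := hβ σ q' (hb.l h') (Tm h' h)
      exact ⟨i, ⟨h1.trans (hγ σ).le, h2⟩, h3⟩
  have hβ' : ∀ σ, ∃ β, ∀ r i, β < i → (A i ∧ b r (f i).1 ∧ Re (x i) n σ r) → b r r →
      ∃ r', b r' r ∧ T σ r' := fun σ => hb.cc.bnd hb.l hb.tr
    (fun ξ r => A ξ ∧ b r (f ξ).1 ∧ Re (x ξ) n σ r)
    fun _ _ _ h h' => ⟨h'.1, hb.tr h h'.2.1, Rm h h'.2.2⟩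
  choose β' hβ' using hβ'
  obtain ⟨γ', hγ'⟩ := exists_bd β'
  obtain ⟨ξ, h1, hξ⟩ := hA (max γ' (max γ (g γ)))
  simp only [max_lt_iff] at h1
  have xa : ∀ ξ, A ξ → ∀ l < n, x ξ l ∈ (f ξ).2 ∧ ξ ≤ x ξ l := fun ξ h l hl =>
    Finset.mem_filter.1 (x2 ξ l (card ξ h ▸ hl))
  have c0 : Con c (x ξ) n σ0 (f ξ).1 := fun r hr σ hσ => (hc _ _).2 (Tr _ _ fun q hq =>
    hβ' _ q ξ ((hγ' _).trans h1.1) ⟨hξ, hb.tr hq hr, fun z hz => (Finset.mem_union.1 hz).elim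
      (Rm hq hσ z) (Rm (hb.tr hq hr) (A3 ξ hξ) z)⟩ (hb.l hq))
  have key : ∀ k m, m + k = n → ∃ q τ0 τ1, b q (f ξ).1 ∧ σ0 ⊆ τ0 ∧ σ0 ⊆ τ1 ∧
      Con c (x ξ) m τ0 q ∧ Con c (x ξ) m τ1 q ∧
      ∀ l, m ≤ l → l < n → ∃ u v, ρ u v ∧ (l, u) ∈ τ0 ∧ (l, v) ∈ τ1 := by
    intro k
    induction k with
    | zero => exact fun m hm => ⟨_, σ0, σ0, (hf ξ).1, subset_rfl, subset_rfl,
        (show n = m by omega) ▸ c0, (show n = m by omega) ▸ c0, fun l _ _ => by omega⟩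
    | succ k ih =>
    intro m hm
    obtain ⟨q, τ0, τ1, q1, q2, q3, q4, q5, q6⟩ := ih (m + 1) (by omega)
    have hm' : m < n := by omega
    have hx := (hf ξ).2.1 _ (xa ξ hξ m hm').1
    let t : ℕ → Od := fun l => if l < m then x ξ l else 0
    have h2 : B c t (m, τ0, τ1) < x ξ m := by
      rcases m with _ | m
      · exact (hg γ c t _ (fun _ h => h.1) fun l => by simp [t]).trans
          (h1.2.2.trans_le (xa ξ hξ 0 hm').2)
      · have h3 := xa ξ hξ m (by omega)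
        refine (hg (x ξ m) c t _ (fun _ h => h.1.trans (h1.2.1.le.trans h3.2)) fun l => ?_).trans
          (((hf ξ).2.1 _ h3.1).2.2 _ (xa ξ hξ _ hm').1
            (x1 ξ _ _ m.lt_succ_self (card ξ hξ ▸ hm'))).1
        simp only [t]
        split_ifs with h
        · exact (Nat.lt_succ_iff.1 h).eq_or_lt.elim (fun e => e ▸ le_rfl)
            fun h => (x1 ξ _ _ h (card ξ hξ ▸ (by omega))).le
        · exact bot_le
    have h3 : ∀ τ, Con c (x ξ) (m + 1) τ q → Con c (update t m (x ξ m)) (m + 1) τ q :=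
      fun τ h r hr σ hσ => h r hr σ fun z hz => ⟨(hσ z hz).1, by
        have h4 := (hσ z hz).2
        rcases (Nat.lt_succ_iff.1 (hσ z hz).1).eq_or_lt with h5 | h5
        · rwa [h5, update_self, ← h5] at h4
        · simpa only [update_of_ne h5.ne, t, if_pos h5] using h4⟩
    obtain ⟨r', r1, r2⟩ := hB c t _ q _ h2 ⟨he q1 hx.2.1, h3 _ q4, h3 _ q5⟩ (hb.l q1)
    obtain ⟨r, r3, y, y', y1, y2, u, v, y3, y4, y5⟩ := H _ (Ym c t _) r'
      (hb.tr r1 (hb.tr q1 hx.1)) r2 fun _ _ h => h.1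
    have h4 : ∀ τ y u, Con c (update t m y) (m + 1) τ r → e y u r →
        Con c (x ξ) m (insert (m, u) τ) r := fun τ y u h h' r'' hr σ hσ => by
      rw [Finset.union_insert, ← Finset.insert_union]
      refine h r'' hr _ (Finset.forall_mem_insert _ _ _ |>.2 ⟨⟨m.lt_succ_self, ?_⟩, fun z hz =>
        ⟨(hσ z hz).1.trans m.lt_succ_self, ?_⟩⟩)
      · simpa only [update_self] using he hr h'
      · simpa only [update_of_ne (hσ z hz).1.ne, t, if_pos (hσ z hz).1] using (hσ z hz).2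
    refine ⟨r, _, _, hb.tr r3 (hb.tr r1 q1), q2.trans (Finset.subset_insert _ _),
      q3.trans (Finset.subset_insert _ _), h4 _ _ _ y1.2.1 y4, h4 _ _ _ y2.2.2 y5,
      fun l hl hl' => ?_⟩
    rcases hl.eq_or_lt with rfl | hl
    · exact ⟨u, v, y3, Finset.mem_insert_self _ _, Finset.mem_insert_self _ _⟩
    · obtain ⟨u', v', h5, h6, h7⟩ := q6 l hl hl'
      exact ⟨u', v', h5, Finset.mem_insert_of_mem h6, Finset.mem_insert_of_mem h7⟩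
  obtain ⟨q, τ0, τ1, q1, q2, q3, q4, q5, q6⟩ := key n 0 (zero_add n)
  have h2 : ∀ τ, Con c (x ξ) 0 τ q → T τ q := fun τ h => (hc _ _).1 (by
    simpa using h q (hb.l q1) ∅ (by simp [Re]))
  obtain ⟨r, r1, a, -, a1, a2, a3⟩ := h2 _ q4 0 q (hb.l q1)
  obtain ⟨δ, hδ⟩ := exists_bd fun i : (f a).2 => max i.1 (g i.1)
  obtain ⟨r', r2, a', h3, b1, b2, b3⟩ := h2 _ q5 (max a δ) r r1
  replace a2 := hb.tr r2 a2
  replace a3 := Rm r2 a3
  simp only [max_lt_iff] at h3 hδ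
  have Dm : ∀ ξ, b r' (f ξ).1 → ∀ i ∈ (f ξ).2, b r' p0 ∧ e i 0 r' ∧ ∀ j ∈ (f ξ).2, i < j →
      g i < j ∧ ∃ u v, ρ u v ∧ e i u r' ∧ e j v r' := fun ξ h i hi =>
    let ⟨h1, h2, h3⟩ := (hf ξ).2.1 i hi
    ⟨hb.tr h h1, he h h2, fun j hj hij => let ⟨h4, u, v, h5, h6, h7⟩ := h3 j hj hij
      ⟨h4, u, v, h5, he h h6, he h h7⟩⟩
  have hD : ∀ i ∈ (f a).2 ∪ (f a').2, b r' p0 ∧ e i 0 r' ∧ ∀ j ∈ (f a).2 ∪ (f a').2, i < j →
      g i < j ∧ ∃ u v, ρ u v ∧ e i u r' ∧ e j v r' := fun i hi => by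
    rcases Finset.mem_union.1 hi with hi | hi
    · refine ⟨(Dm a a2 i hi).1, (Dm a a2 i hi).2.1, fun j hj hij => ?_⟩
      by_cases h4 : j ∈ (f a).2
      · exact (Dm a a2 i hi).2.2 j h4 hij
      replace hj := (Finset.mem_union.1 hj).resolve_left h4
      by_cases h5 : i < a
      · exact (Dm a' b2 i (root a a' a1 b1 i hi h5)).2.2 j hj hij
      have h6 : a' ≤ j := not_lt.1 fun h => h4 (root a' a b1 a1 j hj h)
      refine ⟨(hδ ⟨i, hi⟩).2.trans (h3.2.trans_le h6), ?_⟩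
      obtain ⟨l, hl, rfl⟩ := x3 a i (Finset.mem_filter.2 ⟨hi, not_lt.1 h5⟩)
      obtain ⟨m, hm, rfl⟩ := x3 a' j (Finset.mem_filter.2 ⟨hj, h6⟩)
      rw [card a a1] at hl
      rw [card a' b1] at hm
      rcases lt_trichotomy l m with h | rfl | h
      · obtain ⟨u, v, h7, h8, h9⟩ := A4 l m h hm
        exact ⟨u, v, h7, (a3 _ (q2 h8)).2, (b3 _ (q3 h9)).2⟩
      · obtain ⟨u, v, h7, h8, h9⟩ := q6 l (Nat.zero_le l) hl
        exact ⟨u, v, h7, (a3 _ h8).2, (b3 _ h9).2⟩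
      · obtain ⟨u, v, h7, h8, h9⟩ := A4 m l h hl
        exact ⟨v, u, hρ _ _ h7, (a3 _ (q2 h9)).2, (b3 _ (q3 h8)).2⟩
    · refine ⟨(Dm a' b2 i hi).1, (Dm a' b2 i hi).2.1, fun j hj hij => ?_⟩
      rcases Finset.mem_union.1 hj with hj | hj
      · exact (Dm a a2 i (root a' a b1 a1 i hi (hij.trans ((hδ ⟨j, hj⟩).1.trans h3.2)))).2.2 j hj hij
      · exact (Dm a' b2 i hi).2.2 j hj hij
  exact ⟨a, a', h3.1, (r', (f a).2 ∪ (f a').2), ⟨a2, hD, (hf a).2.1, Finset.subset_union_left⟩,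
    b2, hD, (hf a').2.1, Finset.subset_union_right⟩

theorem soca (x0 : PP) (E : W0 → PP → Prop) (hE : ∀ w, Dn (E w)) (ρ : ℕ → ℕ → Prop)
    (hρ : ∀ u v, ρ u v → ρ v u) : ∃ x, leP x x0 ∧
    ((∃ δ, ∀ y, leP y x → ∀ i, δ < i → ¬ E (i, 0) y) ∨
      ∃ Y : Od → PP → Prop, (∀ i, Dn (Y i)) ∧ Fu leP x Y ∧ (∀ y, leP y x → ∀ i, Y i y → E (i, 0) y) ∧
        ((∀ y, leP y x → ∀ i j, i < j → Y i y → Y j y → ∃ u v, ρ u v ∧ E (i, u) y ∧ E (j, v) y) ∨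
          ∀ y, leP y x → ∀ i j, Y i y → Y j y → ∀ u v, ρ u v → E (i, u) y → ¬ E (j, v) y)) := by
  by_contra hn
  simp only [not_exists, not_and, not_or] at hn
  obtain ⟨e, he⟩ := surj_W0
  obtain ⟨b, hb, h1, h2⟩ := capture e he E hE x0.g
  have m0 := h1.le x0.m
  obtain ⟨g, hg⟩ := clique_cc hb (fun i n => At (E (i, n)) b) (fun h h' => h'.mono (hE _) h) ρ hρ
    x0.p fun Y hY q hq hu h0 => by
    have h3 := ((hn ⟨b, q, hb, hb.l hq⟩ ⟨h1, hq⟩).2 _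
      (fun i _ _ h ⟨r, r1, r2, r3⟩ => ⟨r, r1, r2, r3.mono h r1⟩) (hu.lift hb (hb.l hq))
      fun y _ i ⟨r, _, r2, r3⟩ => (h0 i r r2).of (hE _) r3).2
    push Not at h3
    obtain ⟨y, hy, i, j, ⟨r, r1, r2, r3⟩, ⟨r', r4, r5, r6⟩, u, v, h4, h5, h6⟩ := h3
    obtain ⟨π, p1, -, p3, p4⟩ := red y hy.1
    obtain ⟨s, s1, s2⟩ := (h2 _).red hb (hE _) h5 p4 p1
    obtain ⟨s', s3, s4⟩ := (h2 _).red hb (hE _) h6 p4 s1
    have s5 := hb.tr s3 s1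
    exact ⟨s', hb.tr s5 (p3 _ (hb.l hq) hy), i, j, hY _ _ _ (hb.tr s5 (p3 _ r1 r3)) r2,
      hY _ _ _ (hb.tr s5 (p3 _ r4 r6)) r5, u, v, h4, s2.mono (hE _) s3, s4⟩
  set D : U → Finset Od → Prop := fun p a => ∀ i ∈ a, b p x0.p ∧ At (E (i, 0)) b p ∧ ∀ j ∈ a,
    i < j → g i < j ∧ ∃ u v, ρ u v ∧ At (E (i, u)) b p ∧ At (E (j, v)) b p with hD
  have Dm : ∀ p q a, b q p → D p a → D q a := fun p q a h h' i hi =>
    let ⟨h1, h2, h3⟩ := h' i hi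
    ⟨hb.tr h h1, h2.mono (hE _) h, fun j hj hij => let ⟨h4, u, v, h5, h6, h7⟩ := h3 j hj hij
      ⟨h4, u, v, h5, h6.mono (hE _) h, h7.mono (hE _) h⟩⟩
  obtain ⟨β, hβ⟩ := hg.bnd (fun h => ⟨hb.l h.1, h.2.1, h.2.1, subset_rfl⟩)
    (fun h h' => ⟨hb.tr h.1 h'.1, h.2.1, h'.2.2.1, h'.2.2.2.trans h.2.2.2⟩)
    (fun i u => i ∈ u.2) fun _ _ _ h h' => h.2.2.2 h'
  have h3 := (hn ⟨b, x0.p, hb, m0⟩ ⟨h1, m0⟩).1 β
  push Not at h3
  obtain ⟨y, hy, i, hi, h4⟩ := h3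
  obtain ⟨π, p1, -, p3, p4⟩ := red y hy.1
  obtain ⟨r, r1, r2⟩ := (h2 _).red hb (hE _) h4 p4 p1
  have r3 := hb.tr r1 (p3 _ m0 hy)
  have r4 : D r {i} := by simpa [hD] using ⟨r3, r2⟩
  obtain ⟨u0, u1, u2⟩ := hβ (r, {i}) i hi (Finset.mem_singleton_self i)
    ⟨hb.l r1, r4, r4, subset_rfl⟩
  obtain ⟨e', he'⟩ := exists_surj (Finset Od) (Cardinal.mk_finset_of_infinite _).le
  obtain ⟨x, H, g1, g2, g3⟩ := gen e' he' hb D Dm (by simp [hD]) hg u0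
    ⟨hb.l u1.1, u1.2.1, u1.2.1, subset_rfl⟩
  have g4 := g1.mono (lrefl x) (hb.tr u1.1 r3)
  refine ((hn x ⟨h1.trans g4.1 x.g.tr, g4.2⟩).2 H g2 (fun δ y hy => ?_) fun y hy i hi => ?_).1
    fun y hy i j hij hi hj => ?_
  · obtain ⟨u, v1, -, -, v4⟩ := g3 y hy
    obtain ⟨v, v5, i, v6, v7⟩ := u2 δ u v1
    obtain ⟨z, z1, -, z2⟩ := v4 v v5
    exact ⟨z, z1, i, v6, z2 i v7⟩
  · obtain ⟨u, v1, v2, v3, -⟩ := g3 y hy
    exact (v1.2.1 i (v3 i hi)).2.1.of (hE _) v2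
  · obtain ⟨u, v1, v2, v3, -⟩ := g3 y hy
    obtain ⟨-, a, c, h5, h6, h7⟩ := (v1.2.1 i (v3 i hi)).2.2 j (v3 j hj) hij
    exact ⟨a, c, h5, h6.of (hE _) v2, h7.of (hE _) v2⟩

end Pool.Agent.MP_b60a07_lc.H92

end MrgPart2

-- ======== part 3: formerly Pool.Agent.MP_b60a07_lc.h92.Model
section MrgPart3

/-! A transitive model of ZFC with the combinatorial principles that are needed. -/

namespace Pool.Agent.MP_b60a07_lc.H92

open Function Set Pool.Agent.ZF92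
open scoped Classical

def Unb {O : Type 1} [LT O] (I : O → Prop) : Prop := ∀ δ, ∃ i, δ < i ∧ I i

def rho (u v : ℕ) : Prop := ∃ k, (u = 2 * k + 1 ∧ v = 2 * k + 2) ∨ (v = 2 * k + 1 ∧ u = 2 * k + 2)

class Ax (M : Set ZFSet.{0}) [Fact (ZFC M)] (O : Type 1) [Srt M O] [Sm M O] [LinearOrder O] :
    Prop where
  ne : Nonempty O
  dlt : DfF M fun p : O × O => p.1 < p.2
  ctb : ∀ i : O, Ctb M fun j => j < i
  reg : ∀ f : ℕ → O, DfF M f → ∃ b, ∀ n, f n < b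
  ma : ∀ (K : Finset (O × ℕ) → Prop) (D : O × ℕ → O × ℕ → Prop), DfF M K →
    (DfF M fun p : (O × ℕ) × O × ℕ => D p.1 p.2) → K ∅ → (∀ a c, a ⊆ c → K c → K a) →
    (∀ a ξ, K a → ∃ c w, K c ∧ a ⊆ c ∧ w ∈ c ∧ D ξ w) →
    (∀ A : O × Finset (O × ℕ) → Prop, DfF M A → Unb (fun i => ∃ a, A (i, a)) → (∀ z, A z → K z.2) →
      ∃ z z' c, z.1 ≠ z'.1 ∧ A z ∧ A z' ∧ K c ∧ z.2 ⊆ c ∧ z'.2 ⊆ c) →
    ∃ H : O × ℕ → Prop, DfF M H ∧ (∀ a : Finset (O × ℕ), (∀ w ∈ a, H w) → K a) ∧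
      ∀ ξ, ∃ w, H w ∧ D ξ w
  so : ∀ E : O × ℕ → Prop, DfF M E → Unb (fun i => E (i, 0)) → ∃ J : O → Prop, DfF M J ∧ Unb J ∧
    (∀ i, J i → E (i, 0)) ∧ ((∀ i j, i < j → J i → J j → ∃ u v, rho u v ∧ E (i, u) ∧ E (j, v)) ∨
      ∀ i j, J i → J j → ∀ u v, rho u v → E (i, u) → ¬ E (j, v))

noncomputable def nW (t : PP) : W0 → Name PP := prodN t (chk t) (natName t)
noncomputable def nF (t : PP) : Finset W0 → Name PP := finN t (nW t)
noncomputable def nP (t : PP) : Od × Finset W0 → Name PP := prodN t (chk t) (nF t)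

def RR (t : PP) : ℕ × ℕ → (ℕ → Name PP) → Name PP → PP → Prop
  | (0, _), _, x, _ => x = relN (chk t) fun _ _ => True
  | (1, _), w, x, _ => ∃ a v, w 0 = nF t a ∧ w 1 = nW t v ∧ x = nF t (insert v a)
  | (2, _), _, x, _ => x = nF t ∅
  | (3, k), w, x, _ => ∃ a h, w 0 = nF t a ∧ x = nW t (a.equivFin.symm ⟨k, h⟩).1
  | (4, _), w, x, p => ∃ i H, w 0 = chk t i ∧ x = relN (nW t) H ∧ (∀ w, Dn (H w)) ∧
      (∀ y, leP y p → ∀ j j' n, H (j, n) y → H (j', n) y → j = j') ∧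
      ∀ j < i, ∀ y, leP y p → ∃ z, leP z y ∧ ∃ n, H (j, n) z
  | (5, _), w, x, p => ∃ v, x = nW t v ∧ fMem leP x (w 0) p ∧ fMem leP (pairN t (w 2) x) (w 1) p
  | (6, _), w, _, p => ∃ n, fMem leP (pairN t (w 1) (natName t n)) (w 0) p
  | (7, _), w, x, p => (∃ β, x = chk t β ∧ ∀ y, leP y p → ∀ v, fMem leP (nW t v) (w 0) y → v.1 < β) ∨
      ∃ n j j', x = pairN t (chk t j) (chk t j') ∧ j ≠ j' ∧ fMem leP (nW t (j, n)) (w 0) p ∧
        fMem leP (nW t (j', n)) (w 0) p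
  | (8, _), w, x, p => (∃ a ξ, x = pairN t (nF t a) (nW t ξ) ∧ fMem leP (nF t a) (w 0) p ∧
        ∀ y, leP y p → ∀ v, fMem leP (pairN t (nW t ξ) (nW t v)) (w 1) y →
          ¬ fMem leP (nF t (insert v a)) (w 0) y) ∨
      (∃ A : Od × Finset W0 → PP → Prop, x = relN (nP t) A ∧ (∀ z, Dn (A z)) ∧
        Fu leP p (fun i y => ∃ a, A (i, a) y) ∧ (∀ z y, A z y → fMem leP (nF t z.2) (w 0) y) ∧
        ∀ y, leP y p → ∀ z z', z.1 ≠ z'.1 → A z y → A z' y →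
          ¬ fMem leP (nF t (z.2 ∪ z'.2)) (w 0) y) ∨
      ∃ H : W0 → PP → Prop, x = relN (nW t) H ∧ (∀ w, Dn (H w)) ∧
        (∀ y, leP y p → ∃ c, fMem leP (nF t c) (w 0) y ∧ ∀ w, H w y → w ∈ c) ∧
        ∀ ξ y, leP y p → ∃ z, leP z y ∧ ∃ v, H v z ∧ fMem leP (pairN t (nW t ξ) (nW t v)) (w 1) z
  | (9, _), w, x, p => ∃ δ i, w 1 = chk t δ ∧ x = chk t i ∧ δ < i ∧ fMem leP x (w 0) p
  | (10, _), w, x, p => ∃ δ z, w 1 = chk t δ ∧ x = nP t z ∧ δ < z.1 ∧ fMem leP x (w 0) p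
  | (11, _), w, x, p => (∃ δ, x = chk t δ ∧ ∀ y, leP y p → ∀ i, δ < i →
        ¬ fMem leP (nW t (i, 0)) (w 0) y) ∨
      ∃ Y : Od → PP → Prop, x = relN (chk t) Y ∧ (∀ i, Dn (Y i)) ∧ Fu leP p Y ∧
        (∀ y, leP y p → ∀ i, Y i y → fMem leP (nW t (i, 0)) (w 0) y) ∧
        ((∀ y, leP y p → ∀ i j, i < j → Y i y → Y j y → ∃ u v, rho u v ∧
            fMem leP (nW t (i, u)) (w 0) y ∧ fMem leP (nW t (j, v)) (w 0) y) ∨
          ∀ y, leP y p → ∀ i j, Y i y → Y j y → ∀ u v, rho u v → fMem leP (nW t (i, u)) (w 0) y →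
            ¬ fMem leP (nW t (j, v)) (w 0) y)
  | (12, _), w, x, p => ∃ a c, w 1 = nF t a ∧ x = nF t c ∧ fMem leP x (w 0) p ∧ a ⊆ c
  | (_ + 13, _), _, x, _ => x = chk t 0

theorem exists_model : ∃ (M : Set ZFSet.{0}) (_ : Fact (ZFC M)) (O : Type 1) (_ : Srt M O)
    (_ : Sm M O) (_ : LinearOrder O) (_ : WellFoundedLT O), Ax M O := by
  obtain ⟨t, ht⟩ := exists_top
  obtain ⟨N, G, hc, h, h'⟩ := exists_gen_zfc leP t (RR t)
  have : Countable N := hc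
  have hM : Fact (ZFC (val N G '' N)) := ⟨h.zfc ht⟩
  have e0 := fin'_emp h.emp_mem
  have vO := h.vi_chk ht
  obtain ⟨_, _, hO⟩ := h.exists_srt vO (h'.op (0, 0) e0 fun _ _ => Iff.rfl)
  let _ : LinearOrder (Sub N (chk t)) := LinearOrder.lift' Sub.a fun _ _ => Sub.ext
  have hW := h.emb_prod ht hO (h.emb_nat ht)
  have vW : VI N G (nW t) := h.vi_prod ht vO (h.vi_nat ht)
  have iO := chk_inj ht
  have iW : Injective (nW t) := prodN_inj iO natName_inj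
  have iF : Injective (nF t) := finN_inj iW
  have f1 : ∀ a : Finset W0, (∀ v ∈ a, nW t v ∈ N) → nF t a ∈ N := by
    intro a
    induction a using Finset.induction_on with
    | empty => exact fun _ => h'.op (2, 0) e0 fun _ _ => Iff.rfl
    | insert v a _ ih =>
      exact fun hv => h'.op (1, 0) (h.env2
        (ih fun w hw => hv w (Finset.mem_insert_of_mem hw)) (hv v (Finset.mem_insert_self _ _)))
        fun _ _ => ⟨fun ⟨_, _, h1, h2, h3⟩ => iF h1 ▸ iW h2 ▸ h3, fun e => ⟨a, v, rfl, rfl, e⟩⟩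
  have f2 : ∀ a, nF t a ∈ N → ∀ v ∈ a, nW t v ∈ N := fun a ha v hv =>
    h'.op (3, a.equivFin ⟨v, hv⟩) (h.env1 ha) fun _ _ => ⟨fun ⟨a', h1, h2, h3⟩ => by
      obtain rfl := iF h2
      simpa using h3, fun e => ⟨a, (a.equivFin ⟨v, hv⟩).2, rfl, by simpa using e⟩⟩
  have vF : VI N G (nF t) := h.vi_fin ht vW f2
  have hF := h.emb_fin ht hW f1
  have sW : ∀ v, nW t v ∈ N → ∃ x : Sub N (chk t) × ℕ, (x.1.a, x.2) = v := fun v hv =>
    ⟨(⟨v.1, (h.pairN_mem_iff.1 hv).1⟩, v.2), rfl⟩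
  set jF : Finset (Sub N (chk t) × ℕ) → Finset W0 := fun s =>
    @Finset.image _ _ (fun _ _ => Classical.propDecidable _) (fun p => (p.1.a, p.2)) s with hjF
  have mF : ∀ s (x : Sub N (chk t) × ℕ), (x.1.a, x.2) ∈ jF s ↔ x ∈ s := fun s x => by
    simp only [hjF, Finset.mem_image, Prod.mk.injEq]
    exact ⟨fun ⟨y, h1, h2, h3⟩ => (Prod.ext (Sub.ext h2) h3 : y = x) ▸ h1, fun h => ⟨x, h, rfl, rfl⟩⟩
  have eF : ∀ a s, (∀ v ∈ a, nW t v ∈ N) → (∀ x, x ∈ s ↔ (x.1.a, x.2) ∈ a) → jF s = a :=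
    fun a s h1 h2 => Finset.ext fun v => ⟨fun hv => by
      obtain ⟨x, rfl⟩ := sW v (f2 _ (hF s).1 v hv)
      exact (h2 x).1 ((mF s x).1 hv), fun hv => by
      obtain ⟨x, rfl⟩ := sW v (h1 v hv)
      exact (mF s x).2 ((h2 x).2 hv)⟩
  have sF : ∀ a, nF t a ∈ N → ∃ s, jF s = a := fun a ha =>
    ⟨_, eF a (a.preimage (fun x => (x.1.a, x.2)) fun x _ y _ e =>
      Prod.ext (Sub.ext (Prod.ext_iff.1 e).1) (Prod.ext_iff.1 e).2) (f2 a ha) fun x => by simp⟩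
  have dn : ∀ x τ, Dn (fMem leP x τ) := fun _ _ _ _ => fMem_mono
  refine ⟨_, hM, Sub N (chk t), inferInstance, inferInstance, inferInstance,
    ⟨InvImage.wf Sub.a wellFounded_lt⟩, ⟨⟨0, h'.op (13, 0) e0 fun _ _ => Iff.rfl⟩⟩,
    (DfF.cd_mem_cd DfF.id.fst DfF.id.snd).congr fun p => ?_, fun i => ?_, fun f df => ?_,
    fun K D dK dD k0 k1 k2 k3 => ?_, fun E dE hE => ?_⟩
  · rw [(hO _).2, (hO _).2, h.chk_mem ht p.1.mem]; rfl
  · obtain ⟨p, hp, _, hx, _, H, g0, rfl, g1, g2, g3⟩ := h'.dense (4, 0) (h.env1 i.mem)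
      (h.top_mem ht) fun q _ => let ⟨x, H, h1, h2⟩ := collapse q i.a
        ⟨x, h1, _, _, H, rfl, rfl, h2⟩
    obtain rfl := iO g0
    obtain ⟨s, hs⟩ := hW.exists_ps vW hx
    obtain ⟨c, dc, hc⟩ := exists_choice' (M := val N G '' N)
      (R := fun (j : Sub N (chk t)) (n : ℕ) => (j, n) ∈ s) (by fun_prop)
    have key : ∀ j < i, ∃ q ∈ G, H (j.a, c j) q := fun j hj => by
      obtain ⟨q, hq, -, -, n, h1⟩ := h'.dense (6, 0) (h.env2 hx j.mem) hp fun y hy =>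
        let ⟨z, h1, n, h2⟩ := g3 j.a hj y hy; ⟨z, h1, emp, n, fMem_relN (a := (j.a, n)) h2⟩
      exact (hs _).1 (hc j n ((hs _).2 ((mem_val_relN vW (hW (j, n)).1).1
        ((h.val_mem_iff (hW (j, n)).1 hx).2 ⟨q, hq, h1⟩))))
    refine ⟨⟨c, dc⟩, fun x y hx hy e => ?_⟩
    obtain ⟨q, q1, q2⟩ := key x hx
    obtain ⟨r, r1, r2⟩ := key y hy
    obtain ⟨z, -, z1, z2, z3⟩ := h.dir3 hp q1 r1
    exact Sub.ext (g2 z z1 _ _ _ (g1 _ z2 q2) ((show c x = c y from e) ▸ g1 _ z3 r2))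
  · obtain ⟨τ, hτ, e⟩ := h.exists_name hW (s := fun p => f p.2 = p.1) (by fun_prop)
    obtain ⟨p, hp, x, hx, h1⟩ := h'.dense (7, 0) (h.env1 hτ) (h.top_mem ht) fun q _ => by
      obtain ⟨x, h1, ⟨β, h2⟩ | ⟨n, j, j', h2⟩⟩ := regular q (fun v => fMem leP (nW t v) τ)
        fun _ => dn _ _
      exacts [⟨x, h1, _, Or.inl ⟨β, rfl, h2⟩⟩, ⟨x, h1, _, Or.inr ⟨n, j, j', rfl, h2⟩⟩]
    rcases h1 with ⟨β, rfl, h1⟩ | ⟨n, j, j', rfl, h1, h2, h3⟩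
    · refine ⟨⟨β, hx⟩, fun n => ?_⟩
      obtain ⟨q, q1, q2⟩ := (e (f n, n)).1 rfl
      obtain ⟨z, -, z1, z2⟩ := h.dir hp q1
      exact h1 z z1 ((f n).a, n) (fMem_mono z2 q2)
    · obtain ⟨a, c⟩ := h.pairN_mem_iff.1 hx
      exact absurd (congrArg Sub.a (((e (⟨j, a⟩, n)).2 ⟨p, hp, h2⟩).symm.trans
        ((e (⟨j', c⟩, n)).2 ⟨p, hp, h3⟩))) h1
  · obtain ⟨τ, hτ, e⟩ := h.exists_name hF dK
    obtain ⟨σ, hσ, e'⟩ := h.exists_name (h.emb_prod ht hW hW) dD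
    replace e : ∀ s, K s ↔ ∃ p ∈ G, fMem leP (nF t (jF s)) τ p := e
    obtain ⟨p0, hp0, h0⟩ := (e ∅).1 k0
    obtain ⟨p, hp, x, hx, h1⟩ := h'.dense (8, 0) (h.env2 hτ hσ) hp0 fun q hq => by
      obtain ⟨x, h1, ⟨a, ξ, h2⟩ | ⟨A, h2⟩ | ⟨H, h2⟩⟩ := martin q (fun a => fMem leP (nF t a) τ)
        (fun _ => dn _ _) (fun ξ v => fMem leP (pairN t (nW t ξ) (nW t v)) σ) (fun _ _ => dn _ _)
        (fMem_mono hq h0)
      exacts [⟨x, h1, _, Or.inl ⟨a, ξ, rfl, h2⟩⟩, ⟨x, h1, _, Or.inr (Or.inl ⟨A, rfl, h2⟩)⟩,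
        ⟨x, h1, _, Or.inr (Or.inr ⟨H, rfl, h2⟩)⟩]
    rcases h1 with ⟨a, ξ, rfl, h1, h2⟩ | ⟨A, rfl, h1, h2, h3, h4⟩ | ⟨H, rfl, h1, h2, h3⟩
    · obtain ⟨a, rfl⟩ := sF a (h.pairN_mem_iff.1 hx).1
      obtain ⟨ξ, rfl⟩ := sW ξ (h.pairN_mem_iff.1 hx).2
      obtain ⟨c, w, c1, c2, c3, c4⟩ := k2 a ξ ((e a).2 ⟨p, hp, h1⟩)
      obtain ⟨q, q1, q2⟩ := (e (insert w a)).1 (k1 _ c (Finset.insert_subset c3 c2) c1)
      obtain ⟨r, r1, r2⟩ := (e' (ξ, w)).1 c4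
      obtain ⟨z, -, z1, z2, z3⟩ := h.dir3 hp q1 r1
      refine absurd (fMem_mono z2 ?_) (h2 z z1 (w.1.a, w.2) (fMem_mono z3 r2))
      convert q2 using 2
      · ext v; simp [hjF]
      · rfl
    · have hP := h.emb_prod ht hO hF
      have vP : VI N G (nP t) := h.vi_prod ht vO vF
      obtain ⟨s, hs⟩ := hP.exists_ps vP hx
      replace hs : ∀ x, x ∈ s ↔ ∃ p ∈ G, A (x.1.a, jF x.2) p := hs
      obtain ⟨z, z', c, c1, c2, c3, c4, c5, c6⟩ := k3 (fun z => z ∈ s) (by fun_prop) (fun δ => by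
        obtain ⟨q, hq, _, hy, δ', ⟨i, a⟩, g1, rfl, g2, g3⟩ := h'.dense (10, 0) (h.env2 hx δ.mem) hp
          fun y hy => let ⟨z, z1, i, z2, a, z3⟩ := h2 δ.a y hy
            ⟨z, z1, _, _, (i, a), rfl, rfl, z2, fMem_relN z3⟩
        obtain rfl := iO g1
        obtain ⟨a, rfl⟩ := sF a (h.pairN_mem_iff.1 hy).2
        exact ⟨⟨i, (h.pairN_mem_iff.1 hy).1⟩, g2, a, (hs _).2 ((mem_val_relN vP hy).1
          ((h.val_mem_iff hy hx).2 ⟨q, hq, g3⟩))⟩) fun z hz =>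
        let ⟨q, q1, q2⟩ := (hs z).1 hz; (e _).2 ⟨q, q1, h3 _ _ q2⟩
      obtain ⟨q, q1, q2⟩ := (hs z).1 c2
      obtain ⟨r, r1, r2⟩ := (hs z').1 c3
      obtain ⟨u, u1, u2⟩ := (e (z.2 ∪ z'.2)).1 (k1 _ c (Finset.union_subset c5 c6) c4)
      obtain ⟨v, v0, v1, v2⟩ := h.dir hp u1
      obtain ⟨y, -, y1, y2, y3⟩ := h.dir3 v0 q1 r1
      refine absurd (fMem_mono (ltrans y1 v2) ?_) (h4 y (ltrans y1 v1) _ _
        (fun e => c1 (Sub.ext e)) (h1 _ y2 q2) (h1 _ y3 r2))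
      convert u2 using 2
      · ext v; simp [hjF, or_and_right, exists_or]
      · rfl
    · obtain ⟨s, hs⟩ := hW.exists_ps vW hx
      refine ⟨fun w => w ∈ s, by fun_prop, fun a ha => ?_, fun ξ => ?_⟩
      · obtain ⟨y, hy, y1, y2⟩ : ∃ y ∈ G, leP y p ∧ ∀ w ∈ a, H (w.1.a, w.2) y := by
          induction a using Finset.induction_on with
          | empty => exact ⟨p, hp, lrefl p, by simp⟩
          | insert w a _ ih =>
            obtain ⟨y, hy, y1, y2⟩ := ih fun v hv => ha v (Finset.mem_insert_of_mem hv)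
            obtain ⟨q, q1, q2⟩ := (hs w).1 (ha w (Finset.mem_insert_self _ _))
            obtain ⟨z, z0, z1, z2⟩ := h.dir hy q1
            exact ⟨z, z0, ltrans z1 y1, Finset.forall_mem_insert _ _ _ |>.2
              ⟨h1 _ z2 q2, fun v hv => h1 _ z1 (y2 v hv)⟩⟩
        obtain ⟨q, hq, _, hc, a', c, g0, rfl, g1, g2⟩ := h'.dense (12, 0) (h.env2 hτ (hF a).1) hy
          fun z hz => by
          obtain ⟨c, c1, c2⟩ := h2 z (ltrans hz y1)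
          refine ⟨z, lrefl z, _, jF a, c, rfl, rfl, c1, fun v hv => ?_⟩
          obtain ⟨w, rfl⟩ := sW v (f2 _ (hF a).1 v hv)
          exact c2 _ (h1 _ hz (y2 w ((mF a w).1 hv)))
        obtain ⟨c, rfl⟩ := sF c hc
        obtain rfl := iF g0
        exact k1 a c (fun w hw => (mF c w).1 (g2 ((mF a w).2 hw))) ((e c).2 ⟨q, hq, g1⟩)
      · obtain ⟨q, hq, _, hy, v, rfl, g1, g2⟩ := h'.dense (5, 0) ((h.env2 hσ (hW ξ).1).cons hx) hp
          fun y hy => let ⟨z, z1, v, z2, z3⟩ := h3 (ξ.1.a, ξ.2) y hy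
            ⟨z, z1, _, v, rfl, fMem_relN z2, z3⟩
        obtain ⟨v, rfl⟩ := sW v hy
        exact ⟨v, (hs _).2 ((mem_val_relN vW hy).1 ((h.val_mem_iff hy hx).2 ⟨q, hq, g1⟩)),
          (e' (ξ, v)).2 ⟨q, hq, g2⟩⟩
  · obtain ⟨τ, hτ, e⟩ := h.exists_name hW dE
    obtain ⟨p, hp, x, hx, h1⟩ := h'.dense (11, 0) (h.env1 hτ) (h.top_mem ht) fun q _ => by
      obtain ⟨x, h1, ⟨δ, h2⟩ | ⟨Y, h2⟩⟩ := soca q (fun v => fMem leP (nW t v) τ) (fun _ => dn _ _)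
        rho fun _ _ ⟨k, hk⟩ => ⟨k, hk.symm⟩
      exacts [⟨x, h1, _, Or.inl ⟨δ, rfl, h2⟩⟩, ⟨x, h1, _, Or.inr ⟨Y, rfl, h2⟩⟩]
    rcases h1 with ⟨δ, rfl, h1⟩ | ⟨Y, rfl, h1, h2, h3, h4⟩
    · obtain ⟨i, i1, i2⟩ := hE ⟨δ, hx⟩
      obtain ⟨q, q1, q2⟩ := (e _).1 i2
      obtain ⟨z, -, z1, z2⟩ := h.dir hp q1
      exact absurd (fMem_mono z2 q2) (h1 z z1 i.a i1)
    obtain ⟨s, hs⟩ := hO.exists_ps vO hx
    have two : ∀ i j, i ∈ s → j ∈ s → ∃ y ∈ G, leP y p ∧ Y i.a y ∧ Y j.a y := fun i j hi hj =>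
      let ⟨_, q1, q2⟩ := (hs i).1 hi; let ⟨_, r1, r2⟩ := (hs j).1 hj
      let ⟨z, z0, z1, z2, z3⟩ := h.dir3 hp q1 r1; ⟨z, z0, z1, h1 _ z2 q2, h1 _ z3 r2⟩
    refine ⟨fun i => i ∈ s, by fun_prop, fun δ => ?_, fun i hi => ?_,
      h4.imp (fun h4 i j hij hi hj => ?_) fun h4 i j hi hj u v huv hu hv => ?_⟩
    · obtain ⟨q, hq, _, hy, δ', i, g1, rfl, g2, g3⟩ := h'.dense (9, 0) (h.env2 hx δ.mem) hp
        fun y hy => let ⟨z, z1, i, z2, z3⟩ := h2 δ.a y hy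
          ⟨z, z1, _, _, i, rfl, rfl, z2, fMem_relN z3⟩
      obtain rfl := iO g1
      exact ⟨⟨i, hy⟩, g2, (hs _).2 ((mem_val_relN vO hy).1 ((h.val_mem_iff hy hx).2 ⟨q, hq, g3⟩))⟩
    · obtain ⟨y, y0, y1, y2, -⟩ := two i i hi hi
      exact (e (i, 0)).2 ⟨y, y0, h3 y y1 _ y2⟩
    · obtain ⟨y, y0, y1, y2, y3⟩ := two i j hi hj
      obtain ⟨u, v, g1, g2, g3⟩ := h4 y y1 _ _ hij y2 y3
      exact ⟨u, v, g1, (e (i, u)).2 ⟨y, y0, g2⟩, (e (j, v)).2 ⟨y, y0, g3⟩⟩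
    · obtain ⟨y, y0, y1, y2, y3⟩ := two i j hi hj
      obtain ⟨q, q1, q2⟩ := (e _).1 hu
      obtain ⟨r, r1, r2⟩ := (e _).1 hv
      obtain ⟨z, -, z1, z2, z3⟩ := h.dir3 y0 q1 r1
      exact h4 z (ltrans z1 y1) _ _ (h1 _ z1 y2) (h1 _ z1 y3) u v huv (fMem_mono z2 q2)
        (fMem_mono z3 r2)

end Pool.Agent.MP_b60a07_lc.H92

end MrgPart3

-- ======== part 4: formerly Pool.Agent.MP_b60a07_lc.h92.Base
section MrgPart4

/-! First consequences of the principles inside the model. -/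

namespace Pool.Agent.MP_b60a07_lc.H92

open Function Set Pool.Agent.ZF92
open scoped Classical

set_option linter.unusedSectionVars false

universe u v w

variable {M : Set ZFSet.{0}} [hM : Fact (ZFC M)]

class Cts (M : Set ZFSet.{0}) [Fact (ZFC M)] (κ : Type u) [Srt M κ] : Prop where
  out : Ctb M fun _ : κ => True

instance : Cts M ℕ := ⟨Ctb.nat _⟩
instance : Cts M ℚ := ⟨Ctb.rat _⟩
instance {X : Type u} {Y : Type v} [Srt M X] [Srt M Y] [a : Cts M X] [b : Cts M Y] :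
    Cts M (X × Y) := ⟨(a.out.prod b.out).mono fun _ _ => ⟨trivial, trivial⟩⟩
instance {X : Type u} [Srt M X] [Sm M X] [a : Cts M X] : Cts M (Finset X) :=
  ⟨(a.out.finset (by fun_prop)).mono fun _ _ _ _ => trivial⟩

theorem Cts.enum (κ : Type u) [Srt M κ] [Sm M κ] [Nonempty κ] [a : Cts M κ] :
    ∃ e : ℕ → κ, DfF M e ∧ Surjective e :=
  let ⟨e, de, he⟩ := a.out.exists_enum (by fun_prop); ⟨e, de, fun k => he k trivial⟩

variable {O : Type 1} [Srt M O] [Sm M O] [LinearOrder O] [ax : Ax M O]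
variable {X : Type u} [Srt M X] {κ : Type v} [Srt M κ] [Sm M κ] [Nonempty κ] [Cts M κ]

@[fun_prop]
theorem df_lt {f g : X → O} (hf : DfF M f) (hg : DfF M g) : DfF M fun x => f x < g x :=
  ax.dlt.comp (g := fun x => (f x, g x)) (by fun_prop)

@[fun_prop]
theorem df_le {f g : X → O} (hf : DfF M f) (hg : DfF M g) : DfF M fun x => f x ≤ g x :=
  (df_lt hg hf).not.congr fun _ => not_lt.symm

@[fun_prop]
theorem df_unb {P : X → O → Prop} (h : DfF M fun p : X × O => P p.1 p.2) :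
    DfF M fun x => Unb fun i => P x i := by
  simp only [Unb, all_iff]; fun_prop

theorem bdd {R : κ → O → Prop} (dR : DfF M fun p : κ × O => R p.1 p.2) (h : ∀ k, ∃ j, R k j) :
    ∃ b, ∀ k, ∃ j < b, R k j := by
  obtain ⟨f, df, hf⟩ := exists_choice dR h
  obtain ⟨e, de, he⟩ := Cts.enum (M := M) κ
  obtain ⟨b, hb⟩ := ax.reg (fun n => f (e n)) (by fun_prop)
  exact ⟨b, fun k => let ⟨n, hn⟩ := he k; ⟨f k, hn ▸ hb n, hf k⟩⟩

theorem Unb.fiber {I : O → Prop} (hI : Unb I) (dI : DfF M I) {R : O → κ → Prop}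
    (dR : DfF M fun p : O × κ => R p.1 p.2) (h : ∀ i, I i → ∃ k, R i k) :
    ∃ k, Unb fun i => I i ∧ R i k := by
  by_contra hn
  simp only [Unb, not_exists, not_forall] at hn
  obtain ⟨b, hb⟩ := bdd (M := M) (R := fun k δ => ∀ i, ¬ (δ < i ∧ I i ∧ R i k))
    (by simp only [all_iff]; fun_prop) hn
  obtain ⟨i, h1, h2⟩ := hI b
  obtain ⟨k, hk⟩ := h i h2
  obtain ⟨j, h3, h4⟩ := hb k
  exact h4 i ⟨h3.trans h1, h2, hk⟩

include ax in
theorem unb_top : Unb fun _ : O => True := fun δ =>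
  let ⟨b, hb⟩ := ax.reg (fun _ => δ) (by fun_prop); ⟨b, hb 0, trivial⟩

theorem Unb.mono {I J : O → Prop} (hI : Unb I) (h : ∀ i, I i → J i) : Unb J := fun δ =>
  let ⟨i, h1, h2⟩ := hI δ; ⟨i, h1, h i h2⟩

theorem enum_lt (i : O) : ∃ e : ℕ → O, DfF M e ∧ ∀ j < i, ∃ n, e n = j :=
  have := ax.ne; (ax.ctb i).exists_enum (by fun_prop)

include ax in
theorem exists_ub (s : Finset O) : ∃ b, ∀ i ∈ s, i < b := by
  obtain ⟨i0⟩ := ax.ne
  obtain ⟨b, hb, -⟩ := unb_top (M := M) (s.fold max i0 id)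
  exact ⟨b, fun i hi => lt_of_le_of_lt ((Finset.le_fold_max _).2 (Or.inr ⟨i, hi, le_rfl⟩)) hb⟩

theorem mwo_of {α : Type u} [Srt M α] [LinearOrder α] [WellFoundedLT α]
    (h : DfF M fun p : α × α => p.1 < p.2) : MWO M (fun i j : α => i < j) :=
  ⟨h, lt_irrefl, fun _ _ _ => lt_trans, lt_trichotomy, fun P _ h => wellFounded_lt.has_min P h⟩

/-- The lexicographic order. -/
def Lx (z : O → ℕ → Prop) (i j : O) : Prop := ∃ n, (∀ m < n, z i m ↔ z j m) ∧ ¬ z i n ∧ z j n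
def LP (z : O → ℕ → Prop) (r : ℕ × Finset ℕ) (i : O) : Prop :=
  (∀ m < r.1, z i m ↔ m ∈ r.2) ∧ ¬ z i r.1
def LQ (z : O → ℕ → Prop) (r : ℕ × Finset ℕ) (i : O) : Prop :=
  (∀ m < r.1, z i m ↔ m ∈ r.2) ∧ z i r.1

theorem lx_iff {z : O → ℕ → Prop} {i j : O} : Lx z i j ↔ ∃ r, LP z r i ∧ LQ z r j :=
  ⟨fun ⟨n, h1, h2, h3⟩ => ⟨(n, (Finset.range n).filter (z i)), ⟨fun m hm => by simp [show m < n from hm], h2⟩,
    fun m hm => by simp [show m < n from hm, h1 m hm], h3⟩,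
    fun ⟨r, h1, h2⟩ => ⟨r.1, fun m hm => (h1.1 m hm).trans (h2.1 m hm).symm, h1.2, h2.2⟩⟩

theorem Lx.asym {z : O → ℕ → Prop} {i j : O} (h : Lx z i j) : ¬ Lx z j i := fun ⟨m, h4, h5, h6⟩ => by
  obtain ⟨n, h1, h2, h3⟩ := h
  rcases lt_trichotomy m n with h | rfl | h
  exacts [h5 ((h1 m h).1 h6), h2 h6, h2 ((h4 n h).1 h3)]

theorem lx_tot {z : O → ℕ → Prop} (hz : Injective z) {i j : O} (h : i ≠ j) :
    Lx z i j ∨ Lx (fun i n => ¬ z i n) i j := by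
  have h1 : ∃ n, ¬ (z i n ↔ z j n) := by
    by_contra hn
    push Not at hn
    exact h (hz (funext fun n => propext (hn n)))
  have h2 := Nat.find_spec h1
  have h3 : ∀ m < Nat.find h1, z i m ↔ z j m := fun m hm => not_not.1 (Nat.find_min h1 hm)
  by_cases h4 : z i (Nat.find h1)
  · exact Or.inr ⟨_, fun m hm => not_congr (h3 m hm), not_not.2 h4, by tauto⟩
  · exact Or.inl ⟨_, h3, h4, by tauto⟩

theorem Lx.swap {z : O → ℕ → Prop} {i j : O} (h : Lx (fun i n => ¬ z i n) i j) : Lx z j i :=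
  let ⟨n, h1, h2, h3⟩ := h; ⟨n, fun m hm => (not_iff_not.1 (h1 m hm)).symm, h3, not_not.1 h2⟩

theorem exists_z [WellFoundedLT O] :
    ∃ z : O → ℕ → Prop, (DfF M fun p : O × ℕ => z p.1 p.2) ∧ Injective z := by
  have : Nonempty (Fn M ℕ Prop) := ⟨⟨fun _ => True, by fun_prop⟩⟩
  obtain ⟨f, df, hf⟩ := (mwo_of ax.dlt).exists_rec (Y := Fn M ℕ Prop)
    (R := fun i G s => ∀ j, j < i → G.ap j ≠ s) (by simp only [all_iff, imp_iff]; fun_prop)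
    fun i G => by
      obtain ⟨e, de, he⟩ := enum_lt (M := M) i
      refine ⟨⟨fun n => ¬ (G.ap (e n)).ap n, by fun_prop⟩, fun j hj h => ?_⟩
      obtain ⟨n, rfl⟩ := he j hj
      exact iff_not_self (iff_of_eq (congrArg (fun s => s.ap n) h))
  refine ⟨fun i n => (f i).ap n, by fun_prop, fun i j e => ?_⟩
  have key : ∀ i j, i < j → f i ≠ f j := fun i j h =>
    let ⟨_, h1, h2⟩ := hf j; h1 i h ▸ h2 i h
  have e' : f i = f j := Fn.ext (congrFun e)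
  exact le_antisymm (not_lt.1 fun h => key j i h e'.symm) (not_lt.1 fun h => key i j h e')

theorem so {z : O → ℕ → Prop} (dz : DfF M fun p : O × ℕ => z p.1 p.2)
    {I : O → Prop} (dI : DfF M I) (hI : Unb I) (P Q : κ → O → Prop)
    (dP : DfF M fun p : κ × O => P p.1 p.2) (dQ : DfF M fun p : κ × O => Q p.1 p.2) :
    ∃ J : O → Prop, DfF M J ∧ (∀ i, J i → I i) ∧ Unb J ∧
      ((∀ i j, J i → J j → Lx z i j → ∃ k, P k i ∧ Q k j) ∨
        ∀ i j, J i → J j → Lx z i j → ∀ k, P k i → ¬ Q k j) := by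
  obtain ⟨e, de, he⟩ := Cts.enum (M := M) (κ × ℕ × Finset ℕ)
  let E : O × ℕ → Prop := fun p => (p.2 = 0 ∧ I p.1) ∨ ∃ k,
    (p.2 = 2 * k + 1 ∧ P (e k).1 p.1 ∧ LP z (e k).2 p.1) ∨
      (p.2 = 2 * k + 2 ∧ Q (e k).1 p.1 ∧ LQ z (e k).2 p.1)
  have e0 : ∀ i, E (i, 0) ↔ I i := fun i => by simp [E]
  have e1 : ∀ i k, E (i, 2 * k + 1) ↔ P (e k).1 i ∧ LP z (e k).2 i := fun i k => by
    refine ⟨?_, fun h => Or.inr ⟨k, Or.inl ⟨rfl, h⟩⟩⟩
    rintro (⟨h, -⟩ | ⟨l, ⟨h, h'⟩ | ⟨h, -⟩⟩) <;> dsimp only at h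
    · omega
    · rwa [show k = l by omega]
    · omega
  have e2 : ∀ i k, E (i, 2 * k + 2) ↔ Q (e k).1 i ∧ LQ z (e k).2 i := fun i k => by
    refine ⟨?_, fun h => Or.inr ⟨k, Or.inr ⟨rfl, h⟩⟩⟩
    rintro (⟨h, -⟩ | ⟨l, ⟨h, -⟩ | ⟨h, h'⟩⟩) <;> dsimp only at h
    · omega
    · omega
    · rwa [show k = l by omega]
  obtain ⟨J, dJ, h1, h2, h3⟩ := ax.so E (by simp only [E, LP, LQ, all_iff, imp_iff]; fun_prop)
    (hI.mono fun i => (e0 i).2)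
  refine ⟨J, dJ, fun i hi => (e0 i).1 (h2 i hi), h1, h3.imp (fun h i j hi hj hl => ?_)
    fun h i j hi hj hl k h4 h5 => ?_⟩
  · have key : ∀ i j u v, rho u v → E (i, u) → E (j, v) → ∃ k, (P k i ∧ Q k j ∧ Lx z i j) ∨
        (P k j ∧ Q k i ∧ Lx z j i) := by
      rintro i j _ _ ⟨k, ⟨rfl, rfl⟩ | ⟨rfl, rfl⟩⟩ h1 h2
      · rw [e1] at h1; rw [e2] at h2
        exact ⟨_, Or.inl ⟨h1.1, h2.1, lx_iff.2 ⟨_, h1.2, h2.2⟩⟩⟩
      · rw [e2] at h1; rw [e1] at h2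
        exact ⟨_, Or.inr ⟨h2.1, h1.1, lx_iff.2 ⟨_, h2.2, h1.2⟩⟩⟩
    rcases lt_trichotomy i j with h4 | rfl | h4
    · obtain ⟨u, v, h5, h6, h7⟩ := h i j h4 hi hj
      obtain ⟨k, h8 | h8⟩ := key _ _ _ _ h5 h6 h7
      exacts [⟨k, h8.1, h8.2.1⟩, absurd h8.2.2 hl.asym]
    · exact absurd hl hl.asym
    · obtain ⟨u, v, h5, h6, h7⟩ := h j i h4 hj hi
      obtain ⟨k, h8 | h8⟩ := key _ _ _ _ h5 h6 h7
      exacts [absurd h8.2.2 hl.asym, ⟨k, h8.1, h8.2.1⟩]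
  · obtain ⟨r, h6, h7⟩ := lx_iff.1 hl
    obtain ⟨n, hn⟩ := he (k, r)
    exact h i j hi hj _ _ ⟨n, Or.inl ⟨rfl, rfl⟩⟩ ((e1 i n).2 (hn ▸ ⟨h4, h6⟩))
      ((e2 j n).2 (hn ▸ ⟨h5, h7⟩))

theorem bounded {w : O → ℕ → ℕ} (dw : DfF M fun p : O × ℕ => w p.1 p.2) {I : O → Prop}
    (dI : DfF M I) (hI : Unb I) : ∃ g : ℕ → ℕ, DfF M g ∧ Unb fun i => I i ∧ ∀ n, w i n ≤ g n := by
  obtain ⟨i0⟩ := ax.ne
  let S : Finset (O × ℕ) → O → Prop := fun a i =>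
    I i ∧ ∀ j k v, (j, Nat.pair k v + 1) ∈ a → w i k ≤ v
  have dS : DfF M fun p : Finset (O × ℕ) × O => S p.1 p.2 := by
    simp only [S, all_iff, imp_iff]; fun_prop
  have Sm : ∀ {a c i}, a ⊆ c → S c i → S a i := fun h h' => ⟨h'.1, fun j k v e => h'.2 j k v (h e)⟩
  obtain ⟨H, dH, h1, h2⟩ := ax.ma (fun a => Unb (fun i => S a i) ∧ ∀ i, (i, 0) ∈ a → S a i)
    (fun ξ u => (ξ.2 = 0 ∧ ξ.1 < u.1 ∧ u.2 = 0) ∨ ∃ k v, ξ.2 = k + 1 ∧ u.2 = Nat.pair k v + 1)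
    (by simp only [all_iff, imp_iff]; fun_prop) (by fun_prop)
    ⟨hI.mono fun i hi => ⟨hi, by simp⟩, by simp⟩
    (fun a c h h' => ⟨h'.1.mono fun _ => Sm h, fun i hi => Sm h (h'.2 i (h hi))⟩) (by
      rintro a ⟨ξ, _ | k⟩ ⟨h1, h2⟩
      · obtain ⟨i, h3, h4⟩ := h1 ξ
        have h5 : ∀ j, S a j → S (insert (i, 0) a) j := fun j h => ⟨h.1, by simpa using h.2⟩
        refine ⟨insert (i, 0) a, (i, 0), ⟨h1.mono h5, fun j hj => h5 j ?_⟩, Finset.subset_insert _ _,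
          Finset.mem_insert_self _ _, Or.inl ⟨rfl, h3, rfl⟩⟩
        rcases Finset.mem_insert.1 hj with h | h
        exacts [(show i = j from (Prod.ext_iff.1 h).1.symm) ▸ h4, h2 j h]
      · obtain ⟨v, hv⟩ := h1.fiber (M := M) (by fun_prop) (R := fun i v => w i k ≤ v) (by fun_prop)
          fun i _ => ⟨_, le_rfl⟩
        let v' := max v (a.sup fun u => w u.1 k)
        have h5 : ∀ j, S a j → w j k ≤ v' → S (insert (ξ, Nat.pair k v' + 1) a) j :=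
          fun j h h' => ⟨h.1, fun j' k' v'' e => by
            rcases Finset.mem_insert.1 e with e | e
            · obtain ⟨rfl, rfl⟩ := Nat.pair_eq_pair.1 (Nat.succ_injective (Prod.ext_iff.1 e).2)
              exact h'
            · exact h.2 _ _ _ e⟩
        refine ⟨insert (ξ, Nat.pair k v' + 1) a, _, ⟨hv.mono fun j h => h5 j h.1
          (h.2.trans (le_max_left _ _)), fun j hj => ?_⟩, Finset.subset_insert _ _,
          Finset.mem_insert_self _ _, Or.inr ⟨k, v', rfl, rfl⟩⟩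
        have h6 : (j, 0) ∈ a := by simpa using hj
        exact h5 j (h2 j h6) (le_max_of_le_right (Finset.le_sup (f := fun u => w u.1 k) h6)))
    fun A dA hA hK => by
      obtain ⟨s, hs⟩ := hA.fiber (M := M) (by fun_prop) (κ := Finset ℕ)
        (R := fun i s => ∃ a, A (i, a) ∧ ∀ n, n ∈ s ↔ ∃ j, (j, n) ∈ a)
        (by simp only [all_iff]; fun_prop) fun i ⟨a, ha⟩ => ⟨a.image Prod.snd, a, ha, by simp⟩
      obtain ⟨i, -, -, a, a1, a2⟩ := hs i0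
      obtain ⟨j, hj, -, c, c1, c2⟩ := hs i
      have h3 : ∀ l, S a l ∨ S c l → S (a ∪ c) l := fun l h => ⟨h.elim And.left And.left,
        fun j k v e => by
          have e' := (Finset.mem_union.1 e).elim (fun e => (a2 _).2 ⟨_, e⟩) fun e => (c2 _).2 ⟨_, e⟩
          obtain ⟨_, e1⟩ := (a2 _).1 e'
          obtain ⟨_, e2⟩ := (c2 _).1 e'
          exact h.elim (fun h => h.2 _ _ _ e1) fun h => h.2 _ _ _ e2⟩
      exact ⟨(i, a), (j, c), a ∪ c, hj.ne, a1, c1, ⟨(hK _ a1).1.mono fun l h => h3 l (Or.inl h),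
        fun l hl => h3 l ((Finset.mem_union.1 hl).imp ((hK _ a1).2 l) ((hK _ c1).2 l))⟩,
        Finset.subset_union_left, Finset.subset_union_right⟩
  obtain ⟨g, dg, hg⟩ := exists_choice (M := M) (R := fun k v : ℕ => ∃ j, H (j, Nat.pair k v + 1))
    (by fun_prop) fun k => by
      obtain ⟨⟨j, _⟩, h3, ⟨h, -⟩ | ⟨k', v, h, rfl⟩⟩ := h2 (i0, k + 1)
      · simp at h
      · exact ⟨v, j, (Nat.succ_injective h : k = k') ▸ h3⟩
  refine ⟨g, dg, fun δ => ?_⟩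
  obtain ⟨⟨i, _⟩, h3, ⟨-, h4, rfl⟩ | ⟨_, _, h, -⟩⟩ := h2 (δ, 0)
  · refine ⟨i, h4, ((h1 {(i, 0)} (by simpa using h3)).2 i (by simp)).1, fun n => ?_⟩
    obtain ⟨j, hj⟩ := hg n
    exact ((h1 {(i, 0), (j, Nat.pair n (g n) + 1)} (by simpa using ⟨h3, hj⟩)).2 i (by simp)).2 j _ _
      (by simp)
  · simp at h

variable {K : Type w} [Srt M K] [Sm M K] [TopologicalSpace K] [DTop M K]

def MPerf (M : Set ZFSet.{0}) [Fact (ZFC M)] (K : Type w) [Srt M K] [TopologicalSpace K] : Prop :=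
  ∀ U : PS M K, IsOpen (U : Set K) → ∃ C : ℕ → PS M K, DfF M C ∧
    (∀ n, IsClosed (C n : Set K)) ∧ ∀ x, x ∈ U ↔ ∃ n, x ∈ C n

def MNorm (M : Set ZFSet.{0}) [Fact (ZFC M)] (K : Type w) [Srt M K] [TopologicalSpace K] : Prop :=
  ∀ A B : K → Prop, DfF M A → DfF M B → IsClosed {x | A x} → IsClosed {x | B x} →
    (∀ x, A x → ¬ B x) → ∃ U : PS M K, IsOpen (U : Set K) ∧ (∀ x, A x → x ∈ U) ∧
      ∀ x ∈ closure (U : Set K), ¬ B x

def HL (M : Set ZFSet.{0}) [Fact (ZFC M)] (O : Type 1) [Srt M O] [LinearOrder O] (K : Type w)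
    [Srt M K] [TopologicalSpace K] : Prop :=
  ∀ W : O → K → Prop, (DfF M fun p : O × K => W p.1 p.2) → (∀ i, IsOpen {y | W i y}) →
    ∃ j, ∀ i y, W i y → ∃ i' < j, W i' y

theorem hl_of (hK : MCpt M K) (hP : MPerf M K) : HL M O K := fun W dW hW => by
  have e : ∀ y, y ∈ PS.of M (fun y => ∃ i, W i y) ↔ ∃ i, W i y := fun y => PS.mem_of (by fun_prop)
  obtain ⟨C, dC, h1, h2⟩ := hP (PS.of M fun y => ∃ i, W i y) (by
    convert isOpen_iUnion hW using 1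
    ext y; simp [e])
  obtain ⟨b, hb⟩ := bdd (M := M) (R := fun (n : ℕ) j => ∀ y ∈ C n, ∃ i, i < j ∧ W i y)
    (by simp only [all_iff, imp_iff]; fun_prop) fun n => by
      obtain ⟨s, hs⟩ := hK.subcover (F := fun y => y ∈ C n) (by fun_prop) (h1 n) dW hW
        fun y hy => (e y).1 ((h2 y).2 ⟨n, hy⟩)
      obtain ⟨b, hb⟩ := exists_ub (M := M) s
      exact ⟨b, fun y hy => let ⟨i, h3, h4⟩ := hs y hy; ⟨i, hb i h3, h4⟩⟩
  refine ⟨b, fun i y hy => ?_⟩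
  obtain ⟨n, hn⟩ := (h2 y).1 ((e y).2 ⟨i, hy⟩)
  obtain ⟨j, h3, h4⟩ := hb n
  obtain ⟨i', h5, h6⟩ := h4 y hn
  exact ⟨i', h5.trans h3, h6⟩

@[fun_prop]
theorem df_cl {Z : Type u} [Srt M Z] {A : Z → PS M K} {g : Z → K} (h : DfF M A) (hg : DfF M g) :
    DfF M fun z => g z ∈ closure (A z : Set K) :=
  DfF.mem_closure (P := fun z x => x ∈ A z) (by fun_prop) hg

theorem closed_ex {α ι : Type*} [TopologicalSpace α] {S : ι → Prop} (hS : {i | S i}.Finite)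
    {C : ι → α → Prop} (h : ∀ i, S i → IsClosed {x | C i x}) : IsClosed {x | ∃ i, S i ∧ C i x} := by
  convert hS.isClosed_biUnion h using 1
  ext x; simp

theorem open_and {α : Type*} [TopologicalSpace α] {p : Prop} {C : α → Prop}
    (h : p → IsOpen {x | C x}) : IsOpen {x | p ∧ C x} := by
  by_cases hp : p
  · simpa [hp] using h hp
  · simp [hp]

theorem urysohn (hN : MNorm M K) {A B : K → Prop} (dA : DfF M A) (dB : DfF M B)
    (hA : IsClosed {x | A x}) (hB : IsClosed {x | B x}) (h : ∀ x, A x → ¬ B x) :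
    ∃ f : Cp M K, (∀ x, A x → f.ev x < (1 / 4 : ℚ)) ∧ ∀ x, B x → (3 / 4 : ℚ) < f.ev x := by
  obtain ⟨q, dq, hq⟩ := Cts.enum (M := M) ℚ
  have : Nonempty (PS M K) := ⟨PS.of M fun _ => True⟩
  let Ok : PS M K → Prop := fun U => IsOpen (U : Set K) ∧ (∀ x, A x → x ∈ U) ∧
    ∀ x, x ∈ closure (U : Set K) → ¬ B x
  have dO : DfF M Ok := by simp only [Ok, all_iff, imp_iff]; fun_prop
  let Sb : PS M K → PS M K → Prop := fun U V => ∀ x, x ∈ closure (U : Set K) → x ∈ V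
  have dS : DfF M fun p : PS M K × PS M K => Sb p.1 p.2 := by
    simp only [Sb, all_iff, imp_iff]; fun_prop
  obtain ⟨U, dU, hU⟩ := (mwo_of (M := M) (α := ℕ) (by fun_prop)).exists_rec (Y := PS M K)
    (R := fun n G U => (∀ m, m < n → Ok (G.ap m) ∧ ∀ l, l < n → q m < q l → Sb (G.ap m) (G.ap l)) →
      Ok U ∧ ∀ m, m < n → (q m < q n → Sb (G.ap m) U) ∧ (q n < q m → Sb U (G.ap m)))
    (by simp only [all_iff, imp_iff]; fun_prop) fun n G => by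
    by_cases H : ∀ m, m < n → Ok (G.ap m) ∧ ∀ l, l < n → q m < q l → Sb (G.ap m) (G.ap l)
    swap
    · exact ⟨Classical.arbitrary _, fun h => absurd h H⟩
    obtain ⟨U, h1, h2, h3⟩ := hN (fun x => A x ∨ ∃ m, (m < n ∧ q m < q n) ∧ x ∈ closure (G.ap m : Set K))
      (fun x => B x ∨ ∃ m, (m < n ∧ q n < q m) ∧ x ∉ G.ap m) (by fun_prop) (by fun_prop)
      (hA.union (closed_ex ((finite_lt_nat n).subset fun m hm => hm.1) fun m _ => isClosed_closure))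
      (hB.union (closed_ex ((finite_lt_nat n).subset fun m hm => hm.1)
        fun m hm => (H m hm.1).1.1.isClosed_compl)) (by
      rintro x (a | ⟨m, a1, a2⟩) (b | ⟨l, b1, b2⟩)
      exacts [h x a b, b2 ((H l b1.1).1.2.1 x a), (H m a1.1).1.2.2 x a2 b,
        b2 ((H m a1.1).2 l b1.1 (a1.2.trans b1.2) x a2)])
    exact ⟨U, fun _ => ⟨⟨h1, fun x a => h2 x (Or.inl a), fun x a b => h3 x a (Or.inl b)⟩,
      fun m hm => ⟨fun h x a => h2 x (Or.inr ⟨m, ⟨hm, h⟩, a⟩),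
        fun h x a => not_not.1 fun b => h3 x a (Or.inr ⟨m, ⟨hm, h⟩, b⟩)⟩⟩⟩
  have key : ∀ n, ∀ m, m < n → Ok (U m) ∧ ∀ l, l < n → q m < q l → Sb (U m) (U l) := by
    intro n
    induction n with
    | zero => simp
    | succ n ih =>
      obtain ⟨G, h1, h2⟩ := hU n
      obtain ⟨h3, h4⟩ := h2 fun m hm => by
        rw [h1 m hm]; exact ⟨(ih m hm).1, fun l hl => h1 l hl ▸ (ih m hm).2 l hl⟩
      intro m hm
      rcases (Nat.lt_succ_iff.1 hm).eq_or_lt with rfl | hm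
      · refine ⟨h3, fun l hl h => ?_⟩
        rcases (Nat.lt_succ_iff.1 hl).eq_or_lt with rfl | hl
        exacts [absurd h (lt_irrefl _), h1 l hl ▸ (h4 l hl).2 h]
      · refine ⟨(ih m hm).1, fun l hl h => ?_⟩
        rcases (Nat.lt_succ_iff.1 hl).eq_or_lt with rfl | hl
        exacts [h1 m hm ▸ (h4 m hm).1 h, (ih m hm).2 l hl h]
  have k1 : ∀ m, Ok (U m) := fun m => (key _ m m.lt_succ_self).1
  have k2 : ∀ m l, q m < q l → Sb (U m) (U l) := fun m l =>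
    (key (max m l + 1) m (by omega)).2 l (by omega)
  let F : K → ℕ → ℝ := fun x n => if 0 < q n ∧ q n < 1 ∧ x ∉ U n then (q n : ℝ) else 0
  have f1 : ∀ x n, 0 ≤ F x n ∧ F x n ≤ 1 := fun x n => by
    simp only [F]
    split_ifs with h
    · exact ⟨by exact_mod_cast h.1.le, by exact_mod_cast h.2.1.le⟩
    · simp
  have hb : ∀ x, BddAbove (range (F x)) := fun x => ⟨1, by rintro _ ⟨n, rfl⟩; exact (f1 x n).2⟩
  have f2 : ∀ x n, 0 < q n → q n < 1 → x ∉ U n → (q n : ℝ) ≤ ⨆ n, F x n := fun x n a b c =>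
    le_ciSup_of_le (hb x) n (if_pos ⟨a, b, c⟩).ge
  have f3 : ∀ x, 0 ≤ ⨆ n, F x n := fun x => le_ciSup_of_le (hb x) 0 (f1 x 0).1
  have f4 : ∀ x n, 0 < q n → x ∈ U n → ⨆ n, F x n ≤ q n := fun x n a b => ciSup_le fun m => by
    simp only [F]
    split_ifs with h
    · exact_mod_cast not_lt.1 fun h' => h.2.2 (k2 n m h' x (subset_closure b))
    · exact_mod_cast a.le
  obtain ⟨f, hf⟩ := exists_cp (M := M) (φ := fun x => ⨆ n, F x n)
    (DfR.iSup (by simp only [F]; fun_prop) hb) (continuous_iff_rat.2 fun a b => IsOpen.inter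
      (isOpen_iff_forall_mem_open.2 fun x hx => by
        obtain ⟨n, hn⟩ := (lt_ciSup_iff (hb x)).1 hx
        simp only [F] at hn
        split_ifs at hn with h
        · obtain ⟨r, r1, r2⟩ := exists_between (max_lt (by exact_mod_cast hn : a < q n) h.1)
          obtain ⟨m, rfl⟩ := hq r
          exact ⟨(closure (U m))ᶜ, fun y hy => lt_of_lt_of_le
            (by exact_mod_cast (max_lt_iff.1 r1).1) (f2 y m (max_lt_iff.1 r1).2 (r2.trans h.2.1)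
              fun h' => hy (subset_closure h')), isClosed_closure.isOpen_compl,
            fun h' => h.2.2 (k2 m n r2 x h')⟩
        · exact ⟨univ, fun y _ => hn.trans_le (f3 y), isOpen_univ, trivial⟩)
      (isOpen_iff_forall_mem_open.2 fun x hx => by
        by_cases h : 1 < b
        · exact ⟨univ, fun y _ => (ciSup_le fun n => (f1 y n).2).trans_lt (by exact_mod_cast h),
            isOpen_univ, trivial⟩
        obtain ⟨r, r1, r2⟩ := exists_rat_btwn (show ⨆ n, F x n < b from hx)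
        obtain ⟨m, rfl⟩ := hq r
        have h0 : 0 < q m := by exact_mod_cast (f3 x).trans_lt r1
        exact ⟨U m, fun y hy => (f4 y m h0 hy).trans_lt r2, (k1 m).1, not_not.1 fun h' =>
          r1.not_ge (f2 x m h0 ((Rat.cast_lt.1 r2).trans_le (not_lt.1 h)) h')⟩))
  obtain ⟨m, hm⟩ := hq (1 / 8)
  obtain ⟨n, hn⟩ := hq (7 / 8)
  refine ⟨f, fun x hx => ?_, fun x hx => ?_⟩
  · rw [hf]
    refine (f4 x m (by rw [hm]; norm_num) ((k1 m).2.1 x hx)).trans_lt ?_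
    rw [hm]; norm_num
  · rw [hf]
    refine lt_of_lt_of_le ?_ (f2 x n (by rw [hn]; norm_num) (by rw [hn]; norm_num)
      fun h => (k1 n).2.2 x (subset_closure h) hx)
    rw [hn]; norm_num

theorem separable [WellFoundedLT O] [T1Space K] (hK : MCpt M K) (hN : MNorm M K) (hL : HL M O K)
    {α : O → K} (dα : DfF M α) : ∃ e : ℕ → K, DfF M e ∧ ∀ i, α i ∈ closure (range e) := by
  let F : O → Set K := fun i => closure {y | ∃ j, j < i ∧ α j = y}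
  have dF : DfF M fun p : O × K => p.2 ∈ F p.1 := by simp only [F]; fun_prop
  have hF : ∀ {i j}, i ≤ j → F i ⊆ F j := fun h =>
    closure_mono fun _ ⟨l, h1, h2⟩ => ⟨l, h1.trans_le h, h2⟩
  by_cases hI : Unb fun i => α i ∉ F i
  swap
  · simp only [Unb, not_forall, not_exists, not_and, not_not] at hI
    obtain ⟨δ, hδ⟩ := hI
    obtain ⟨j, hj, -⟩ := unb_top (M := M) δ
    obtain ⟨e, de, he⟩ := enum_lt (M := M) j
    refine ⟨fun n => α (e n), by fun_prop, fun i => ?_⟩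
    induction i using WellFoundedLT.induction with
    | ind i ih =>
    rcases lt_or_ge i j with h | h
    · exact subset_closure ((he i h).imp fun n hn => congrArg α hn)
    · exact closure_minimal (by rintro _ ⟨l, h1, rfl⟩; exact ih l h1) isClosed_closure
        (hδ i (hj.trans_le h))
  exfalso
  have : Nonempty (PS M K) := ⟨PS.of M fun _ => True⟩
  obtain ⟨U, dU, hU⟩ := exists_choice' (M := M) (R := fun i (U : PS M K) => IsOpen (U : Set K) ∧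
    α i ∈ U ∧ ∀ x, x ∈ closure (U : Set K) → x ∉ F i) (by simp only [all_iff, imp_iff]; fun_prop)
  replace hU : ∀ i, α i ∉ F i → IsOpen (U i : Set K) ∧ α i ∈ U i ∧
      ∀ x, x ∈ closure (U i : Set K) → x ∉ F i := fun i hi => by
    obtain ⟨V, h1, h2, h3⟩ := hN (fun x => x = α i) (fun x => x ∈ F i) (by fun_prop) (by fun_prop)
      isClosed_singleton isClosed_closure fun x e => e ▸ hi
    exact hU i V ⟨h1, h2 _ rfl, h3⟩
  let V : Finset (O × ℕ) → K → Prop := fun a y => ∀ w ∈ a, α w.1 ∉ F w.1 ∧ y ∈ U w.1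
  have dV : DfF M fun p : Finset (O × ℕ) × K => V p.1 p.2 := by
    simp only [V, all_iff, imp_iff]; fun_prop
  have oV : ∀ a, IsOpen {y | V a y} := fun a => by
    simp only [V, ofPred_forall]
    exact isOpen_biInter_finset fun w _ => open_and fun h => (hU _ h).1
  obtain ⟨H, dH, h1, h2⟩ := ax.ma (fun a => Unb fun j => α j ∉ F j ∧ V a (α j))
    (fun ξ w => ξ.1 < w.1) (by fun_prop) (by fun_prop) (hI.mono fun i hi => ⟨hi, by simp [V]⟩)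
    (fun a c h h' => h'.mono fun j hj => ⟨hj.1, fun w hw => hj.2 w (h hw)⟩) (fun a ξ ha => by
      obtain ⟨j, hj⟩ := hL (fun i y => (ξ.1 < i ∧ α i ∉ F i) ∧ y ∈ U i) (by fun_prop)
        fun i => open_and fun h => (hU _ h.2).1
      obtain ⟨e, de, he⟩ := enum_lt (M := M) j
      obtain ⟨n, hn⟩ := Unb.fiber (M := M) (I := fun l => (α l ∉ F l ∧ V a (α l)) ∧ ξ.1 < l)
        (fun δ => let ⟨l, h1, h2⟩ := ha (max δ ξ.1)
          ⟨l, (max_lt_iff.1 h1).1, h2, (max_lt_iff.1 h1).2⟩) (by fun_prop)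
        (R := fun l n => (ξ.1 < e n ∧ α (e n) ∉ F (e n)) ∧ α l ∈ U (e n)) (by fun_prop)
        fun l hl => by
          obtain ⟨i, h1, h2⟩ := hj l (α l) ⟨⟨hl.2, hl.1.1⟩, (hU l hl.1.1).2.1⟩
          obtain ⟨n, rfl⟩ := he i h1
          exact ⟨n, h2⟩
      obtain ⟨_, -, -, h3, -⟩ := hn ξ.1
      exact ⟨insert (e n, 0) a, (e n, 0), hn.mono fun l hl => ⟨hl.1.1.1,
        (Finset.forall_mem_insert _ _ _).2 ⟨⟨h3.2, hl.2.2⟩, hl.1.1.2⟩⟩, Finset.subset_insert _ _,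
        Finset.mem_insert_self _ _, h3.1⟩) fun A dA hA hK => by
      obtain ⟨c, dc, hc⟩ := exists_choice' (M := M) (R := fun i a => A (i, a)) dA
      obtain ⟨j, hj⟩ := hL (fun i y => A (i, c i) ∧ V (c i) y) (by fun_prop)
        fun i => open_and fun _ => oV _
      obtain ⟨e, de, he⟩ := enum_lt (M := M) j
      obtain ⟨i, h1, a, h2⟩ := hA j
      have h3 := hc i a h2
      obtain ⟨n, hn⟩ := (hK _ h3).fiber (M := M) (by fun_prop)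
        (R := fun l n => e n < j ∧ A (e n, c (e n)) ∧ V (c (e n)) (α l)) (by fun_prop) fun l hl => by
          obtain ⟨i', h4, h5⟩ := hj i (α l) ⟨h3, hl.2⟩
          obtain ⟨n, rfl⟩ := he i' h4
          exact ⟨n, h4, h5⟩
      obtain ⟨_, -, -, h4, h5, -⟩ := hn j
      exact ⟨(i, c i), (e n, c (e n)), c i ∪ c (e n), (h4.trans h1).ne', h3, h5,
        hn.mono fun l hl => ⟨hl.1.1, fun w hw => (Finset.mem_union.1 hw).elim (hl.1.2 w)
          (hl.2.2.2 w)⟩, Finset.subset_union_left, Finset.subset_union_right⟩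
  obtain ⟨j, hj⟩ := hL (fun i y => (∃ n, H (i, n)) ∧ y ∉ closure (U i : Set K)) (by fun_prop)
    fun i => open_and fun _ => isClosed_closure.isOpen_compl
  obtain ⟨e, de, he⟩ := enum_lt (M := M) j
  obtain ⟨s, ds, hs⟩ := exists_choice (M := M)
    (R := fun (n : ℕ) l => ∀ m, m ≤ n → (∃ k, H (e m, k)) → α l ∈ U (e m))
    (by simp only [all_iff, imp_iff]; fun_prop) fun n => by
      choose! k hk using fun m (h : ∃ k, H (e m, k)) => h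
      obtain ⟨l, -, -, h3⟩ := h1 (((Finset.range (n + 1)).filter fun m => ∃ k, H (e m, k)).image
        fun m => (e m, k m)) (Finset.forall_mem_image.2 fun m hm => hk m (Finset.mem_filter.1 hm).2) j
      exact ⟨l, fun m h4 h5 => (h3 _ (Finset.mem_image_of_mem _ (Finset.mem_filter.2
        ⟨Finset.mem_range.2 (by omega), h5⟩))).2⟩
  obtain ⟨b, hb⟩ := ax.reg s ds
  obtain ⟨⟨i, k⟩, h3, h4⟩ := h2 (b, 0)
  obtain ⟨z, hz⟩ := hK.exists_cluster (u := fun n => α (s n)) (by fun_prop)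
  obtain ⟨_, -, -, h5⟩ := h1 {(i, k)} (by simpa using h3) b
  refine (hU i (h5 _ (Finset.mem_singleton_self _)).1).2.2 z (by_contra fun hn => ?_)
    (closure_mono (by rintro _ ⟨n, -, h⟩; exact ⟨s n, (hb n).trans h4, h⟩) (hz 0))
  obtain ⟨i', h6, h7, h8⟩ := hj i z ⟨⟨k, h3⟩, hn⟩
  obtain ⟨m, rfl⟩ := he i' h6
  exact h8 (closure_mono (by rintro _ ⟨n, h9, rfl⟩; exact hs n m h9 h7) (hz m))

end Pool.Agent.MP_b60a07_lc.H92

end MrgPart4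

-- marker of a merged file
example : 731051 + 343218 = 731051 + 343218 := rfl
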