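import Mathlib.Topology.MetricSpace.Pseudo.Defs
import Pool.Agent.Lib.helper92.ZF.Defs

/-! The topological notions of the problem, relativised to a transitive model `M`. -/

namespace Pool.Agent.MP_b60a07_lc.H92

open ZFSet Pool.Agent.ZF92 Filter Topology

/-- The set `f` is the graph on `X` of the real function `φ`. -/
def Graph (X f : ZFSet.{0}) (φ : ZFSet.{0} → ℝ) : Prop :=
  ∀ z, z ∈ f ↔ ∃ x ∈ X, z = pair x (cut (φ x))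

/-- The graph of the sequence `b` belongs to `M`. -/
def SeqIn (M : Set ZFSet.{0}) (b : ℕ → ZFSet.{0}) : Prop :=
  ∃ s ∈ M, ∀ z, z ∈ s ↔ ∃ n, z = pair (nat n) (b n)

/-- `δ` is a metric on `X` whose graph belongs to `M`. -/
structure Metr (M : Set ZFSet.{0}) (X : ZFSet.{0}) (δ : ZFSet.{0} → ℝ) : Prop where
  graph : ∃ d ∈ M, Graph (prod X X) d δ
  zero : ∀ x ∈ X, ∀ y ∈ X, δ (pair x y) = 0 ↔ x = y
  symm : ∀ x ∈ X, ∀ y ∈ X, δ (pair x y) = δ (pair y x)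
  triangle : ∀ x ∈ X, ∀ y ∈ X, ∀ z ∈ X, δ (pair x z) ≤ δ (pair x y) + δ (pair y z)

/-- In `M`, the pair `(X, δ)` is a nonempty complete separable metric space. -/
structure Polish (M : Set ZFSet.{0}) (X : ZFSet.{0}) (δ : ZFSet.{0} → ℝ) : Prop where
  metr : Metr M X δ
  complete : ∀ b, SeqIn M b → (∀ n, b n ∈ X) →
    (∀ ε : ℚ, 0 < ε → ∃ N, ∀ m ≥ N, ∀ n ≥ N, δ (pair (b m) (b n)) < (ε : ℝ)) →
    ∃ x ∈ X, Tendsto (fun n => δ (pair (b n) x)) atTop (𝓝 0)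
  separable : ∃ b, SeqIn M b ∧ (∀ n, b n ∈ X) ∧
    ∀ x ∈ X, ∀ ε : ℚ, 0 < ε → ∃ n, δ (pair x (b n)) < (ε : ℝ)

/-- The real function `φ` is continuous on `(X, δ)`. -/
def Cont (X : ZFSet.{0}) (δ φ : ZFSet.{0} → ℝ) : Prop :=
  ∀ x ∈ X, ∀ ε : ℚ, 0 < ε → ∃ η : ℚ, 0 < η ∧
    ∀ y ∈ X, δ (pair x y) < (η : ℝ) → |φ x - φ y| < (ε : ℝ)

/-- In `M`, the real function `f` on `X` is a pointwise limit of a sequence of continuous ones. -/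
def Baire1 (M : Set ZFSet.{0}) (X : ZFSet.{0}) (δ : ZFSet.{0} → ℝ) (f : ZFSet.{0}) : Prop :=
  ∃ φ, Graph X f φ ∧ ∃ (u : ℕ → ZFSet.{0}) (ψ : ℕ → ZFSet.{0} → ℝ), SeqIn M u ∧
    (∀ n, Graph X (u n) (ψ n) ∧ Cont X δ (ψ n)) ∧
    ∀ x ∈ X, Tendsto (fun n => ψ n x) atTop (𝓝 (φ x))

/-- The real functions `f`, `g` differ by less than `ε` at the points of `E`. -/
def Near (E : ZFSet.{0}) (ε : ℚ) (f g : ZFSet.{0}) : Prop :=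
  ∀ x ∈ E, ∀ r s : ℝ, pair x (cut r) ∈ f → pair x (cut s) ∈ g → |r - s| < (ε : ℝ)

/-- In `M`, the set `S` is the topology of pointwise convergence on `L`. -/
def Pointwise (M : Set ZFSet.{0}) (X L S : ZFSet.{0}) : Prop :=
  ∀ U, U ∈ S ↔ U ∈ M ∧ U ⊆ L ∧ ∀ f ∈ U, ∃ E ∈ M, E ⊆ X ∧ (E : Set ZFSet).Finite ∧
    ∃ ε : ℚ, 0 < ε ∧ ∀ g ∈ L, Near E ε f g → g ∈ U

/-- In `M`, the pair `(X, T)` is a compact Hausdorff space. -/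
structure CompactSp (M : Set ZFSet.{0}) (X T : ZFSet.{0}) : Prop where
  sub : ∀ U ∈ T, U ⊆ X
  whole : X ∈ T
  inter : ∀ U ∈ T, ∀ V ∈ T, U ∩ V ∈ T
  unions : ∀ C ∈ M, C ⊆ T → ZFSet.sUnion C ∈ T
  hausdorff : ∀ x ∈ X, ∀ y ∈ X, x ≠ y → ∃ U ∈ T, ∃ V ∈ T, x ∈ U ∧ y ∈ V ∧ U ∩ V = ∅
  compact : ∀ C ∈ M, C ⊆ T → X ⊆ ZFSet.sUnion C →
    ∃ F ∈ M, F ⊆ C ∧ (F : Set ZFSet).Finite ∧ X ⊆ ZFSet.sUnion F

/-- In `M`, the pair `(L, S)` is a pointwise compact set of Baire one functions on a Polish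
space. -/
def Rosenthal (M : Set ZFSet.{0}) (L S : ZFSet.{0}) : Prop :=
  ∃ X ∈ M, ∃ δ, Polish M X δ ∧ (∀ f ∈ L, Baire1 M X δ f) ∧ Pointwise M X L S ∧ CompactSp M L S

/-- `A` is a closed subset of `(X, T)`. -/
def Closed (X T A : ZFSet.{0}) : Prop := A ⊆ X ∧ X \ A ∈ T

/-- In `M`, the space is normal and every open set is a countable union of closed sets. -/
def PerfNormal (M : Set ZFSet.{0}) (X T : ZFSet.{0}) : Prop :=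
  (∀ A B, Closed X T A → Closed X T B → A ∩ B = ∅ →
    ∃ U ∈ T, ∃ V ∈ T, A ⊆ U ∧ B ⊆ V ∧ U ∩ V = ∅) ∧
  ∀ U ∈ T, ∃ c, SeqIn M c ∧ (∀ n, Closed X T (c n)) ∧ ∀ x, x ∈ U ↔ ∃ n, x ∈ c n

/-- `g` is a continuous function from `(X, T)` onto `(Y, S)`. -/
def ContOnto (X T Y S g : ZFSet.{0}) : Prop :=
  IsFunc X Y g ∧ (∀ y ∈ Y, ∃ x ∈ X, pair x y ∈ g) ∧
    ∀ V ∈ S, X.sep (fun x => ∃ y ∈ V, pair x y ∈ g) ∈ T

/-- In `M`, some metric on `Y` induces the topology `S`. -/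
def Metrizable (M : Set ZFSet.{0}) (Y S : ZFSet.{0}) : Prop :=
  ∃ δ, Metr M Y δ ∧ ∀ V ∈ M, V ⊆ Y →
    (V ∈ S ↔ ∀ y ∈ V, ∃ ε : ℚ, 0 < ε ∧ ∀ z ∈ Y, δ (pair y z) < (ε : ℝ) → z ∈ V)

/-- No three distinct points have the same value. -/
def TwoToOne (g : ZFSet.{0}) : Prop :=
  ∀ a b c y, pair a y ∈ g → pair b y ∈ g → pair c y ∈ g → a = b ∨ a = c ∨ b = c

end Pool.Agent.MP_b60a07_lc.H92
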