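import Pool.Agent.MP_b60a07_lc.h92.Base
import Pool.Agent.MP_b60a07_lc.h92.Defs

-- ======== part 0: formerly Pool.Agent.MP_b60a07_lc.h92.Canon
section MrgPart0

/-! Canonization of sequences of functions and points inside the model. -/

namespace Pool.Agent.MP_b60a07_lc.H92

open Function Set Pool.Agent.ZF92
open scoped Classical

set_option linter.unusedSectionVars false

universe u v w

variable {M : Set ZFSet.{0}} [hM : Fact (ZFC M)]
variable {O : Type 1} [Srt M O] [Sm M O] [LinearOrder O] [WellFoundedLT O] [ax : Ax M O]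
variable {K : Type w} [Srt M K] [Sm M K] [TopologicalSpace K] [DTop M K]
variable {B : Type u} [Srt M B] [Sm M B] [Nonempty B] {A : Type v} [Srt M A] [Sm M A]

def Side (a b : ℚ) : Bool → ℝ → Prop
  | true, t => a < t
  | false, t => t < b

def Ex (a b : ℚ) : Bool → Set ℝ
  | true => Iio a
  | false => Ioi b

theorem Ex_open (a b : ℚ) (s : Bool) : IsOpen (Ex a b s) := by
  cases s
  exacts [isOpen_Ioi, isOpen_Iio]

theorem Side.not_ex {a b : ℚ} {t : ℝ} {s : Bool} (h : Side a b s t) : t ∉ Ex a b s := by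
  cases s
  exacts [lt_asymm h, lt_asymm h]

@[fun_prop]
theorem df_ex {X : Type u} [Srt M X] (a b : ℚ) (s : Bool) {F : X → ℝ} (hF : DfR M F) :
    DfF M fun x => F x ∈ Ex a b s := by
  cases s
  · exact DfF.real_lt (F := fun _ => (b : ℝ)) (by fun_prop) hF
  · exact DfF.real_lt (G := fun _ => (a : ℝ)) hF (by fun_prop)

def Can (M : Set ZFSet.{0}) [Fact (ZFC M)] (O : Type 1) [Srt M O] [LinearOrder O] [Srt M B]
    [Srt M A] (g : B → K → ℝ) (x : A → K) (a b : ℚ) (U : B → Prop) (V : A → Prop) : Prop :=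
  ∀ z : O → ℕ → Prop, (DfF M fun p : O × ℕ => z p.1 p.2) → Injective z → ∀ I : O → Prop,
    DfF M I → Unb I → ∀ (β : O → B) (α : O → A), DfF M β → DfF M α → (∀ i, I i → U (β i)) →
    (∀ i, I i → V (α i)) → ∃ J : O → Prop, DfF M J ∧ (∀ i, J i → I i) ∧ Unb J ∧
      ∃ s, ∀ i j, J i → J j → Lx z i j → Side a b s (g (β i) (x (α j)))

def Tri (g : B → K → ℝ) (x : A → K) (a b : ℚ) (U : B → Prop) (V : A → Prop) (γ : ℕ → B) : Prop :=
  ∀ α β β0 y v, V α → U β → U β0 → (∀ n, g (γ n) y = g (γ n) (x α)) →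
    (∀ n, g (γ n) v = g (γ n) (x α)) → g β (x α) < a → b < g β y → g β0 (x α) < a → g β0 y < a →
      ¬ b < g β0 v

variable {g : B → K → ℝ} (dg : DfR M fun p : B × K => g p.1 p.2) (cg : ∀ β, Continuous (g β))
  {x : A → K} (dx : DfF M x)
include dg cg

omit ax in
theorem nb (hK : MCpt M K) {γ : ℕ → B} (dγ : DfF M γ) (p : K) {C : K → Prop} (dC : DfF M C)
    (hC : IsClosed {y | C y}) (h : ∀ y, C y → ¬ ∀ n, g (γ n) y = g (γ n) p) :
    ∃ t : Finset (ℕ × ℚ × ℚ), (∀ z ∈ t, z.2.1 < g (γ z.1) p ∧ g (γ z.1) p < z.2.2) ∧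
      ∀ y, C y → ¬ ∀ z ∈ t, z.2.1 < g (γ z.1) y ∧ g (γ z.1) y < z.2.2 := by
  have : ∀ n, MR M (g (γ n) p) := fun n => by
    obtain ⟨f, -, hf⟩ := dg.exists_re
    exact ⟨hf (γ n, p) ▸ (f (γ n, p)).mem⟩
  obtain ⟨s, hs⟩ := hK.subcover dC hC (U := fun (z : ℕ × ℚ × ℚ) y =>
    (z.2.1 < g (γ z.1) p ∧ g (γ z.1) p < z.2.2) ∧ (g (γ z.1) y < z.2.1 ∨ z.2.2 < g (γ z.1) y))
    (by fun_prop) (fun z => open_and fun _ => (isOpen_lt (cg _) continuous_const).union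
      (isOpen_lt continuous_const (cg _))) fun y hy => by
    obtain ⟨n, hn⟩ := not_forall.1 (h y hy)
    rcases lt_or_gt_of_ne hn with h1 | h1
    · obtain ⟨q, h2, h3⟩ := exists_rat_btwn h1
      obtain ⟨r, h4⟩ := exists_rat_gt (g (γ n) p)
      exact ⟨(n, q, r), ⟨h3, h4⟩, Or.inl h2⟩
    · obtain ⟨q, h2, h3⟩ := exists_rat_btwn h1
      obtain ⟨r, h4⟩ := exists_rat_lt (g (γ n) p)
      exact ⟨(n, r, q), ⟨h4, h2⟩, Or.inr h3⟩
  refine ⟨s.filter fun z => z.2.1 < g (γ z.1) p ∧ g (γ z.1) p < z.2.2,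
    fun z hz => (Finset.mem_filter.1 hz).2, fun y hy h1 => ?_⟩
  obtain ⟨z, h2, h3, h4⟩ := hs y hy
  have h5 := h1 z (Finset.mem_filter.2 ⟨h2, h3⟩)
  exact h4.elim h5.1.not_gt h5.2.not_gt

include dx

theorem triangle (hL : HL M O K) {a b : ℚ} {U : B → Prop} {V : A → Prop} (dU : DfF M U)
    (dV : DfF M V) (h : Can M O g x a b U V) : ∃ γ : Fn M ℕ B, Tri g x a b U V γ.ap := by
  by_contra hc
  simp only [Tri, not_exists, not_forall, not_not] at hc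
  have : Nonempty (A × B × B × K × K) :=
    let ⟨α, β, β0, y, v, _⟩ := hc ⟨fun _ => Classical.arbitrary B, by fun_prop⟩; ⟨α, β, β0, y, v⟩
  obtain ⟨t, dt, ht⟩ := (mwo_of ax.dlt).exists_rec (Y := A × B × B × K × K) (R := fun i G t =>
      (V t.1 ∧ U t.2.1 ∧ U t.2.2.1) ∧ (∀ j, j < i →
        (g (G.ap j).2.1 t.2.2.2.1 = g (G.ap j).2.1 (x t.1) ∧
          g (G.ap j).2.2.1 t.2.2.2.1 = g (G.ap j).2.2.1 (x t.1)) ∧
        g (G.ap j).2.1 t.2.2.2.2 = g (G.ap j).2.1 (x t.1) ∧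
          g (G.ap j).2.2.1 t.2.2.2.2 = g (G.ap j).2.2.1 (x t.1)) ∧
      g t.2.1 (x t.1) < a ∧ b < g t.2.1 t.2.2.2.1 ∧ g t.2.2.1 (x t.1) < a ∧
      g t.2.2.1 t.2.2.2.1 < a ∧ b < g t.2.2.1 t.2.2.2.2)
    (by simp only [all_iff, imp_iff]; fun_prop) fun i G => by
    obtain ⟨e, de, he⟩ := (((ax.ctb i).image (by fun_prop) (f := fun j => (G.ap j).2.1)
      (by fun_prop)).union (by fun_prop) (by fun_prop) ((ax.ctb i).image (by fun_prop)
      (f := fun j => (G.ap j).2.2.1) (by fun_prop))).exists_enum (by fun_prop)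
    obtain ⟨α, β, β0, y, v, h1, h2, h3, h4, h5, h6, h7, h8, h9, h10⟩ := hc ⟨e, de⟩
    refine ⟨(α, β, β0, y, v), ⟨h1, h2, h3⟩, fun j hj => ?_, h6, h7, h8, h9, h10⟩
    obtain ⟨n, hn⟩ := he _ (Or.inl ⟨j, hj, rfl⟩)
    obtain ⟨m, hm⟩ := he _ (Or.inr ⟨j, hj, rfl⟩)
    exact ⟨⟨hn ▸ h4 n, hm ▸ h4 m⟩, hn ▸ h5 n, hm ▸ h5 m⟩
  choose G hG ht using ht
  obtain ⟨z, dz, hz⟩ := exists_z (M := M) (O := O)
  have hz' : Injective fun i n => ¬ z i n := fun i j e =>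
    hz (funext fun n => propext (not_iff_not.1 (iff_of_eq (congrFun e n))))
  obtain ⟨J1, d1, -, u1, s1, c1⟩ := h z dz hz _ (by fun_prop) (unb_top (M := M))
    (fun i => (t i).2.1) (fun i => (t i).1) (by fun_prop) (by fun_prop)
    (fun i _ => (ht i).1.2.1) (fun i _ => (ht i).1.1)
  obtain ⟨J2, d2, k2, u2, s0, c2⟩ := h z dz hz J1 d1 u1 (fun i => (t i).2.2.1) (fun i => (t i).1)
    (by fun_prop) (by fun_prop) (fun i _ => (ht i).1.2.2) (fun i _ => (ht i).1.1)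
  obtain ⟨J3, d3, k3, u3, r1, c3⟩ := h _ (by fun_prop) hz' J2 d2 u2 (fun i => (t i).2.1)
    (fun i => (t i).1) (by fun_prop) (by fun_prop) (fun i _ => (ht i).1.2.1) (fun i _ => (ht i).1.1)
  obtain ⟨J, d4, k4, u4, r0, c4⟩ := h _ (by fun_prop) hz' J3 d3 u3 (fun i => (t i).2.2.1)
    (fun i => (t i).1) (by fun_prop) (by fun_prop) (fun i _ => (ht i).1.2.2) (fun i _ => (ht i).1.1)
  let E : Bool → Bool → O → K → Prop := fun s s' i y =>
    g (t i).2.1 y ∈ Ex a b s ∨ g (t i).2.2.1 y ∈ Ex a b s'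
  have hE : ∀ s s' i, IsOpen {y | E s s' i y} := fun s s' i =>
    ((Ex_open a b s).preimage (cg _)).union ((Ex_open a b s').preimage (cg _))
  have hw : ∀ i, ∃ w, (E s1 s0 i w ∧ E r1 r0 i w) ∧ ∀ j < i,
      g (t j).2.1 w = g (t j).2.1 (x (t i).1) ∧ g (t j).2.2.1 w = g (t j).2.2.1 (x (t i).1) := by
    intro i
    obtain ⟨-, h1, h3, h4, h5, h6, h7⟩ := ht i
    have ax : ∀ j < i, g (t j).2.1 (x (t i).1) = g (t j).2.1 (x (t i).1) ∧
      g (t j).2.2.1 (x (t i).1) = g (t j).2.2.1 (x (t i).1) := fun _ _ => ⟨rfl, rfl⟩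
    have ay := fun j hj => hG i j hj ▸ (h1 j hj).1
    have av := fun j hj => hG i j hj ▸ (h1 j hj).2
    have x1 : ∀ s, E s true i (x (t i).1) := fun s => Or.inr h5
    have x2 : ∀ s, E true s i (x (t i).1) := fun s => Or.inl h3
    have y1 : ∀ s, E s true i (t i).2.2.2.1 := fun s => Or.inr h6
    have y2 : ∀ s, E false s i (t i).2.2.2.1 := fun s => Or.inl h4
    have v1 : ∀ s, E s false i (t i).2.2.2.2 := fun s => Or.inr h7
    cases s0 <;> cases r0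
    · exact ⟨_, ⟨v1 _, v1 _⟩, av⟩
    · cases s1
      · exact ⟨_, ⟨y2 _, y1 _⟩, ay⟩
      · exact ⟨_, ⟨x2 _, x1 _⟩, ax⟩
    · cases r1
      · exact ⟨_, ⟨y1 _, y2 _⟩, ay⟩
      · exact ⟨_, ⟨x1 _, x2 _⟩, ax⟩
    · exact ⟨_, ⟨x1 _, x1 _⟩, ax⟩
  obtain ⟨j0, hj0⟩ := hL (fun i y => J i ∧ E s1 s0 i y ∧ E r1 r0 i y) (by simp only [E]; fun_prop)
    fun i => open_and fun _ => (hE _ _ _).inter (hE _ _ _)
  obtain ⟨j, h1, hj⟩ := u4 j0
  obtain ⟨w, hw1, hw2⟩ := hw j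
  obtain ⟨i, h2, hi, hwi⟩ := hj0 j w ⟨hj, hw1⟩
  obtain ⟨e1, e2⟩ := hw2 i (h2.trans h1)
  rcases lx_tot hz (h2.trans h1).ne with hl | hl
  · rcases hwi.1 with h' | h'
    · exact (c1 i j (k2 _ (k3 _ (k4 _ hi))) (k2 _ (k3 _ (k4 _ hj))) hl).not_ex (e1 ▸ h')
    · exact (c2 i j (k3 _ (k4 _ hi)) (k3 _ (k4 _ hj)) hl).not_ex (e2 ▸ h')
  · rcases hwi.2 with h' | h'
    · exact (c3 i j (k4 _ hi) (k4 _ hj) hl).not_ex (e1 ▸ h')
    · exact (c4 i j hi hj hl).not_ex (e2 ▸ h')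

variable {κ : Type} [Srt M κ] [Sm M κ] [Nonempty κ] [Cts M κ]

theorem cover (hK : MCpt M K) (hL : HL M O K) {a b a' b' : ℚ} (ha : a' < a) (hb : b < b')
    {U : κ → B → Prop} {V : κ → A → Prop} (dU : DfF M fun p : κ × B => U p.1 p.2)
    (dV : DfF M fun p : κ × A => V p.1 p.2) (h : ∀ k, Can M O g x a b (U k) (V k))
    {z : O → ℕ → Prop} (dz : DfF M fun p : O × ℕ => z p.1 p.2) {I : O → Prop} (dI : DfF M I)
    (hI : Unb I) {β : O → B} {α : O → A} (dβ : DfF M β) (dα : DfF M α)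
    (hc : ∀ i j, I i → I j → Lx z i j → ∃ k, U k (β i) ∧ V k (α j)) :
    ∃ J : O → Prop, DfF M J ∧ (∀ i, J i → I i) ∧ Unb J ∧
      ∃ s, ∀ i j, J i → J j → Lx z i j → Side a' b' s (g (β i) (x (α j))) := by
  obtain ⟨γ, dγ, htr⟩ := exists_choice (M := M)
    (R := fun k (γ : Fn M ℕ B) => Tri g x a b (U k) (V k) γ.ap)
    (by simp only [Tri, all_iff, imp_iff]; fun_prop)
    fun k => triangle dg cg dx hL (by fun_prop) (by fun_prop) (h k)
  let W : κ × Finset (ℕ × ℚ × ℚ) → K → Prop := fun p y =>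
    ∀ z ∈ p.2, z.2.1 < g ((γ p.1).ap z.1) y ∧ g ((γ p.1).ap z.1) y < z.2.2
  have dW : DfF M fun p : (κ × Finset (ℕ × ℚ × ℚ)) × K => W p.1 p.2 := by
    simp only [W, all_iff, imp_iff]; fun_prop
  have hH : ∀ i, IsClosed {y | (b' : ℝ) ≤ g (β i) y} := fun i => isClosed_le continuous_const (cg _)
  obtain ⟨J1, d1, k1, u1, h1 | h1⟩ := so dz dI hI (fun p i => ∀ y, (b' : ℝ) ≤ g (β i) y → ¬ W p y)
    (fun p j => W p (x (α j))) (by simp only [all_iff, imp_iff]; fun_prop) (by fun_prop)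
  · refine ⟨J1, d1, k1, u1, false, fun i j hi hj hl => ?_⟩
    obtain ⟨p, hp1, hp2⟩ := h1 i j hi hj hl
    exact not_le.1 fun h => hp1 _ h hp2
  have inc : ∀ i j, J1 i → J1 j → Lx z i j → ∀ k, ∃ v, (b' : ℝ) ≤ g (β i) v ∧
      ∀ n, g ((γ k).ap n) v = g ((γ k).ap n) (x (α j)) := by
    intro i j hi hj hl k
    by_contra hn
    obtain ⟨m, hm1, hm2⟩ := nb dg cg hK (γ k).df_ap (x (α j)) (by fun_prop) (hH i)
      fun y hy hh => hn ⟨y, hy, hh⟩
    exact h1 i j hi hj hl (k, m) hm2 hm1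
  obtain ⟨c, hc1, hc2⟩ := exists_between ha
  obtain ⟨j0, hj0⟩ := bdd (M := M) (R := fun (p : κ × ℕ × Finset ℕ) j => ∀ i y,
    (J1 i ∧ U p.1 (β i) ∧ LP z p.2 i) ∧ g (β i) y < c →
      ∃ i', i' < j ∧ (J1 i' ∧ U p.1 (β i') ∧ LP z p.2 i') ∧ g (β i') y < c)
    (by simp only [LP, all_iff, imp_iff]; fun_prop) fun p => hL _
      (by simp only [LP, all_iff, imp_iff]; fun_prop)
      fun i => open_and fun _ => isOpen_lt (cg _) continuous_const
  obtain ⟨e, de, he⟩ := enum_lt (M := M) j0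
  obtain ⟨J, d2, k2, u2, h2 | h2⟩ := so dz d1 u1
    (fun (p : ℕ × κ × Finset (ℕ × ℚ × ℚ)) i => ∀ y, (b' : ℝ) ≤ g (β i) y ∧ g (β (e p.1)) y ≤ c →
      ¬ W p.2 y) (fun p j => W p.2 (x (α j)) ∧ g (β (e p.1)) (x (α j)) ≤ c)
    (by simp only [all_iff, imp_iff]; fun_prop) (by fun_prop)
  · refine ⟨J, d2, fun i hi => k1 i (k2 i hi), u2, false, fun i j hi hj hl => ?_⟩
    obtain ⟨p, hp1, hp2, hp3⟩ := h2 i j hi hj hl
    exact not_le.1 fun hh => hp1 _ ⟨hh, hp3⟩ hp2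
  refine ⟨J, d2, fun i hi => k1 i (k2 i hi), u2, true, fun i j hi hj hl => ?_⟩
  by_contra hlo
  have hlo' : g (β i) (x (α j)) ≤ a' := not_lt.1 hlo
  have c1 : (a' : ℝ) < c := by exact_mod_cast hc1
  have c2 : (c : ℝ) < a := by exact_mod_cast hc2
  have c3 : (b : ℝ) < b' := by exact_mod_cast hb
  obtain ⟨k, hk1, hk2⟩ := hc i j (k1 _ (k2 _ hi)) (k1 _ (k2 _ hj)) hl
  obtain ⟨r, hq1, hq2⟩ := lx_iff.1 hl
  obtain ⟨j1, h3, h4⟩ := hj0 (k, r)
  obtain ⟨i0, h5, ⟨m1, m2, m3⟩, hx0⟩ := h4 i _ ⟨⟨k2 i hi, hk1, hq1⟩, hlo'.trans_lt c1⟩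
  obtain ⟨n, rfl⟩ := he i0 (h5.trans h3)
  obtain ⟨v, hv1, hv2⟩ := inc _ j m1 (k2 j hj) (lx_iff.2 ⟨r, m3, hq2⟩) k
  obtain ⟨m, hm1, hm2⟩ := nb dg cg hK (γ k).df_ap (x (α j))
    (C := fun y => (b' : ℝ) ≤ g (β i) y ∧ g (β (e n)) y ≤ c) (by fun_prop)
    ((hH i).inter (isClosed_le (cg _) continuous_const)) fun y hy hh =>
    htr k _ _ _ y v hk2 hk1 m2 hh hv2 (hlo'.trans_lt (c1.trans c2)) (c3.trans_le hy.1)
      (hx0.trans c2) (hy.2.trans_lt c2) (c3.trans_le hv1)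
  exact h2 i j hi hj hl (n, k, m) hm2 ⟨hm1, hx0.le⟩

theorem ind (hK : MCpt M K) (hL : HL M O K) {a b : ℚ} {B0 : B → Prop} {𝒰 : κ → B → Prop}
    (d𝒰 : DfF M fun p : κ × B => 𝒰 p.1 p.2) (h0 : ∀ n β, 𝒰 n β → B0 β) {l : B → A → O}
    (dl : DfF M fun p : B × A => l p.1 p.2)
    (hl : ∀ β α, B0 β → ∃ n, 𝒰 n β ∧ (∀ β', 𝒰 n β' → l β' α ≤ l β α) ∧
      ∃ s, ∀ β', 𝒰 n β' → l β' α = l β α → Side a b s (g β' (x α))) (ζ : O) :
    ∀ (U : B → Prop) (V : A → Prop), (∀ β, U β → B0 β) → (∀ β α, U β → V α → l β α ≤ ζ) →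
      ∀ a' < a, ∀ b' > b, Can M O g x a' b' U V := by
  induction ζ using WellFoundedLT.induction with
  | ind ζ ih =>
  intro U V hU hUV a' ha b' hb z dz hz I dI hI β α dβ dα hβ hα
  obtain ⟨a1, ha1, ha2⟩ := exists_between ha
  obtain ⟨b1, hb1, hb2⟩ := exists_between hb
  obtain ⟨e, de, he⟩ := enum_lt (M := M) ζ
  let U' : κ × ℕ → B → Prop := fun p β => e p.2 < ζ ∧ 𝒰 p.1 β
  let V' : κ × ℕ → A → Prop := fun p α => ∀ β', 𝒰 p.1 β' → l β' α ≤ e p.2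
  have dU' : DfF M fun p : (κ × ℕ) × B => U' p.1 p.2 := by simp only [U']; fun_prop
  have dV' : DfF M fun p : (κ × ℕ) × A => V' p.1 p.2 := by
    simp only [V', all_iff, imp_iff]; fun_prop
  obtain ⟨J1, d1, k1, u1, h1 | h1⟩ := so dz dI hI (fun p i => U' p (β i)) (fun p j => V' p (α j))
    (by fun_prop) (by fun_prop)
  · obtain ⟨J, d2, k2, h2⟩ := cover dg cg dx hK hL ha1 hb2 dU' dV' (fun p => by
      by_cases h : e p.2 < ζ
      · exact ih _ h _ _ (fun β hβ => h0 _ _ hβ.2) (fun β α hβ hα => hα β hβ.2) a1 ha2 b1 hb1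
      · intro _ _ _ _ _ hI _ _ _ _ hβ _
        obtain ⟨i, -, hi⟩ := hI ζ
        exact absurd (hβ i hi).1 h) dz d1 u1 dβ dα h1
    exact ⟨J, d2, fun i hi => k1 i (k2 i hi), h2⟩
  have top : ∀ i j, J1 i → J1 j → Lx z i j → l (β i) (α j) = ζ := by
    intro i j hi hj hlt
    refine le_antisymm (hUV _ _ (hβ i (k1 i hi)) (hα j (k1 j hj))) (not_lt.1 fun hh => ?_)
    obtain ⟨n, hn1, hn2, -⟩ := hl (β i) (α j) (hU _ (hβ i (k1 i hi)))
    obtain ⟨m, hm⟩ := he _ hh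
    exact h1 i j hi hj hlt (n, m) ⟨hm ▸ hh, hn1⟩ fun β' h => hm ▸ hn2 β' h
  obtain ⟨J, d2, k2, u2, h2 | h2⟩ := so dz d1 u1 (fun n i => 𝒰 n (β i))
    (fun n j => ∀ β', 𝒰 n β' → l β' (α j) = ζ → g β' (x (α j)) < b) (by fun_prop)
    (by simp only [all_iff, imp_iff]; fun_prop)
  · refine ⟨J, d2, fun i hi => k1 i (k2 i hi), u2, false, fun i j hi hj hlt => ?_⟩
    obtain ⟨n, hn1, hn2⟩ := h2 i j hi hj hlt
    exact (hn2 _ hn1 (top i j (k2 i hi) (k2 j hj) hlt)).trans (by exact_mod_cast hb)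
  · refine ⟨J, d2, fun i hi => k1 i (k2 i hi), u2, true, fun i j hi hj hlt => ?_⟩
    obtain ⟨n, hn1, -, s, hs⟩ := hl (β i) (α j) (hU _ (hβ i (k1 i (k2 i hi))))
    cases s
    · exact absurd (fun β' h1 h2 => hs β' h1 (h2.trans (top i j (k2 i hi) (k2 j hj) hlt).symm))
        (h2 i j hi hj hlt n hn1)
    · exact lt_trans (by exact_mod_cast ha) (hs _ hn1 rfl)

end Pool.Agent.MP_b60a07_lc.H92

end MrgPart0

-- ======== part 1: formerly Pool.Agent.MP_b60a07_lc.h92.Rank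
section MrgPart1

/-! A uniform bound for the separation rank inside the model. -/

namespace Pool.Agent.MP_b60a07_lc.H92

open Function Set Filter Topology Pool.Agent.ZF92
open scoped Classical

set_option linter.unusedSectionVars false

universe u v w

variable {M : Set ZFSet.{0}} [hM : Fact (ZFC M)]

instance (a b : ℕ) [a.AtLeastTwo] [b.AtLeastTwo] : MR M (ofNat(a) / ofNat(b) : ℝ) := by
  simpa using (inferInstance : MR M ((ofNat(a) / ofNat(b) : ℚ) : ℝ))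
instance (b : ℕ) [b.AtLeastTwo] : MR M (1 / ofNat(b) : ℝ) := by
  simpa using (inferInstance : MR M ((1 / ofNat(b) : ℚ) : ℝ))

abbrev Ba (M : Set ZFSet.{0}) [Fact (ZFC M)] := Fn M ℕ ℕ

instance : TopologicalSpace (Ba M) := TopologicalSpace.induced Fn.ap inferInstance

theorem ba_cont (n : ℕ) : Continuous fun x : Ba M => x.ap n :=
  (continuous_apply n).comp (continuous_induced_dom (f := (Fn.ap : Ba M → ℕ → ℕ)))

theorem ba_basic (m : ℕ) (x : ℕ → ℕ) : IsOpen {y : Ba M | ∀ i < m, y.ap i = x i} := by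
  simp only [ofPred_forall]
  exact (finite_lt_nat m).isOpen_biInter fun i _ => (isOpen_discrete {x i}).preimage (ba_cont i)

theorem isOpen_ba {s : Set (Ba M)} :
    IsOpen s ↔ ∀ x ∈ s, ∃ m, ∀ y : Ba M, (∀ i < m, y.ap i = x.ap i) → y ∈ s := by
  refine ⟨fun hs x hx => ?_, fun h => isOpen_iff_forall_mem_open.2 fun x hx =>
    let ⟨m, hm⟩ := h x hx; ⟨_, hm, ba_basic m _, fun _ _ => rfl⟩⟩
  obtain ⟨V, hV, rfl⟩ := isOpen_induced_iff.1 hs
  obtain ⟨F, u, hu, hI⟩ := isOpen_pi_iff.1 hV _ hx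
  exact ⟨F.sup id + 1, fun y hy => hI fun i hi =>
    hy i (Nat.lt_succ_of_le (Finset.le_sup (f := id) hi)) ▸ (hu i hi).2⟩

instance : DTop M (Ba M) :=
  DTop.of_nhds (DfF.congr (P := fun U : PS M (Ba M) => ∀ x ∈ U, ∃ m, ∀ y : Ba M,
    (∀ i < m, y.ap i = x.ap i) → y ∈ U) (by simp only [all_iff, imp_iff]; fun_prop)
    fun _ => isOpen_ba) fun _ hs x hx => let ⟨m, hm⟩ := isOpen_ba.1 hs x hx
      ⟨fun y => ∀ i < m, y.ap i = x.ap i, by simp only [all_iff, imp_iff]; fun_prop, ba_basic m _,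
        fun _ _ => rfl, hm⟩

theorem closed_all {X : Type u} [TopologicalSpace X] {ι : Sort v} {C : ι → X → Prop}
    (h : ∀ i, IsClosed {x | C i x}) : IsClosed {x | ∀ i, C i x} := by
  simp only [ofPred_forall]; exact isClosed_iInter h

theorem nest {g : ℕ → ℕ} {C : ℕ → Ba M → Prop} (dC : DfF M fun p : ℕ × Ba M => C p.1 p.2)
    (hc : ∀ n, IsClosed {y | C n y}) (hm : ∀ n y, C (n + 1) y → C n y)
    (hb : ∀ y, C 0 y → ∀ i, y.ap i ≤ g i) (hn : ∀ n, ∃ y, C n y) : ∃ y, ∀ n, C n y := by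
  have hm' : ∀ {m n y}, m ≤ n → C n y → C m y := fun h => by
    induction h with
    | refl => exact id
    | step _ ih => exact fun h => ih (hm _ _ h)
  obtain ⟨f, df, hf⟩ := (mwo_of (M := M) (α := ℕ) (by fun_prop)).exists_rec (Y := ℕ)
    (R := fun n G a => (∀ j, ∃ y, C j y ∧ ∀ i, i < n → y.ap i = G.ap i) →
      ∀ j, ∃ y, C j y ∧ (∀ i, i < n → y.ap i = G.ap i) ∧ y.ap n = a)
    (by simp only [all_iff, imp_iff]; fun_prop) fun n G => by
    by_contra h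
    push Not at h
    choose j hj using fun a => (h a).2
    obtain ⟨y, h1, h2⟩ := (h 0).1 ((Finset.range (g n + 1)).sup j)
    exact hj _ y (hm' (Finset.le_sup (f := j) (Finset.mem_range.2 (Nat.lt_succ_of_le
      (hb y (hm' (Nat.zero_le _) h1) n)))) h1) h2 rfl
  have key : ∀ n j, ∃ y, C j y ∧ ∀ i, i < n → y.ap i = f i := by
    intro n
    induction n with
    | zero => simpa using hn
    | succ n ih =>
      intro j
      obtain ⟨G, h1, h2⟩ := hf n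
      obtain ⟨y, h3, h4, h5⟩ := h2 (fun j => let ⟨y, a, b⟩ := ih j
        ⟨y, a, fun i hi => (b i hi).trans (h1 i hi).symm⟩) j
      refine ⟨y, h3, fun i hi => ?_⟩
      rcases (Nat.lt_succ_iff.1 hi).eq_or_lt with rfl | hi
      exacts [h5, (h4 i hi).trans (h1 i hi)]
  refine ⟨⟨f, df⟩, fun n => by_contra fun h => ?_⟩
  obtain ⟨m, hm⟩ := isOpen_ba.1 (hc n).isOpen_compl ⟨f, df⟩ h
  obtain ⟨y, h1, h2⟩ := key m n
  exact hm y h2 h1

variable {g : ℕ → ℕ} {Y : Ba M → Prop} (dY : DfF M Y) (cY : IsClosed {y | Y y})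
  (bY : ∀ y, Y y → ∀ i, y.ap i ≤ g i) {h : ℕ → Ba M → ℝ}
  (dh : DfR M fun p : ℕ × Ba M => h p.1 p.2) (ch : ∀ k, Continuous (h k))
include dY cY bY dh ch

theorem no_indep {v : ℕ → Ba M → ℝ} {u : Ba M → ℝ} (dv : DfR M fun p : ℕ × Ba M => v p.1 p.2)
    (cv : ∀ m, Continuous (v m)) (hv : ∀ y, Tendsto (fun m => v m y) atTop (𝓝 (u y)))
    (hu : ∀ y, Y y → ∀ N, ((∀ i, N ≤ i → h i y ≤ 1 / 3) → u y ≤ 5 / 12) ∧
      ((∀ i, N ≤ i → 2 / 3 ≤ h i y) → 7 / 12 ≤ u y))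
    (hi : ∀ (n : ℕ) (S : Finset ℕ), ∃ y, Y y ∧ ∀ i < n,
      (i ∈ S → h i y ≤ 1 / 3) ∧ (i ∉ S → 2 / 3 ≤ h i y)) : False := by
  let E : ℕ × Finset ℕ → Ba M → Prop := fun s y => Y y ∧ ∀ i, i < s.1 →
    (i ∈ s.2 → h i y ≤ 1 / 3) ∧ (i ∉ s.2 → 2 / 3 ≤ h i y)
  have dE : DfF M fun p : (ℕ × Finset ℕ) × Ba M => E p.1 p.2 := by
    simp only [E, all_iff, imp_iff]; fun_prop
  have cE : ∀ {P : ℕ → Prop} (n : ℕ), IsClosed {y | Y y ∧ ∀ i, i < n →
      (P i → h i y ≤ 1 / 3) ∧ (¬ P i → 2 / 3 ≤ h i y)} := fun n => cY.inter (closed_all fun i =>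
    closed_all fun _ => (isClosed_imp isOpen_const (isClosed_le (ch _) continuous_const)).inter
      (isClosed_imp isOpen_const (isClosed_le continuous_const (ch _))))
  let X : ℕ × Finset ℕ → ℕ × Finset ℕ → Prop := fun s t =>
    s.1 ≤ t.1 ∧ ∀ i, i < s.1 → (i ∈ t.2 ↔ i ∈ s.2)
  have hX : ∀ {s t y}, X s t → E t y → E s y := fun hx hy => ⟨hy.1, fun i hi => by
    rw [← hx.2 i hi]; exact hy.2 i (hi.trans_le hx.1)⟩
  have step : ∀ (b : Prop) (Q : ℕ → Ba M → Prop), (DfF M fun p : ℕ × Ba M => Q p.1 p.2) →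
      (∀ m, IsClosed {y | Q m y}) → (∀ y N j, Y y → (∀ i, N ≤ i → (b → h i y ≤ 1 / 3) ∧
        (¬ b → 2 / 3 ≤ h i y)) → ∃ m, j ≤ m ∧ ¬ Q m y) →
      ∀ s j, ∃ t, X s t ∧ ∀ y, E t y → ∃ m, j ≤ m ∧ ¬ Q m y := fun b Q dQ cQ hQ s j => by
    by_contra hn
    push Not at hn
    obtain ⟨y, hy⟩ := nest (g := g) (C := fun N y => (Y y ∧ ∀ i, i < N →
      ((if i < s.1 then i ∈ s.2 else b) → h i y ≤ 1 / 3) ∧
        (¬ (if i < s.1 then i ∈ s.2 else b) → 2 / 3 ≤ h i y)) ∧ ∀ m, j ≤ m → Q m y)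
      (by simp only [all_iff, imp_iff]; fun_prop) (fun n => (cE n).inter
        (closed_all fun m => closed_all fun _ => cQ m))
      (fun n y hy => ⟨⟨hy.1.1, fun i hi => hy.1.2 i (hi.trans n.lt_succ_self)⟩, hy.2⟩)
      (fun y hy => bY y hy.1.1) fun N => by
        obtain ⟨y, h1, h2⟩ := hn (max N s.1, (Finset.range (max N s.1)).filter fun i =>
          if i < s.1 then i ∈ s.2 else b) ⟨le_max_right _ _, fun i hi => by simp [hi]⟩
        refine ⟨y, ⟨h1.1, fun i hi => ?_⟩, h2⟩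
        simpa only [Finset.mem_filter, Finset.mem_range, lt_max_of_lt_left hi, true_and] using
          h1.2 i (lt_max_of_lt_left hi)
    obtain ⟨m, h1, h2⟩ := hQ y s.1 j (hy 0).1.1 fun i hi => by
      simpa only [if_neg (not_lt.2 hi)] using (hy (i + 1)).1.2 i i.lt_succ_self
    exact h2 ((hy 0).2 m h1)
  have ev : ∀ {P : ℕ → Prop}, (∀ᶠ m in atTop, P m) → ∀ j, ∃ m, j ≤ m ∧ P m := fun h j =>
    ((eventually_ge_atTop j).and h).exists
  obtain ⟨f, df, hf⟩ := exists_choice (M := M) (R := fun (p : (ℕ × Finset ℕ) × ℕ) t => X p.1 t ∧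
    ∀ y, E t y → (∃ m, p.2 ≤ m ∧ ¬ 11 / 24 ≤ v m y) ∧ ∃ m, p.2 ≤ m ∧ ¬ v m y ≤ 13 / 24)
    (by simp only [X, all_iff, imp_iff]; fun_prop) fun p => by
    obtain ⟨t, t1, t2⟩ := step True (fun m y => 11 / 24 ≤ v m y) (by fun_prop)
      (fun m => isClosed_le continuous_const (cv m)) (fun y N j hy h1 => ev
        (((hv y).eventually_lt_const (((hu y hy N).1 fun i hi => (h1 i hi).1 trivial).trans_lt
          (by norm_num : (5 / 12 : ℝ) < 11 / 24))).mono fun _ => not_le.2) j) p.1 p.2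
    obtain ⟨r, r1, r2⟩ := step False (fun m y => v m y ≤ 13 / 24) (by fun_prop)
      (fun m => isClosed_le (cv m) continuous_const) (fun y N j hy h1 => ev
        (((hv y).eventually_const_lt ((by norm_num : (13 / 24 : ℝ) < 7 / 12).trans_le
          ((hu y hy N).2 fun i hi => (h1 i hi).2 id))).mono fun _ => not_le.2) j) t p.2
    exact ⟨r, ⟨t1.1.trans r1.1, fun i hi => (r1.2 i (hi.trans_le t1.1)).trans (t1.2 i hi)⟩,
      fun y hy => ⟨t2 y (hX r1 hy), r2 y hy⟩⟩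
  let s : ℕ → ℕ × Finset ℕ := fun n => Nat.rec (0, ∅) (fun j t => f (t, j)) n
  have ds : DfF M s := DfF.natRec (z := fun _ => ((0, ∅) : ℕ × Finset ℕ))
    (s := fun _ j t => f (t, j)) (k := fun k => k) (by fun_prop) (by fun_prop) DfF.id
  obtain ⟨y, hy⟩ := nest (g := g) (C := fun n y => E (s n) y) (by fun_prop) (fun n => cE _)
    (fun n y hy => hX (hf (s n, n)).1 hy) (fun y hy => bY y hy.1) fun n => hi _ _
  have h1 := fun j => (hf (s j, j)).2 y (hy (j + 1))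
  rcases lt_or_ge (u y) (1 / 2) with h2 | h2
  · obtain ⟨N, hN⟩ := eventually_atTop.1 ((hv y).eventually_lt_const h2)
    obtain ⟨m, h3, h4⟩ := (h1 N).2
    linarith [hN m h3]
  · obtain ⟨N, hN⟩ := eventually_atTop.1 ((hv y).eventually_const_lt
      ((by norm_num : (11 / 24 : ℝ) < 1 / 2).trans_le h2))
    obtain ⟨m, h3, h4⟩ := (h1 N).1
    linarith [hN m h3]

variable {O : Type 1} [Srt M O] [Sm M O] [LinearOrder O] [WellFoundedLT O] [ax : Ax M O]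

theorem rank_bound (hl : ∀ k : ℕ → ℕ, DfF M k → ∃ (v : ℕ → Ba M → ℝ) (u : Ba M → ℝ),
      (DfR M fun p : ℕ × Ba M => v p.1 p.2) ∧ (∀ m, Continuous (v m)) ∧
      (∀ y, Tendsto (fun m => v m y) atTop (𝓝 (u y))) ∧
      ∀ y, Y y → ∀ N, ((∀ i, N ≤ i → h (k i) y ≤ 1 / 3) → u y ≤ 5 / 12) ∧
        ((∀ i, N ≤ i → 2 / 3 ≤ h (k i) y) → 7 / 12 ≤ u y))
    {F : O → Ba M → ℝ} (dF : DfR M fun p : O × Ba M => F p.1 p.2)
    (hF : ∀ α (S : Finset (Ba M)), (∀ y ∈ S, Y y) → ∃ k, ∀ y ∈ S, |F α y - h k y| < 1 / 3) :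
    ∃ (ρ : O) (l : Ba M → O → O), (DfF M fun p : Ba M × O => l p.1 p.2) ∧
      (∀ y α, Y y → l y α ≤ ρ) ∧ ∀ y α, Y y → ∃ m,
        (∀ y', Y y' → (∀ i < m, y'.ap i = y.ap i) → l y' α ≤ l y α) ∧ ∃ s, ∀ y', Y y' →
          (∀ i < m, y'.ap i = y.ap i) → l y' α = l y α → Side 0 1 s (F α y') := by
  have : Nonempty (PS M (O × Ba M)) := ⟨PS.of M fun _ => True⟩
  have := ax.ne
  let D : PS M (O × Ba M) → O → Ba M → Prop := fun P α y =>
    y ∈ closure {w | (α, w) ∈ P ∧ F α w ≤ 0} ∧ y ∈ closure {w | (α, w) ∈ P ∧ 1 ≤ F α w}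
  have dD : DfF M fun p : (PS M (O × Ba M) × O) × Ba M => D p.1.1 p.1.2 p.2 := by
    simp only [D]; fun_prop
  obtain ⟨L, dL, hL⟩ := (mwo_of ax.dlt).exists_rec (Y := PS M (O × Ba M))
    (R := fun ξ G S => ∀ p, p ∈ S ↔ Y p.2 ∧ ∀ η, η < ξ → D (G.ap η) p.1 p.2)
    (by simp only [D, all_iff, imp_iff]; fun_prop) fun ξ G =>
      ⟨_, fun p => PS.mem_of (by simp only [D, all_iff, imp_iff]; fun_prop)⟩
  replace hL : ∀ ξ α y, (α, y) ∈ L ξ ↔ Y y ∧ ∀ η, η < ξ → D (L η) α y := fun ξ α y => by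
    obtain ⟨G, h1, h2⟩ := hL ξ
    rw [h2]
    exact and_congr_right' (forall₂_congr fun η hη => by rw [h1 η hη])
  let Pt : Finset ℕ → Finset ℕ → Ba M → Prop := fun t S y =>
    ∀ k ∈ t, (k ∈ S → h k y < 1 / 3) ∧ (k ∉ S → 2 / 3 < h k y)
  have oP : ∀ t S, IsOpen {y | Pt t S y} := fun t S => by
    simp only [Pt, ofPred_forall]
    refine isOpen_biInter_finset fun k _ => ?_
    by_cases hk : k ∈ S
    · simpa [hk] using isOpen_lt (ch k) continuous_const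
    · simpa [hk] using isOpen_lt continuous_const (ch k)
  let R : O → Finset ℕ → Prop := fun ξ t => ∃ α, ∀ S, ∃ y, (α, y) ∈ L ξ ∧ Pt t S y
  have dR : DfF M fun p : O × Finset ℕ => R p.1 p.2 := by
    simp only [R, Pt, all_iff, imp_iff]; fun_prop
  have step : ∀ ξ η t, η < ξ → R ξ t → ∃ d, d ∉ t ∧ R η (insert d t) := by
    rintro ξ η t hlt ⟨α, ht⟩
    have h0 : ∀ S, ∃ y, ((α, y) ∈ L η ∧ F α y ≤ 0) ∧ Pt t S y := fun S => by
      obtain ⟨y, hy, hp⟩ := ht S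
      obtain ⟨w, hw1, hw2⟩ := mem_closure_iff.1 (((hL _ _ _).1 hy).2 η hlt).1 _ (oP t S) hp
      exact ⟨w, hw2, hw1⟩
    have h1 : ∀ S, ∃ y, ((α, y) ∈ L η ∧ 1 ≤ F α y) ∧ Pt t S y := fun S => by
      obtain ⟨y, hy, hp⟩ := ht S
      obtain ⟨w, hw1, hw2⟩ := mem_closure_iff.1 (((hL _ _ _).1 hy).2 η hlt).2 _ (oP t S) hp
      exact ⟨w, hw2, hw1⟩
    choose y0 a0 b0 using h0
    choose y1 a1 b1 using h1
    obtain ⟨d, hd⟩ := hF α (t.powerset.image y0 ∪ t.powerset.image y1) fun y hy => by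
      rcases Finset.mem_union.1 hy with hy | hy <;> obtain ⟨S, -, rfl⟩ := Finset.mem_image.1 hy
      exacts [((hL _ _ _).1 (a0 S).1).1, ((hL _ _ _).1 (a1 S).1).1]
    have d0 : ∀ S ⊆ t, h d (y0 S) < 1 / 3 := fun S hS => by
      have := abs_lt.1 (hd _ (Finset.mem_union_left _ (Finset.mem_image_of_mem _
        (Finset.mem_powerset.2 hS))))
      linarith [(a0 S).2]
    have d1 : ∀ S ⊆ t, 2 / 3 < h d (y1 S) := fun S hS => by
      have := abs_lt.1 (hd _ (Finset.mem_union_right _ (Finset.mem_image_of_mem _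
        (Finset.mem_powerset.2 hS))))
      linarith [(a1 S).2]
    refine ⟨d, fun hh => ?_, α, fun S => ?_⟩
    · linarith [(b0 ∅ d hh).2 (Finset.notMem_empty d), d0 ∅ (Finset.empty_subset _)]
    by_cases hS : d ∈ S
    · refine ⟨y0 (S ∩ t), (a0 _).1, fun k hk => ?_⟩
      rcases Finset.mem_insert.1 hk with rfl | hk
      · exact ⟨fun _ => d0 _ Finset.inter_subset_right, fun hh => absurd hS hh⟩
      · simpa [hk] using b0 (S ∩ t) k hk
    · refine ⟨y1 (S ∩ t), (a1 _).1, fun k hk => ?_⟩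
      rcases Finset.mem_insert.1 hk with rfl | hk
      · exact ⟨fun hh => absurd hh hS, fun _ => d1 _ Finset.inter_subset_right⟩
      · simpa [hk] using b1 (S ∩ t) k hk
  obtain ⟨ρ, hρ⟩ := bdd (M := M) (R := fun (t : Finset ℕ) ξ => R ξ t → ∀ η, R η t)
    (by simp only [all_iff, imp_iff]; fun_prop) fun t => by
      by_cases h : ∀ η, R η t
      · exact ⟨Classical.arbitrary O, fun _ => h⟩
      · exact (not_forall.1 h).imp fun η hη h' => absurd h' hη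
  have hρ' : ¬ R ρ ∅ := fun h0 => by
    obtain ⟨s, ds, hs⟩ := exists_choice' (M := M) (R := fun (t : Finset ℕ) (p : ℕ × Finset ℕ) =>
      p.1 ∉ t ∧ (∀ k, k ∈ p.2 ↔ k = p.1 ∨ k ∈ t) ∧ R ρ p.2) (by simp only [all_iff]; fun_prop)
    replace hs : ∀ t, R ρ t → (s t).1 ∉ t ∧ (∀ k, k ∈ (s t).2 ↔ k = (s t).1 ∨ k ∈ t) ∧
        R ρ (s t).2 := fun t ht => by
      obtain ⟨ξ, h1, h2⟩ := hρ t
      obtain ⟨ρ', h3, -⟩ := unb_top (M := M) ρ
      obtain ⟨d, h4, h5⟩ := step ρ' ρ t h3 (h2 (ht.imp fun α hα S => (hα S).imp fun y hy =>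
        ⟨(hL _ _ _).2 (((hL _ _ _).1 hy.1).imp_right fun h η hη => h η (hη.trans h1)), hy.2⟩) ρ')
      exact hs t (d, insert d t) ⟨h4, fun k => Finset.mem_insert, h5⟩
    let t : ℕ → Finset ℕ := fun n => (fun t => (s t).2)^[n] ∅
    have dt : DfF M t := DfF.iterate (by fun_prop) _
    have ht : ∀ n, t (n + 1) = (s (t n)).2 := fun n => iterate_succ_apply' _ _ _
    have h1 : ∀ n, R ρ (t n) := fun n => by
      induction n with
      | zero => exact h0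
      | succ n ih => exact ht n ▸ (hs _ ih).2.2
    have h2 : ∀ i n, i < n → (s (t i)).1 ∈ t n := fun i n hi => by
      induction hi with
      | refl => exact ht i ▸ ((hs _ (h1 i)).2.1 _).2 (Or.inl rfl)
      | step _ ih => exact ht _ ▸ ((hs _ (h1 _)).2.1 _).2 (Or.inr ih)
    have h3 : Injective fun i => (s (t i)).1 := fun i j e => le_antisymm
      (not_lt.1 fun h => (hs _ (h1 i)).1 ((show (s (t i)).1 = (s (t j)).1 from e) ▸ h2 j i h))
      (not_lt.1 fun h => (hs _ (h1 j)).1 ((show (s (t i)).1 = (s (t j)).1 from e) ▸ h2 i j h))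
    obtain ⟨v, u, dv, cv, hv, hu⟩ := hl (fun i => (s (t i)).1) (by fun_prop)
    refine no_indep dY cY bY (h := fun i => h (s (t i)).1) (by fun_prop) (fun _ => ch _) dv cv hv hu
      fun n S => ?_
    obtain ⟨α, hα⟩ := h1 n
    obtain ⟨y, h4, h5⟩ := hα (S.image fun i => (s (t i)).1)
    refine ⟨y, ((hL _ _ _).1 h4).1, fun i hi => ?_⟩
    have h6 := h5 _ (h2 i n hi)
    rw [h3.mem_finset_image] at h6
    exact ⟨fun h => (h6.1 h).le, fun h => (h6.2 h).le⟩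
  obtain ⟨l, dl, hl⟩ := exists_choice' (M := M) (R := fun (p : Ba M × O) ξ =>
    ¬ D (L ξ) p.2 p.1 ∧ ∀ η, η < ξ → D (L η) p.2 p.1) (by simp only [D, all_iff, imp_iff]; fun_prop)
  have hex : ∀ y α, Y y → ∃ η < ρ, ¬ D (L η) α y := fun y α hy => by
    by_contra hn
    push Not at hn
    exact hρ' ⟨α, fun S => ⟨y, (hL _ _ _).2 ⟨hy, hn⟩, by simp [Pt]⟩⟩
  replace hl : ∀ y α, Y y → ¬ D (L (l (y, α))) α y ∧ ∀ η, η < l (y, α) → D (L η) α y :=
    fun y α hy => by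
      obtain ⟨η, h1, h2⟩ := (wellFounded_lt (α := O)).has_min {η | ¬ D (L η) α y}
        ((hex y α hy).imp fun _ h => h.2)
      exact hl (y, α) η ⟨h1, fun ζ hζ => not_not.1 fun h => h2 ζ h hζ⟩
  have l2 : ∀ y α η, Y y → ¬ D (L η) α y → l (y, α) ≤ η := fun y α η hy hh =>
    not_lt.1 fun h => hh ((hl y α hy).2 η h)
  have l3 : ∀ y α, Y y → (α, y) ∈ L (l (y, α)) := fun y α hy => (hL _ _ _).2 ⟨hy, (hl y α hy).2⟩
  refine ⟨ρ, fun y α => l (y, α), dl, fun y α hy => ?_, fun y α hy => ?_⟩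
  · obtain ⟨η, h1, h2⟩ := hex y α hy
    exact (l2 y α η hy h2).trans h1.le
  · rcases not_and_or.1 (hl y α hy).1 with hn | hn <;>
      obtain ⟨m, hm⟩ := isOpen_ba.1 isClosed_closure.isOpen_compl y hn
    · refine ⟨m, fun y' h1 h2 => l2 _ _ _ h1 fun hh => hm y' h2 hh.1, true, fun y' h1 h2 e => ?_⟩
      simpa [Side] using not_le.1 fun hh => hm y' h2 (subset_closure
        ⟨(show l (y', α) = l (y, α) from e) ▸ l3 y' α h1, hh⟩)
    · refine ⟨m, fun y' h1 h2 => l2 _ _ _ h1 fun hh => hm y' h2 hh.2, false, fun y' h1 h2 e => ?_⟩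
      simpa [Side] using not_le.1 fun hh => hm y' h2 (subset_closure
        ⟨(show l (y', α) = l (y, α) from e) ▸ l3 y' α h1, hh⟩)

end Pool.Agent.MP_b60a07_lc.H92

end MrgPart1

-- ======== part 2: formerly Pool.Agent.MP_b60a07_lc.h92.Inner
section MrgPart2

/-! The two to one map inside the model. -/

namespace Pool.Agent.MP_b60a07_lc.H92

open Function Set Filter Topology Pool.Agent.ZF92
open scoped Classical

set_option linter.unusedSectionVars false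

universe u v w

variable {M : Set ZFSet.{0}} [hM : Fact (ZFC M)]

abbrev DD := Finset (Finset (ℕ × ℚ) × ℚ)

noncomputable def th (D : DD) (v : ℕ → ℝ) : ℝ :=
  D.fold min 1 fun d => d.1.fold max 0 (fun z => ((1 / d.2 : ℚ) : ℝ) * |v z.1 - z.2|) - 1

theorem th_cont (D : DD) : Continuous (th D) :=
  continuous_fold_min _ continuous_const fun _ =>
    (continuous_fold_max _ continuous_const fun _ => by fun_prop).sub continuous_const

@[fun_prop]
theorem df_th {X : Type u} [Srt M X] {D : X → DD} {v : X → ℕ → ℝ} (dD : DfF M D)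
    (dv : DfR M fun p : X × ℕ => v p.1 p.2) : DfR M fun x => th (D x) fun l => v x l :=
  DfF.congr (P := fun p : X × ℚ => p.2 < 1 ∧ ∀ d ∈ D p.1, p.2 + 1 < 0 ∨
    ∃ z ∈ d.1, ((p.2 + 1 : ℚ) : ℝ) < ((1 / d.2 : ℚ) : ℝ) * |v p.1 z.1 - z.2|)
    (by simp only [all_iff, imp_iff]; fun_prop) fun p => by
      simp only [th, Finset.lt_fold_min, lt_sub_iff_add_lt, Finset.lt_fold_max]
      norm_cast

theorem th_le {D : DD} {v : ℕ → ℝ} (h : ∃ d ∈ D, 0 < d.2 ∧ ∀ z ∈ d.1, |v z.1 - z.2| < d.2) :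
    th D v ≤ 0 := by
  obtain ⟨d, h1, h2, h3⟩ := h
  refine (Finset.fold_min_le _).2 (Or.inr ⟨d, h1, sub_nonpos.2 ((Finset.fold_max_le _).2
    ⟨zero_le_one, fun z hz => ?_⟩)⟩)
  push_cast
  rw [one_div_mul_eq_div, div_le_one (by exact_mod_cast h2)]
  exact (h3 z hz).le

theorem le_th {D : DD} {v : ℕ → ℝ}
    (h : ∀ d ∈ D, 0 < d.2 ∧ ∃ z ∈ d.1, ((2 * d.2 : ℚ) : ℝ) ≤ |v z.1 - z.2|) : 1 ≤ th D v := by
  refine (Finset.le_fold_min _).2 ⟨le_rfl, fun d hd => ?_⟩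
  obtain ⟨h2, z, h3, h4⟩ := h d hd
  refine le_sub_iff_add_le.2 ((Finset.le_fold_max _).2 (Or.inr ⟨z, h3, ?_⟩))
  push_cast at h4 ⊢
  rw [one_div_mul_eq_div, le_div_iff₀ (by exact_mod_cast h2)]
  linarith

def col (w : Ba M) (l : ℕ) : Ba M := ⟨fun n => w.ap (Nat.pair l n), by fun_prop⟩

@[fun_prop]
theorem df_col {X : Type u} [Srt M X] {w : X → Ba M} {l : X → ℕ} (dw : DfF M w) (dl : DfF M l) :
    DfF M fun x => col (w x) (l x) :=
  DfF.of_rel (P := fun x y => All fun n => (w x).ap (Nat.pair (l x) n) = y.ap n) (by fun_prop)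
    fun _ _ => ⟨fun e _ => e ▸ rfl, fun h => Fn.ext h⟩

theorem col_cont (l : ℕ) : Continuous fun w : Ba M => col w l :=
  continuous_induced_rng.2 (continuous_pi fun _ => ba_cont _)

instance : Nonempty (Ba M) := ⟨⟨fun n => n, DfF.id⟩⟩

theorem exists_col {T : Set (Ba M)} (hT : T.Finite) :
    ∃ (w : Ba M) (c : Ba M → ℕ), ∀ x ∈ T, col w (c x) = x := by
  obtain ⟨s, ds, hs⟩ := (Ctb.of_finite (M := M) (P := fun x => x ∈ T) hT).exists_enum
    (DfF.mem_finite hT)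
  choose! c hc using hs
  refine ⟨⟨fun n => (s n.unpair.1).ap n.unpair.2, DfF.of_rel
    (P := fun n a => ∃ l m, n = Nat.pair l m ∧ (s l).ap m = a) (by fun_prop) fun n a =>
      ⟨fun e => ⟨_, _, (Nat.pair_unpair n).symm, e⟩, by rintro ⟨l, m, rfl, e⟩; simpa using e⟩⟩,
    c, fun x hx => Fn.ext fun n => ?_⟩
  simp [col, Fn.ap, hc x hx]

theorem tend_iff {a : ℕ → ℝ} {r : ℝ} : Tendsto a atTop (𝓝 r) ↔
    ∀ ε : ℚ, 0 < ε → ∃ N, ∀ n, N ≤ n → |a n - r| < ε := by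
  rw [Metric.tendsto_atTop]
  refine ⟨fun h ε hε => h ε (by exact_mod_cast hε), fun h ε hε => ?_⟩
  obtain ⟨q, h1, h2⟩ := exists_rat_btwn hε
  exact (h q (by exact_mod_cast h1)).imp fun N hN n hn => (hN n hn).trans h2

variable {K : Type w} [Srt M K] [Sm M K] [TopologicalSpace K] [DTop M K]
variable {L : Type u} [Srt M L] [Sm M L] [TopologicalSpace L] [DTop M L]

theorem img_closed [T2Space K] (hL : MCpt M L) {φ : L → K} (dφ : DfF M φ) (cφ : Continuous φ)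
    {C : L → Prop} (dC : DfF M C) (hC : IsClosed {f | C f}) : IsClosed (φ '' {f | C f}) := by
  refine isOpen_compl_iff.1 (isOpen_iff_forall_mem_open.2 fun p hp => ?_)
  obtain ⟨s, hs⟩ := hL.subcover dC hC (U := fun (U : PS M K) f =>
    (IsOpen (U : Set K) ∧ p ∉ closure (U : Set K)) ∧ φ f ∈ U) (by fun_prop)
    (fun U => open_and fun h => h.1.preimage cφ) fun f hf => by
      obtain ⟨U, V, h1, h2, h3, h4, h5⟩ := t2_separation (show φ f ≠ p from fun e => hp ⟨f, hf, e⟩)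
      obtain ⟨A, h6, h7, h8⟩ := exists_ps_nhds (M := M) h1 h3
      exact ⟨A, ⟨h6, fun h => disjoint_left.1 (h5.closure_left h2) (closure_mono h8 h) h4⟩, h7⟩
  refine ⟨⋂ U ∈ s.filter fun U : PS M K => p ∉ closure (U : Set K), (closure (U : Set K))ᶜ, ?_,
    isOpen_biInter_finset fun _ _ => isClosed_closure.isOpen_compl,
    mem_iInter₂.2 fun U hU => (Finset.mem_filter.1 hU).2⟩
  rintro _ h1 ⟨f, hf, rfl⟩
  obtain ⟨U, h2, h3, h4⟩ := hs f hf
  exact mem_iInter₂.1 h1 U (Finset.mem_filter.2 ⟨h2, h3.2⟩) (subset_closure h4)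

variable {e : L → Ba M → ℝ} (de : DfR M fun p : L × Ba M => e p.1 p.2)
  (ce : ∀ x, Continuous fun f => e f x)
  (ho : ∀ s : Set L, IsOpen s → ∀ f ∈ s, ∃ F : Finset (Ba M), ∃ ε : ℚ, 0 < ε ∧
    ∀ g, (∀ x ∈ F, |e f x - e g x| < ε) → g ∈ s) (hL : MCpt M L)
include de ce ho hL

theorem par {c : L → ℝ} (dc : DfR M c) (cc : Continuous c) : ∃ (D : DD) (w : Ba M), ∀ f,
    (c f ≤ 1 / 3 → (th D fun l => e f (col w l)) ≤ 0) ∧
      (2 / 3 ≤ c f → 1 ≤ th D fun l => e f (col w l)) := by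
  let Ok : Finset (Ba M × ℚ) × ℚ → Prop := fun d => 0 < d.2 ∧
    ∀ g, (∀ z ∈ d.1, |e g z.1 - z.2| < ((2 * d.2 : ℚ) : ℝ)) → c g < 2 / 3
  obtain ⟨s, hs⟩ := hL.subcover (F := fun f => c f ≤ 1 / 3) (by fun_prop)
    (isClosed_le cc continuous_const) (U := fun d f => Ok d ∧ ∀ z ∈ d.1, |e f z.1 - z.2| < d.2)
    (by simp only [Ok, all_iff, imp_iff]; fun_prop) (fun d => open_and fun _ => by
      simp only [ofPred_forall]
      exact isOpen_biInter_finset fun z _ => isOpen_lt (by have := ce z.1; fun_prop)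
        continuous_const) fun f hf => by
      obtain ⟨F, ε, hε, h⟩ := ho _ (isOpen_lt cc continuous_const) f
        (show c f < 2 / 3 by linarith)
      have hε' : (0 : ℝ) < ε / 3 := by positivity
      choose q hq using fun x => exists_rat_near (e f x) hε'
      refine ⟨(F.image fun x => (x, q x), ε / 3), ⟨by positivity, fun g hg => h g fun x hx => ?_⟩,
        Finset.forall_mem_image.2 fun x _ => by exact_mod_cast hq x⟩
      have h1 := abs_lt.1 (hg _ (Finset.mem_image_of_mem _ hx))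
      have h2 := abs_lt.1 (hq x)
      push_cast at h1
      exact abs_lt.2 ⟨by linarith, by linarith⟩
  obtain ⟨w, k, hk⟩ := exists_col (s.biUnion fun d => d.1.image Prod.fst).finite_toSet
  replace hk : ∀ d ∈ s, ∀ z ∈ d.1, col w (k z.1) = z.1 := fun d hd z hz =>
    hk _ (Finset.mem_biUnion.2 ⟨d, hd, Finset.mem_image_of_mem _ hz⟩)
  refine ⟨(s.filter Ok).image fun d => (d.1.image fun z => (k z.1, z.2), d.2), w,
    fun f => ⟨fun h => th_le ?_, fun h => le_th (Finset.forall_mem_image.2 fun d hd => ?_)⟩⟩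
  · obtain ⟨d, h1, h2, h3⟩ := hs f h
    exact ⟨_, Finset.mem_image_of_mem _ (Finset.mem_filter.2 ⟨h1, h2⟩), h2.1,
      Finset.forall_mem_image.2 fun z hz => by simpa only [hk d h1 z hz] using h3 z hz⟩
  · obtain ⟨h1, h2, h3⟩ := Finset.mem_filter.1 hd
    have h4 := mt (h3 f) (not_lt.2 h)
    push Not at h4
    obtain ⟨z, h5, h6⟩ := h4
    exact ⟨h2, _, Finset.mem_image_of_mem _ h5, by simpa only [hk d h1 z h5] using h6⟩

variable {O : Type 1} [Srt M O] [Sm M O] [LinearOrder O] [WellFoundedLT O] [ax : Ax M O]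

theorem can_univ [T2Space K] (hB : ∀ f, ∃ u : ℕ → Ba M → ℝ,
      (DfR M fun p : ℕ × Ba M => u p.1 p.2) ∧ (∀ n, Continuous (u n)) ∧
      ∀ x, Tendsto (fun n => u n x) atTop (𝓝 (e f x)))
    {φ : L → K} (dφ : DfF M φ) (cφ : Continuous φ) (sφ : Surjective φ) (hK : MCpt M K)
    (hN : MNorm M K) (hH : HL M O K) :
    Can M O (Cp.ev : Cp M K → K → ℝ) id (1 / 4) (3 / 4) (fun _ => True) fun _ => True := by
  intro z dz hz I dI hI β α dβ dα _ _
  have := ax.ne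
  obtain ⟨e0, d0, he0⟩ := separable hK hN hH dα
  obtain ⟨d, dd, hd⟩ := exists_choice (M := M) (R := fun (n : ℕ) f => φ f = e0 n) (by fun_prop)
    fun n => sφ _
  obtain ⟨f, df, hf⟩ := exists_choice (M := M)
    (R := fun i f => f ∈ closure {g | ∃ n, d n = g} ∧ φ f = α i) (by fun_prop) fun i =>
      closure_minimal (by rintro _ ⟨n, rfl⟩; exact ⟨d n, subset_closure ⟨n, rfl⟩, hd n⟩)
        (img_closed hL dφ cφ (C := fun f => f ∈ closure {g | ∃ n, d n = g}) (by fun_prop)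
          isClosed_closure) (he0 i)
  let P : DD → O → Ba M → Prop := fun D i w => ∀ f,
    ((β i).ev (φ f) ≤ 1 / 3 → (th D fun l => e f (col w l)) ≤ 0) ∧
      (2 / 3 ≤ (β i).ev (φ f) → 1 ≤ th D fun l => e f (col w l))
  have dP : DfF M fun p : DD × O × Ba M => P p.1 p.2.1 p.2.2 := by
    simp only [P, all_iff, imp_iff]; fun_prop
  obtain ⟨D, u1⟩ := hI.fiber (M := M) dI (R := fun i D => ∃ w, P D i w) (by fun_prop)
    fun i _ => par de ce ho hL (by fun_prop) ((β i).continuous.comp cφ)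
  obtain ⟨w, dw, hw⟩ := exists_choice' (M := M) (R := P D) (by fun_prop)
  let G : L → Ba M → ℝ := fun f y => th D fun l => e f (col y l)
  have dG : DfR M fun p : L × Ba M => G p.1 p.2 := by simp only [G]; fun_prop
  have cG : ∀ y, Continuous fun f => G f y := fun y =>
    (th_cont D).comp (continuous_pi fun _ => ce _)
  have cH : ∀ {u : Ba M → ℝ}, Continuous u → Continuous fun y => th D fun l => u (col y l) :=
    fun h => (th_cont D).comp (continuous_pi fun l => h.comp (col_cont l))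
  have tG : ∀ {u : ℕ → Ba M → ℝ} {f}, (∀ x, Tendsto (fun n => u n x) atTop (𝓝 (e f x))) → ∀ y,
      Tendsto (fun n => th D fun l => u n (col y l)) atTop (𝓝 (G f y)) := fun h y =>
    ((th_cont D).tendsto _).comp (tendsto_pi_nhds.2 fun l => h _)
  obtain ⟨U, dU, hU⟩ := exists_choice (M := M)
    (R := fun (k : ℕ) (U : Fn M ℕ (Cp M (Ba M))) => ∀ x, ∀ ε : ℚ, 0 < ε → ∃ N, ∀ n, N ≤ n →
      |(U.ap n).ev x - e (d k) x| < ε) (by simp only [all_iff, imp_iff]; fun_prop) fun k => by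
      obtain ⟨u, h1, h2, h3⟩ := hB (d k)
      obtain ⟨F, h4, h5⟩ := exists_cp_lam h1 h2
      exact ⟨⟨F, h4⟩, fun x => by simpa only [Fn.ap, h5] using tend_iff.1 (h3 x)⟩
  let H : ℕ → ℕ → Ba M → ℝ := fun k n y => th D fun l => ((U k).ap n).ev (col y l)
  have dH : DfR M fun p : ℕ × ℕ × Ba M => H p.1 p.2.1 p.2.2 := by simp only [H]; fun_prop
  have cH' : ∀ k n, Continuous (H k n) := fun k n => cH ((U k).ap n).continuous
  have tH : ∀ k y, Tendsto (fun n => H k n y) atTop (𝓝 (G (d k) y)) := fun k =>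
    tG fun x => tend_iff.2 (hU k x)
  obtain ⟨μ, dμ, hμ⟩ := exists_choice (M := M) (R := fun (p : O × ℕ) N => ∀ n, N ≤ n →
    |H p.2 n (w p.1) - G (d p.2) (w p.1)| < (1 / 24 : ℚ))
    (by simp only [all_iff, imp_iff]; fun_prop) fun p => tend_iff.1 (tH _ _) _ (by norm_num)
  obtain ⟨g0, dg0, u2⟩ := bounded (M := M) (w := fun i n => (w i).ap n) (by fun_prop)
    (by fun_prop) u1
  obtain ⟨g1, dg1, u3⟩ := bounded (M := M) (w := fun i k => μ (i, k)) (by fun_prop)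
    (by simp only [all_iff]; fun_prop) u2
  let Y : Ba M → Prop := fun y => (∀ n, y.ap n ≤ g0 n) ∧
    ∀ k n, g1 k ≤ n → |H k (g1 k) y - H k n y| ≤ 1 / 12
  have hY : ∀ y, Y y → ∀ k, |H k (g1 k) y - G (d k) y| ≤ 1 / 12 := fun y hy k =>
    le_of_tendsto ((tH k y).const_sub _).abs (eventually_atTop.2 ⟨g1 k, hy.2 k⟩)
  obtain ⟨ρ, l, dl, hρ, hl⟩ := rank_bound (O := O) (g := g0) (Y := Y)
    (by simp only [Y, all_iff, imp_iff]; fun_prop)
    ((closed_all fun n => isClosed_le (ba_cont n) continuous_const).inter (closed_all fun k =>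
      closed_all fun n => closed_all fun _ => isClosed_le ((cH' _ _).sub (cH' _ _)).abs
        continuous_const)) (fun y hy => hy.1) (h := fun k => H k (g1 k)) (by fun_prop)
    (fun _ => cH' _ _) (fun k dk => by
      obtain ⟨f0, h0⟩ := hL.exists_cluster (u := fun i => d (k i)) (by fun_prop)
      obtain ⟨u, h1, h2, h3⟩ := hB f0
      refine ⟨fun m y => th D fun l => u m (col y l), G f0, by fun_prop, fun m => cH (h2 m), tG h3,
        fun y hy N => ⟨fun h => closure_minimal ?_ (isClosed_le (cG y) continuous_const) (h0 N),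
          fun h => closure_minimal ?_ (isClosed_le continuous_const (cG y)) (h0 N)⟩⟩ <;>
        rintro _ ⟨i, hi, rfl⟩ <;> have h4 := abs_le.1 (hY y hy (k i)) <;>
        have h5 := h i hi <;> simp only [mem_ofPred_eq] <;> linarith)
    (F := fun i => G (f i)) (by fun_prop) fun i S hS => by
      obtain ⟨_, h1, k, rfl⟩ := mem_closure_iff.1 (hf i).1
        (⋂ y ∈ S, {g | |G (f i) y - G g y| < 1 / 4}) (isOpen_biInter_finset fun y _ =>
          isOpen_lt (continuous_const.sub (cG y)).abs continuous_const)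
        (mem_iInter₂.2 fun y _ => by simp)
      refine ⟨k, fun y hy => ?_⟩
      have h2 := abs_lt.1 (show |G (f i) y - G (d k) y| < 1 / 4 from mem_iInter₂.1 h1 y hy)
      have h3 := abs_le.1 (hY y (hS y hy) k)
      exact abs_lt.2 ⟨by linarith, by linarith⟩
  set I2 := fun i => ((I i ∧ ∃ w, P D i w) ∧ ∀ n, (w i).ap n ≤ g0 n) ∧ ∀ k, μ (i, k) ≤ g1 k
  have dI2 : DfF M I2 := by simp only [I2, all_iff]; fun_prop
  have wY : ∀ i, I2 i → Y (w i) := fun i hi => ⟨hi.1.2, fun k n hn => by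
    have h1 := abs_lt.1 (hμ (i, k) _ (hi.2 k))
    have h2 := abs_lt.1 (hμ (i, k) n ((hi.2 k).trans hn))
    push_cast at h1 h2
    exact abs_le.2 ⟨by linarith, by linarith⟩⟩
  obtain ⟨J, dJ, k1, hJ⟩ := ind (g := fun i => (β i).ev) (by fun_prop) (fun i => (β i).continuous)
    dα hK hH (a := 1 / 3) (b := 2 / 3) (B0 := I2)
    (𝒰 := fun (t : Finset (ℕ × ℕ)) i => I2 i ∧ ∀ z ∈ t, (w i).ap z.1 = z.2)
    (by simp only [all_iff, imp_iff]; fun_prop) (fun _ _ h => h.1) (l := fun i j => l (w i) j)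
    (by fun_prop) (fun i j hi => by
      obtain ⟨m, h1, s, h2⟩ := hl (w i) j (wY i hi)
      have h3 : ∀ i', (∀ z ∈ (Finset.range m).image fun n => (n, (w i).ap n),
          (w i').ap z.1 = z.2) → ∀ n < m, (w i').ap n = (w i).ap n := fun i' h n hn =>
        h _ (Finset.mem_image_of_mem _ (Finset.mem_range.2 hn))
      refine ⟨(Finset.range m).image fun n => (n, (w i).ap n),
        ⟨hi, Finset.forall_mem_image.2 fun _ _ => rfl⟩, fun i' h => h1 _ (wY _ h.1) (h3 _ h.2), s,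
        fun i' h e => ?_⟩
      have h4 := h2 _ (wY _ h.1) (h3 _ h.2) e
      obtain ⟨w', h5⟩ := h.1.1.1.2
      have h6 := hw _ _ h5 (f j)
      rw [(hf j).2] at h6
      cases s <;> simp only [Side] at h4 ⊢ <;> push_cast at h4 ⊢
      exacts [not_le.1 fun hh => h4.not_ge (h6.2 hh), not_le.1 fun hh => h4.not_ge (h6.1 hh)])
    ρ I2 (fun _ => True) (fun _ h => h) (fun i j hi _ => hρ _ _ (wY i hi)) (1 / 4) (by norm_num)
    (3 / 4) (by norm_num) z dz hz I2 dI2 u3 id id DfF.id DfF.id (fun _ h => h) fun _ _ => trivial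
  exact ⟨J, dJ, fun i hi => (k1 i hi).1.1.1, hJ⟩

omit de ce ho hL in
theorem metr_of_sep (hY : MCpt M L) {u : ℕ → Cp M L} (du : DfF M u)
    (hu : ∀ y z, y ≠ z → ∃ n, (u n).ev y ≠ (u n).ev z) : MMetr M L := by
  let t : L → L → ℕ → ℝ := fun y z n => min ((1 / (n + 1) : ℚ) : ℝ) |(u n).ev y - (u n).ev z|
  have hpos : ∀ n : ℕ, (0 : ℝ) < ((1 / (n + 1) : ℚ) : ℝ) := fun n => by positivity
  have hbd : ∀ y z, BddAbove (range (t y z)) := fun y z => ⟨1, by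
    rintro _ ⟨n, rfl⟩
    refine (min_le_left _ _).trans ?_
    push_cast
    rw [div_le_one (by positivity)]
    linarith [Nat.cast_nonneg (α := ℝ) n]⟩
  have h0 : ∀ y z n, 0 ≤ t y z n := fun y z n => le_min (hpos n).le (abs_nonneg _)
  have hle : ∀ y z n, t y z n ≤ ⨆ n, t y z n := fun y z n => le_ciSup (hbd y z) n
  refine ⟨fun y z => ⨆ n, t y z n, DfR.iSup (F := fun (p : L × L) n => t p.1 p.2 n)
    (by simp only [t]; fun_prop) fun p => hbd _ _, fun y z => ⟨fun h => ?_, ?_⟩,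
    fun y z => by simp only [t, abs_sub_comm], fun x y z => ciSup_le fun n => ?_,
    fun V => ⟨fun hV y hy => ?_, fun h => isOpen_iff_forall_mem_open.2 fun y hy => ?_⟩⟩
  · by_contra hne
    obtain ⟨n, hn⟩ := hu y z hne
    exact absurd (h ▸ hle y z n) (not_le.2 (lt_min (hpos n) (abs_pos.2 (sub_ne_zero.2 hn))))
  · rintro rfl
    simp only [t, sub_self, abs_zero, min_eq_right (hpos _).le, ciSup_const]
  · refine le_trans ?_ (add_le_add (hle x y n) (hle y z n))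
    have h1 := abs_sub_le ((u n).ev x) ((u n).ev y) ((u n).ev z)
    have h2 := abs_nonneg ((u n).ev x - (u n).ev y)
    have h3 := abs_nonneg ((u n).ev y - (u n).ev z)
    have h4 := hpos n
    simp only [t, min_def]
    split_ifs <;> linarith
  · obtain ⟨s, hs⟩ := hY.subcover (F := fun z => z ∉ V) (by fun_prop) hV.isClosed_compl
      (U := fun (k : ℕ) z => ∃ n, ((1 / (k + 1) : ℚ) : ℝ) < t y z n)
      (by simp only [t]; fun_prop) (fun k => by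
        rw [ofPred_exists]
        exact isOpen_iUnion fun n => isOpen_lt continuous_const
          (by have := (u n).continuous; simp only [t]; fun_prop)) fun z hz => by
        obtain ⟨n, hn⟩ := hu y z fun e => hz (e ▸ hy)
        obtain ⟨k, hk⟩ := exists_nat_one_div_lt (lt_min (hpos n) (abs_pos.2 (sub_ne_zero.2 hn)))
        exact ⟨k, n, by push_cast at hk ⊢; simpa only [t, Rat.cast_div, Rat.cast_one, Rat.cast_add,
          Rat.cast_natCast] using hk⟩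
    refine ⟨1 / ((s.sup id : ℕ) + 1), by positivity, fun z hz => by_contra fun hn => ?_⟩
    obtain ⟨k, hk, n, h⟩ := hs z hn
    refine absurd (h.trans_le ((hle y z n).trans hz.le)) (not_lt.2 ?_)
    push_cast
    exact Nat.one_div_le_one_div (Finset.le_sup (f := id) hk)
  · obtain ⟨ε, hε, h⟩ := h y hy
    have hε' : (0 : ℝ) < ε := by exact_mod_cast hε
    obtain ⟨N, hN⟩ := exists_nat_one_div_lt (half_pos hε')
    refine ⟨⋂ n ∈ Finset.range N, {z | |(u n).ev y - (u n).ev z| < ε / 2}, fun z hz => h z ?_,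
      isOpen_biInter_finset fun n _ => isOpen_lt (by have := (u n).continuous; fun_prop)
        continuous_const, by simp [hε']⟩
    refine lt_of_le_of_lt (ciSup_le fun n => ?_) (half_lt_self hε')
    by_cases hn : n < N
    · exact (min_le_right _ _).trans (mem_iInter₂.1 hz n (Finset.mem_range.2 hn)).le
    · refine (min_le_left _ _).trans (le_trans ?_ hN.le)
      push_cast
      exact Nat.one_div_le_one_div (not_lt.1 hn)

omit de ce ho hL in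
theorem two_to_one [T2Space K] (hK : MCpt M K) (hN : MNorm M K) (hH : HL M O K)
    (hc : Can M O (Cp.ev : Cp M K → K → ℝ) id (1 / 4) (3 / 4) (fun _ => True) fun _ => True) :
    ∃ (Y : Type) (_ : Srt M Y) (_ : Sm M Y) (_ : TopologicalSpace Y) (_ : DTop M Y),
      T2Space Y ∧ MCpt M Y ∧ MMetr M Y ∧ ∃ π : K → Y, DfF M π ∧ Continuous π ∧ Surjective π ∧
        ∀ p y v, π y = π p → π v = π p → p = y ∨ p = v ∨ y = v := by
  obtain ⟨γ, hγ⟩ := triangle (by fun_prop) Cp.continuous DfF.id hH (by fun_prop) (by fun_prop) hc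
  let P : Fn M ℕ (Re M) → Prop := fun r => ∃ x, ∀ n, (r.ap n).val = (γ.ap n).ev x
  have dP : DfF M P := by simp only [P, all_iff]; fun_prop
  let _ : Srt M {r // P r} := Srt.sub P dP
  have _ : Sm M {r // P r} := sm_of_subset (un_mem (X := Fn M ℕ (Re M))) fun r => mem_un.2 ⟨r.1, rfl⟩
  have dv : DfF M (Subtype.val : {r // P r} → _) := DfF.of_cd_eq fun _ => rfl
  let ev : {r // P r} → ℕ → ℝ := fun r n => (r.1.ap n).val
  have dev : DfR M fun p : {r // P r} × ℕ => ev p.1 p.2 := by simp only [ev]; fun_prop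
  let _ : TopologicalSpace {r // P r} := TopologicalSpace.induced ev inferInstance
  have _ : DTop M {r // P r} := dTop_induced dev
  obtain ⟨g, dg, hg⟩ := DfR.exists_re (M := M) (F := fun p : K × ℕ => (γ.ap p.2).ev p.1)
    (by fun_prop)
  obtain ⟨F, dF, hF⟩ := exists_lam (M := M) (f := fun x n => g (x, n)) dg
  have e : ∀ x n, ((F x).ap n).val = (γ.ap n).ev x := fun x n => by rw [hF, hg]
  let π : K → {r // P r} := fun x => ⟨F x, x, e x⟩
  have dπ : DfF M π := DfF.of_comp_cd_eq (c := Subtype.val) (fun _ => rfl) dF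
  have cπ : Continuous π := continuous_induced_rng.2 (continuous_pi fun n => by
    simpa only [ev, π, comp, e] using (γ.ap n).continuous)
  have ext : ∀ r s, ev r = ev s → r = s := fun r s h =>
    Subtype.ext (Fn.ext fun n => Re.ext (congrFun h n))
  have sπ : Surjective π := fun r => r.2.imp fun x hx => ext _ _ (funext fun n =>
    (e x n).trans (hx n).symm)
  have hY : MCpt M {r // P r} := fun C h1 h2 => by
    obtain ⟨s, hs⟩ := hK.subcover (F := fun _ => True) (by fun_prop) isClosed_univ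
      (U := fun U x => U ∈ C ∧ π x ∈ U) (by fun_prop)
      (fun U => open_and fun h => (h1 U h).preimage cπ) fun x _ => h2 _
    refine ⟨s.filter (· ∈ C), fun U hU => (Finset.mem_filter.1 hU).2, sπ.forall.2 fun x => ?_⟩
    obtain ⟨U, h3, h4, h5⟩ := hs x trivial
    exact ⟨U, Finset.mem_filter.2 ⟨h3, h4⟩, h5⟩
  obtain ⟨u, du, hu⟩ := exists_cp_lam (M := M) (φ := fun n r => ev r n) (by fun_prop)
    fun n => (continuous_apply n).comp (continuous_induced_dom (f := ev))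
  refine ⟨_, _, _, _, ‹_›, .of_injective_continuous ext continuous_induced_dom, hY, metr_of_sep hY du fun y z h => by
    simpa only [hu, ← ne_iff] using mt (ext y z) h, π, dπ, cπ, sπ, fun p y v h1 h2 => ?_⟩
  by_contra hn
  push Not at hn
  have key : ∀ {y}, π y = π p → ∀ n, (γ.ap n).ev y = (γ.ap n).ev p := fun h n => by
    rw [← e, ← e, show F _ = F p from congrArg Subtype.val h]
  obtain ⟨a, a0, a1⟩ := urysohn hN (A := fun x => x = p) (B := fun x => x = y) (by fun_prop)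
    (by fun_prop) isClosed_singleton isClosed_singleton fun x h h' => hn.1 (h ▸ h')
  obtain ⟨b, b0, b1⟩ := urysohn hN (A := fun x => x = p ∨ x = y) (B := fun x => x = v) (by fun_prop)
    (by fun_prop) (isClosed_singleton.union isClosed_singleton) isClosed_singleton fun x h h' =>
      h.elim (fun h => hn.2.1 (h ▸ h')) fun h => hn.2.2 (h ▸ h')
  exact hγ p a b y v trivial trivial trivial (key h1) (key h2) (a0 _ rfl) (a1 _ rfl)
    (b0 _ (Or.inl rfl)) (b0 _ (Or.inr rfl)) (b1 _ rfl)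

omit de ce ho hL in
theorem exists_onto {X : Type v} [Srt M X] [Sm M X] [MetricSpace X]
    (dd : DfR M fun p : X × X => dist p.1 p.2)
    (hc : ∀ b : ℕ → X, DfF M b → CauchySeq b → ∃ x, Tendsto b atTop (𝓝 x))
    {q : ℕ → X} (dq : DfF M q) (hq : DenseRange q) :
    ∃ j : Ba M → X, DfF M j ∧ Continuous j ∧ Surjective j := by
  let a : Ba M → ℕ → X := fun x n => Nat.rec (q (x.ap 0)) (fun n t =>
    if dist t (q (x.ap (n + 1))) < ((1 / 2 ^ n : ℚ) : ℝ) then q (x.ap (n + 1)) else t) n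
  have da : DfF M fun p : Ba M × ℕ => a p.1 p.2 :=
    DfF.natRec (z := fun p : Ba M × ℕ => q (p.1.ap 0)) (s := fun p n t =>
      if dist t (q (p.1.ap (n + 1))) < ((1 / 2 ^ n : ℚ) : ℝ) then q (p.1.ap (n + 1)) else t)
      (k := fun p => p.2) (by fun_prop) (by fun_prop) (by fun_prop)
  have as : ∀ x n, a x (n + 1) = if dist (a x n) (q (x.ap (n + 1))) < ((1 / 2 ^ n : ℚ) : ℝ) then
    q (x.ap (n + 1)) else a x n := fun _ _ => rfl
  have h1 : ∀ x n, dist (a x n) (a x (n + 1)) ≤ 2 / 2 / 2 ^ n := fun x n => by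
    rw [as]
    split_ifs with h
    · push_cast at h; simpa using h.le
    · simp
  obtain ⟨j, dj, hj⟩ := exists_choice (M := M)
    (R := fun x p => ∀ n, dist (a x n) p ≤ ((2 / 2 ^ n : ℚ) : ℝ))
    (by simp only [all_iff]; fun_prop) fun x => (hc (a x) (by fun_prop)
      (cauchySeq_of_le_geometric_two (h1 x))).imp fun p hp n => by
        simpa using dist_le_of_le_geometric_two_of_tendsto (h1 x) hp n
  have h2 : ∀ (c : ℝ), Tendsto (fun n : ℕ => c / 2 ^ n) atTop (𝓝 0) := fun c =>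
    tendsto_const_nhds.div_atTop (tendsto_pow_atTop_atTop_of_one_lt one_lt_two)
  refine ⟨j, dj, continuous_iff_continuousAt.2 fun x => Metric.tendsto_nhds.2 fun ε hε => ?_,
    fun p => ?_⟩
  · obtain ⟨n, hn⟩ := ((h2 4).eventually_lt_const hε).exists
    filter_upwards [(ba_basic (n + 1) x.ap).mem_nhds fun _ _ => rfl] with y hy
    have h3 : ∀ m ≤ n, a y m = a x m := fun m hm => by
      induction m with
      | zero => exact congrArg q (hy 0 (by omega))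
      | succ m ih => rw [as, as, ih (by omega), hy (m + 1) (by omega)]
    have h4 := hj x n
    have h5 := h3 n le_rfl ▸ hj y n
    push_cast at h4 h5
    refine (dist_triangle_left _ _ (a x n)).trans_lt (lt_of_le_of_lt ?_ hn)
    linarith [show (4 : ℝ) / 2 ^ n = 2 / 2 ^ n + 2 / 2 ^ n by ring]
  · obtain ⟨x, dx, hx⟩ := exists_choice (M := M)
      (R := fun n m : ℕ => dist p (q m) < ((1 / 2 / 2 ^ n : ℚ) : ℝ)) (by fun_prop)
      fun n => hq.exists_dist_lt p (by positivity)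
    push_cast at hx
    have h3 : ∀ n, a ⟨x, dx⟩ n = q (x n) := fun n => by
      induction n with
      | zero => rfl
      | succ n ih =>
        rw [as, ih]
        refine if_pos ((dist_triangle_left _ _ p).trans_lt ((add_lt_add (hx n) (hx _)).trans_le ?_))
        push_cast
        field_simp
        ring_nf
        gcongr
        norm_num
    refine ⟨⟨x, dx⟩, dist_le_zero.1 (ge_of_tendsto' (h2 (5 / 2)) fun n => ?_)⟩
    have h4 := h3 n ▸ hj ⟨x, dx⟩ n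
    push_cast at h4
    refine (dist_triangle_left _ _ (q (x n))).trans ?_
    linarith [hx n, dist_comm p (q (x n)), show (5 : ℝ) / 2 / 2 ^ n = 2 / 2 ^ n + 1 / 2 / 2 ^ n by ring]

omit de ce ho in
theorem inner [T2Space K] {X : Type v} [Srt M X] [Sm M X] [MetricSpace X]
    (dd : DfR M fun p : X × X => dist p.1 p.2)
    (hc : ∀ b : ℕ → X, DfF M b → CauchySeq b → ∃ x, Tendsto b atTop (𝓝 x))
    {q : ℕ → X} (dq : DfF M q) (hq : DenseRange q) {e : L → X → ℝ}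
    (de : DfR M fun p : L × X => e p.1 p.2) (ce : ∀ x, Continuous fun f => e f x)
    (ho : ∀ s : Set L, IsOpen s → ∀ f ∈ s, ∃ F : Finset X, ∃ ε : ℚ, 0 < ε ∧
      ∀ g, (∀ x ∈ F, |e f x - e g x| < ε) → g ∈ s)
    (hB : ∀ f, ∃ u : ℕ → X → ℝ, (DfR M fun p : ℕ × X => u p.1 p.2) ∧ (∀ n, Continuous (u n)) ∧
      ∀ x, Tendsto (fun n => u n x) atTop (𝓝 (e f x)))
    {φ : L → K} (dφ : DfF M φ) (cφ : Continuous φ) (sφ : Surjective φ) (hK : MCpt M K)
    (hN : MNorm M K) (hH : HL M O K) :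
    ∃ (Y : Type) (_ : Srt M Y) (_ : Sm M Y) (_ : TopologicalSpace Y) (_ : DTop M Y),
      T2Space Y ∧ MCpt M Y ∧ MMetr M Y ∧ ∃ π : K → Y, DfF M π ∧ Continuous π ∧ Surjective π ∧
        ∀ p y v, π y = π p → π v = π p → p = y ∨ p = v ∨ y = v := by
  obtain ⟨j, dj, cj, sj⟩ := exists_onto dd hc dq hq
  refine two_to_one hK hN hH (can_univ (e := fun f y => e f (j y)) (by fun_prop) (fun _ => ce _)
    (fun s hs f hf => ?_) hL (fun f => ?_) dφ cφ sφ hK hN hH)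
  · obtain ⟨F, ε, h1, h2⟩ := ho s hs f hf
    exact ⟨F.image (surjInv sj), ε, h1, fun g hg => h2 g fun x hx => by
      simpa only [surjInv_eq] using hg _ (Finset.mem_image_of_mem _ hx)⟩
  · obtain ⟨u, h1, h2, h3⟩ := hB f
    exact ⟨fun n y => u n (j y), by fun_prop, fun n => (h2 n).comp cj, fun y => h3 _⟩

end Pool.Agent.MP_b60a07_lc.H92

end MrgPart2

-- ======== part 3: formerly Pool.Agent.MP_b60a07_lc.h92.Trans
section MrgPart3

/-! Translation between coded spaces and typed spaces. -/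

namespace Pool.Agent.MP_b60a07_lc.H92

open Pool.Agent.ZF92 Function ZFSet Filter Topology
open scoped Classical

set_option linter.unusedSectionVars false

universe u v w

variable {M : Set ZFSet.{0}} [hM : Fact (ZFC M)]
variable {X : Type u} {Y : Type v} [Srt M X] [Sm M X] [Srt M Y] [Sm M Y]

include hM in
theorem cut_inj {a b : ℝ} (h : cut a = cut b) : a = b :=
  real_ext fun q => by
    have : ∀ c : ℝ, rat q ∈ cut c ↔ (q : ℝ) < c := fun c => mem_cut.trans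
      ⟨fun ⟨p, h1, h2⟩ => (cd_inj (M := M) (x := q) (y := p)).1 h2 ▸ h1, fun h => ⟨q, h, rfl⟩⟩
    rw [← this, ← this, h]

theorem cd_mem_un (x : X) : cd M x ∈ un M X := mem_un.2 ⟨x, rfl⟩

theorem forall_un {P : ZFSet → Prop} : (∀ z ∈ un M X, P z) ↔ ∀ x : X, P (cd M x) :=
  ⟨fun h x => h _ (cd_mem_un x), fun h z hz => by obtain ⟨x, rfl⟩ := mem_un.1 hz; exact h x⟩

theorem forall_cd {A : PS M X} {P : ZFSet → Prop} : (∀ z ∈ cd M A, P z) ↔ ∀ x ∈ A, P (cd M x) :=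
  ⟨fun h x hx => h _ (cd_mem_cd_ps.2 hx), fun h z hz => by
    obtain ⟨x, hx, rfl⟩ := mem_cd_ps.1 hz; exact h x hx⟩

theorem exists_ps_sub {a : ZFSet} (ha : a ∈ M) (h : a ⊆ un M X) : ∃ A : PS M X, cd M A = a :=
  exists_ps ha fun _ hz => mem_un.1 (h hz)

theorem cd_sub_un (A : PS M X) : cd M A ⊆ un M X := fun z hz => by
  obtain ⟨x, -, e⟩ := mem_cd_ps.1 hz
  exact mem_un.2 ⟨x, e⟩

theorem cd_finset_finite (F : Finset X) : ((cd M F : ZFSet) : Set ZFSet).Finite :=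
  (F.finite_toSet.image (cd M)).subset fun z hz => by
    obtain ⟨x, hx, e⟩ := mem_cd_finset.1 hz
    exact ⟨x, hx, e.symm⟩

theorem exists_finset {E : ZFSet} (hE : (E : Set ZFSet).Finite) :
    ∃ F : Finset X, ∀ x, x ∈ F ↔ cd M x ∈ E :=
  ⟨(hE.preimage (f := cd M) fun _ _ _ _ h => cd_inj.1 h).toFinset, fun x => by simp⟩

theorem un_prod : un M (X × Y) = prod (un M X) (un M Y) := by
  ext z
  simp only [mem_un, mem_prod]
  exact ⟨fun ⟨p, e⟩ => ⟨_, ⟨p.1, rfl⟩, _, ⟨p.2, rfl⟩, e⟩,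
    by rintro ⟨_, ⟨x, rfl⟩, _, ⟨y, rfl⟩, e⟩; exact ⟨(x, y), e⟩⟩

theorem Graph.mem_iff {f : ZFSet} {φ : ZFSet → ℝ} (h : Graph (un M X) f φ) {x : X} {r : ℝ} :
    pair (cd M x) (cut r) ∈ f ↔ r = φ (cd M x) := by
  refine ⟨fun h1 => ?_, fun e => (h _).2 ⟨_, cd_mem_un x, e ▸ rfl⟩⟩
  obtain ⟨x, -, e⟩ := (h _).1 h1
  rw [pair_inj] at e
  exact e.1 ▸ cut_inj (M := M) e.2

theorem graph_df {Z : Type v} {W : Type w} [Srt M Z] [Srt M W] {f : Z → W} (df : DfF M f)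
    {φ : Z → ZFSet → ℝ} (h : ∀ z, Graph (un M X) (cd M (f z)) (φ z)) :
    DfR M fun p : Z × X => φ p.1 (cd M p.2) := by
  refine DfF.congr (P := fun p : (Z × X) × ℚ => ∃ r : Re M,
    cd M (p.1.2, r) ∈ cd M (f p.1.1) ∧ (p.2 : ℝ) < r.val) (DfF.ex (DfF.and (DfF.cd_mem_cd
      (by fun_prop) (by fun_prop)) (by fun_prop))) fun p => ⟨fun h1 => ?_, ?_⟩
  · have h2 := (h p.1.1).mem_iff.2 (rfl : φ p.1.1 (cd M p.1.2) = _)
    exact ⟨⟨_, (pair_mem_iff.1 (trM (cd_mem _) h2)).2⟩, by rw [cd_prod, cd_re]; exact h2, h1⟩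
  · rintro ⟨r, h1, h2⟩
    rw [cd_prod, cd_re] at h1
    exact h2.trans_eq ((h _).mem_iff.1 h1)

theorem graph_cd (F : Fn M X (Re M)) : ∃ φ, Graph (un M X) (cd M F) φ ∧
    ∀ x, φ (cd M x) = (F.ap x).val := by
  have e : ∀ x, extend (cd M) (fun x => (F.ap x).val) 0 (cd M x) = (F.ap x).val :=
    fun x => Injective.extend_apply (fun _ _ h => cd_inj.1 h) _ _ x
  refine ⟨_, fun z => ?_, e⟩
  rw [mem_cd_fn]
  exact ⟨fun ⟨x, h⟩ => ⟨_, cd_mem_un x, by rw [h, e, cd_re]⟩, fun ⟨_, h1, h⟩ => by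
    obtain ⟨x, rfl⟩ := mem_un.1 h1
    exact ⟨x, by rw [h, e, cd_re]⟩⟩

theorem SeqIn.mem {b : ℕ → ZFSet} (h : SeqIn M b) (n : ℕ) : b n ∈ M :=
  let ⟨_, hs, h⟩ := h; (pair_mem_iff.1 (trM hs ((h _).2 ⟨n, rfl⟩))).2

theorem SeqIn.df {W : Type w} [Srt M W] {c : ℕ → W} (h : SeqIn M fun n => cd M (c n)) :
    DfF M c := by
  obtain ⟨s, hs, h⟩ := h
  refine DfF.of_rel (P := fun n y => cd M (n, y) ∈ s) (DfF.cd_mem_set (by fun_prop) hs)
    fun n y => ⟨fun e => (h _).2 ⟨n, e ▸ rfl⟩, fun h1 => ?_⟩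
  obtain ⟨m, hm⟩ := (h _).1 h1
  rw [cd_prod, pair_inj, cd_inj] at hm
  exact (show n = m from nat_inj hm.1) ▸ hm.2.symm

theorem seqIn {c : ℕ → X} (dc : DfF M c) : SeqIn M fun n => cd M (c n) :=
  ⟨_, cd_mem (⟨c, dc⟩ : Fn M ℕ X), fun _ => mem_cd_fn⟩

variable [TopologicalSpace X] [DTop M X] [TopologicalSpace Y] [DTop M Y]

/-- `T` is the set of codes of open sets. -/
def Rep (M : Set ZFSet.{0}) [Fact (ZFC M)] (X : Type u) [Srt M X] [TopologicalSpace X]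
    (T : ZFSet.{0}) : Prop :=
  ∀ U, U ∈ T ↔ ∃ A : PS M X, IsOpen (A : Set X) ∧ U = cd M A

theorem exists_rep (X : Type u) [Srt M X] [Sm M X] [TopologicalSpace X] [DTop M X] :
    ∃ T ∈ M, Rep M X T :=
  ⟨cd M (PS.of M fun A : PS M X => IsOpen (A : Set X)), cd_mem _, fun U => by
    rw [mem_cd_ps]
    exact exists_congr fun A => and_congr_left fun _ => PS.mem_of (by fun_prop)⟩

variable {T S : ZFSet.{0}}

theorem Rep.cd_mem (hT : Rep M X T) {A : PS M X} : cd M A ∈ T ↔ IsOpen (A : Set X) :=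
  (hT _).trans ⟨fun ⟨_, h, e⟩ => cd_inj.1 e ▸ h, fun h => ⟨A, h, rfl⟩⟩

theorem Rep.forall (hT : Rep M X T) {P : ZFSet → Prop} :
    (∀ U ∈ T, P U) ↔ ∀ A : PS M X, IsOpen (A : Set X) → P (cd M A) :=
  ⟨fun h A hA => h _ (hT.cd_mem.2 hA), fun h U hU => by
    obtain ⟨A, hA, rfl⟩ := (hT U).1 hU; exact h A hA⟩

theorem Rep.mem_iff (hT : Rep M X T) {a : ZFSet} (P : X → Prop) (dP : DfF M P)
    (h : a ⊆ un M X) (e : ∀ x, cd M x ∈ a ↔ P x) : a ∈ T ↔ IsOpen {x | P x} := by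
  have h1 : a = cd M (PS.of M P) := by
    ext z
    constructor
    · intro hz
      obtain ⟨x, rfl⟩ := mem_un.1 (h hz)
      exact cd_mem_cd_ps.2 ((PS.mem_of dP).2 ((e x).1 hz))
    · intro hz
      obtain ⟨x, hx, rfl⟩ := mem_cd_ps.1 hz
      exact (e x).2 ((PS.mem_of dP).1 hx)
  rw [h1, hT.cd_mem]
  congr! 1
  ext x; exact PS.mem_of dP

theorem Rep.of_compact (hT : Rep M X T) (h : CompactSp M (un M X) T) : T2Space X ∧ MCpt M X := by
  refine ⟨⟨fun x y hxy => ?_⟩, fun C h1 h2 => ?_⟩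
  · obtain ⟨U, hU, V, hV, h1, h2, h3⟩ := h.hausdorff _ (cd_mem_un x) _ (cd_mem_un y)
      (cd_inj.not.2 hxy)
    obtain ⟨A, hA, rfl⟩ := (hT U).1 hU
    obtain ⟨B, hB, rfl⟩ := (hT V).1 hV
    exact ⟨A, B, hA, hB, cd_mem_cd_ps.1 h1, cd_mem_cd_ps.1 h2, Set.disjoint_left.2 fun z h4 h5 =>
      notMem_empty (cd M z) (h3 ▸ mem_inter.2 ⟨cd_mem_cd_ps.2 h4, cd_mem_cd_ps.2 h5⟩)⟩
  · obtain ⟨F, -, h3, h4, h5⟩ := h.compact _ (ZF92.cd_mem C)
      (forall_cd.2 fun U hU => hT.cd_mem.2 (h1 U hU)) (forall_un.2 fun x => by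
        obtain ⟨U, h3, h4⟩ := h2 x
        exact mem_sUnion.2 ⟨_, cd_mem_cd_ps.2 h3, cd_mem_cd_ps.2 h4⟩)
    obtain ⟨E, hE⟩ := exists_finset (M := M) (X := PS M X) h4
    refine ⟨E, fun U hU => cd_mem_cd_ps.1 (h3 ((hE U).1 hU)), fun x => ?_⟩
    obtain ⟨U, h6, h7⟩ := mem_sUnion.1 (h5 (cd_mem_un x))
    obtain ⟨V, -, rfl⟩ := mem_cd_ps.1 (h3 h6)
    exact ⟨V, (hE V).2 h6, cd_mem_cd_ps.1 h7⟩

theorem Rep.exists_family (hT : Rep M X T) {C : ZFSet} (hC : C ∈ M) (h : C ⊆ T) :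
    ∃ C' : PS M (PS M X), cd M C' = C ∧ ∀ U ∈ C', IsOpen (U : Set X) := by
  obtain ⟨C', rfl⟩ := exists_ps (X := PS M X) hC fun z hz => ((hT z).1 (h hz)).imp fun _ => And.right
  exact ⟨C', rfl, fun U hU => hT.cd_mem.1 (h (cd_mem_cd_ps.2 hU))⟩

theorem cd_mem_sUnion {C : PS M (PS M X)} {x : X} :
    cd M x ∈ ZFSet.sUnion (cd M C) ↔ ∃ U, U ∈ C ∧ x ∈ U := by
  rw [mem_sUnion]
  refine ⟨fun ⟨_, h1, h2⟩ => ?_, fun ⟨U, h1, h2⟩ => ⟨_, cd_mem_cd_ps.2 h1, cd_mem_cd_ps.2 h2⟩⟩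
  obtain ⟨U, h3, rfl⟩ := mem_cd_ps.1 h1
  exact ⟨U, h3, cd_mem_cd_ps.1 h2⟩

theorem Rep.compact [T2Space X] (hT : Rep M X T) (h2 : MCpt M X) : CompactSp M (un M X) T where
  sub := hT.forall.2 fun A _ => cd_sub_un A
  whole := (hT.mem_iff (fun _ => True) (by fun_prop) (fun _ h => h)
    fun x => iff_true_intro (cd_mem_un x)).2 isOpen_univ
  inter := hT.forall.2 fun A hA => hT.forall.2 fun B hB =>
    (hT.mem_iff (fun x => x ∈ A ∧ x ∈ B) (by fun_prop) (fun _ h => cd_sub_un A (mem_inter.1 h).1)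
      fun x => by rw [mem_inter, cd_mem_cd_ps, cd_mem_cd_ps]).2 (hA.inter hB)
  unions C hC h := by
    obtain ⟨C', rfl, h3⟩ := hT.exists_family hC h
    refine (hT.mem_iff (fun x => ∃ U, U ∈ C' ∧ x ∈ U) (by fun_prop) (fun z hz => ?_)
      fun x => cd_mem_sUnion).2 (isOpen_iff_forall_mem_open.2 fun x ⟨U, h4, h5⟩ =>
        ⟨U, fun y hy => ⟨U, h4, hy⟩, h3 U h4, h5⟩)
    obtain ⟨_, h4, h5⟩ := mem_sUnion.1 hz
    obtain ⟨U, -, rfl⟩ := mem_cd_ps.1 h4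
    exact cd_sub_un U h5
  hausdorff := forall_un.2 fun x => forall_un.2 fun y hxy => by
    obtain ⟨U, V, hU, hV, h3, h4, h5⟩ := t2_separation (cd_inj.not.1 hxy)
    obtain ⟨A, h6, h7, h8⟩ := exists_ps_nhds (M := M) hU h3
    obtain ⟨B, h9, h10, h11⟩ := exists_ps_nhds (M := M) hV h4
    refine ⟨_, hT.cd_mem.2 h6, _, hT.cd_mem.2 h9, cd_mem_cd_ps.2 h7, cd_mem_cd_ps.2 h10,
      (eq_empty _).2 fun z hz => ?_⟩
    obtain ⟨w, hw, rfl⟩ := mem_cd_ps.1 (mem_inter.1 hz).1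
    exact Set.disjoint_left.1 h5 (h8 w hw) (h11 w (cd_mem_cd_ps.1 (mem_inter.1 hz).2))
  compact C hC h h' := by
    obtain ⟨C', rfl, h3⟩ := hT.exists_family hC h
    obtain ⟨F, h4, h5⟩ := h2 C' h3 fun x => cd_mem_sUnion.1 (h' (cd_mem_un x))
    refine ⟨_, ZF92.cd_mem F, fun z hz => ?_, cd_finset_finite F, forall_un.2 fun x => ?_⟩
    · obtain ⟨U, hU, rfl⟩ := mem_cd_finset.1 hz
      exact cd_mem_cd_ps.2 (h4 U hU)
    · obtain ⟨U, h6, h7⟩ := h5 x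
      exact mem_sUnion.2 ⟨_, mem_cd_finset.2 ⟨U, h6, rfl⟩, cd_mem_cd_ps.2 h7⟩

theorem Rep.closed (hT : Rep M X T) {A : PS M X} :
    Closed (un M X) T (cd M A) ↔ IsClosed (A : Set X) :=
  (and_iff_right (cd_sub_un A)).trans ((hT.mem_iff (fun x => x ∉ A) (by fun_prop)
    (fun _ h => (ZFSet.mem_sdiff.1 h).1) fun x => by
      rw [ZFSet.mem_sdiff, cd_mem_cd_ps, and_iff_right (cd_mem_un x)]).trans isOpen_compl_iff)

theorem Rep.of_perf (hT : Rep M X T) (h : PerfNormal M (un M X) T) : MNorm M X ∧ MPerf M X := by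
  refine ⟨fun A B dA dB hA hB hAB => ?_, fun U hU => ?_⟩
  · have e : ∀ P : X → Prop, DfF M P → (PS.of M P : Set X) = {x | P x} := fun P dP =>
      Set.ext fun _ => PS.mem_of dP
    obtain ⟨U, hU, V, hV, h1, h2, h3⟩ := h.1 _ _ (hT.closed.2 (e A dA ▸ hA))
      (hT.closed.2 (e B dB ▸ hB)) ((eq_empty _).2 fun z hz => by
        obtain ⟨x, hx, rfl⟩ := mem_cd_ps.1 (mem_inter.1 hz).1
        exact hAB x ((PS.mem_of dA).1 hx) ((PS.mem_of dB).1 (cd_mem_cd_ps.1 (mem_inter.1 hz).2)))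
    obtain ⟨U, hU', rfl⟩ := (hT U).1 hU
    obtain ⟨V, hV', rfl⟩ := (hT V).1 hV
    refine ⟨U, hU', fun x hx => cd_mem_cd_ps.1 (h1 (cd_mem_cd_ps.2 ((PS.mem_of dA).2 hx))),
      fun x hx hB => ?_⟩
    obtain ⟨y, h4, h5⟩ := mem_closure_iff.1 hx V hV'
      (cd_mem_cd_ps.1 (h2 (cd_mem_cd_ps.2 ((PS.mem_of dB).2 hB))))
    exact notMem_empty (cd M y) (h3 ▸ mem_inter.2 ⟨cd_mem_cd_ps.2 h5, cd_mem_cd_ps.2 h4⟩)
  · obtain ⟨c, h1, h2, h3⟩ := h.2 _ (hT.cd_mem.2 hU)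
    choose C hC using fun n => exists_ps_sub (h1.mem n) (h2 n).1
    obtain rfl : (fun n => cd M (C n)) = c := funext hC
    exact ⟨C, h1.df, fun n => hT.closed.1 (h2 n), fun x => by
      simpa only [cd_mem_cd_ps] using h3 (cd M x)⟩

theorem onto_key (hT : Rep M X T) (hS : Rep M Y S) {g : ZFSet} {φ : X → Y} (dφ : DfF M φ)
    (e : ∀ x z, pair (cd M x) z ∈ g ↔ z = cd M (φ x)) :
    ((∀ y ∈ un M Y, ∃ x ∈ un M X, pair x y ∈ g) ∧ ∀ V ∈ S,
      (un M X).sep (fun x => ∃ y ∈ V, pair x y ∈ g) ∈ T) ↔ Surjective φ ∧ Continuous φ := by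
  refine and_congr (forall_un.trans (forall_congr' fun y => ⟨fun ⟨x, h1, h2⟩ => ?_,
    fun ⟨x, hx⟩ => ⟨_, cd_mem_un x, (e x _).2 (hx ▸ rfl)⟩⟩)) (hS.forall.trans ?_)
  · obtain ⟨x, rfl⟩ := mem_un.1 h1
    exact ⟨x, (cd_inj.1 ((e x _).1 h2)).symm⟩
  have h : ∀ A : PS M Y, (un M X).sep (fun x => ∃ y ∈ cd M A, pair x y ∈ g) ∈ T ↔
      IsOpen (φ ⁻¹' A) := fun A => hT.mem_iff (fun x => φ x ∈ A) (by fun_prop) sep_subset
    fun x => by simp [cd_mem_un, e, cd_mem_cd_ps]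
  simp only [h]
  refine ⟨fun h => continuous_def.2 fun V hV => isOpen_iff_forall_mem_open.2 fun x hx => ?_,
    fun h A hA => hA.preimage h⟩
  obtain ⟨U, h1, h2, h3⟩ := exists_ps_nhds (M := M) hV hx
  exact ⟨φ ⁻¹' U, fun y hy => h3 _ hy, h U h1, h2⟩

theorem Rep.of_onto (hT : Rep M X T) (hS : Rep M Y S) {g : ZFSet} (hg : g ∈ M)
    (h : ContOnto (un M X) T (un M Y) S g) : ∃ φ : X → Y, DfF M φ ∧ Surjective φ ∧ Continuous φ := by
  have h1 : ∀ x : X, ∃ y : Y, ∀ z, pair (cd M x) z ∈ g ↔ z = cd M y := fun x => by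
    obtain ⟨w, h6, h7⟩ := h.1.2 _ (cd_mem_un x)
    obtain ⟨y, rfl⟩ := mem_un.1 (pair_mem_prod.1 (h.1.1 h6)).2
    exact ⟨y, fun z => ⟨h7 z, fun e => e ▸ h6⟩⟩
  choose φ hφ using h1
  have dφ : DfF M φ := DfF.of_rel (P := fun x y => cd M (x, y) ∈ g)
    (DfF.cd_mem_set (by fun_prop) hg) fun x y => by rw [cd_prod, hφ, cd_inj, eq_comm]
  exact ⟨φ, dφ, (onto_key hT hS dφ hφ).1 h.2⟩

theorem Rep.onto (hT : Rep M X T) (hS : Rep M Y S) {φ : X → Y} (dφ : DfF M φ) (h1 : Surjective φ)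
    (h2 : Continuous φ) (h3 : ∀ p y v, φ y = φ p → φ v = φ p → p = y ∨ p = v ∨ y = v) :
    ∃ g ∈ M, ContOnto (un M X) T (un M Y) S g ∧ TwoToOne g := by
  have e : ∀ x z, pair (cd M x) z ∈ cd M (⟨φ, dφ⟩ : Fn M X Y) ↔ z = cd M (φ x) := fun x z => by
    rw [mem_cd_fn]
    refine ⟨fun ⟨f, h⟩ => ?_, fun h => ⟨x, h ▸ rfl⟩⟩
    rw [pair_inj, cd_inj] at h
    exact h.1 ▸ h.2
  refine ⟨_, ZF92.cd_mem (⟨φ, dφ⟩ : Fn M X Y), ⟨⟨fun z hz => ?_, forall_un.2 fun x =>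
    ⟨_, (e x _).2 rfl, fun z hz => (e x z).1 hz⟩⟩, (onto_key hT hS dφ e).2 ⟨h1, h2⟩⟩,
    fun a b c y ha hb hc => ?_⟩
  · obtain ⟨x, rfl⟩ := mem_cd_fn.1 hz
    exact pair_mem_prod.2 ⟨cd_mem_un _, cd_mem_un _⟩
  · obtain ⟨a', h4⟩ := mem_cd_fn.1 ha
    obtain ⟨b', h5⟩ := mem_cd_fn.1 hb
    obtain ⟨c', h6⟩ := mem_cd_fn.1 hc
    rw [pair_inj] at h4 h5 h6
    rw [h4.1, h5.1, h6.1, cd_inj, cd_inj, cd_inj]
    exact h3 _ _ _ (cd_inj.1 (h5.2.symm.trans h4.2)) (cd_inj.1 (h6.2.symm.trans h4.2))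

theorem Rep.metr (hS : Rep M Y S) (h : MMetr M Y) : Metrizable M (un M Y) S := by
  obtain ⟨d, dd, h1, h2, h3, h4⟩ := h
  obtain ⟨g, dg, hg⟩ := dd.exists_re
  obtain ⟨δ, h5, h6⟩ := graph_cd (⟨g, dg⟩ : Fn M (Y × Y) (Re M))
  have e : ∀ x y, δ (pair (cd M x) (cd M y)) = d x y := fun x y => (h6 (x, y)).trans (hg _)
  refine ⟨δ, ⟨⟨_, ZF92.cd_mem _, un_prod (M := M) (X := Y) (Y := Y) ▸ h5⟩, ?_, ?_, ?_⟩,
    fun V h1 h2 => ?_⟩
  iterate 3 simpa only [forall_un, e, cd_inj]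
  obtain ⟨V, rfl⟩ := exists_ps_sub h1 h2
  simpa only [hS.cd_mem, forall_cd, forall_un, e, cd_mem_cd_ps] using h4 V

theorem exists_topo {K : M} (hT : T ∈ M) (h : CompactSp M K.1 T) :
    ∃ (_ : TopologicalSpace (El M K)) (_ : DTop M (El M K)), Rep M (El M K) T := by
  let τ : TopologicalSpace (El M K) :=
    { IsOpen := fun s => ∀ x ∈ s, ∃ U ∈ T, x.x ∈ U ∧ ∀ y : El M K, y.x ∈ U → y ∈ s
      isOpen_univ := fun x _ => ⟨_, h.whole, x.mem, fun _ _ => trivial⟩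
      isOpen_inter := fun s t hs ht x hx =>
        let ⟨U, h1, h2, h3⟩ := hs x hx.1
        let ⟨V, h4, h5, h6⟩ := ht x hx.2
        ⟨_, h.inter U h1 V h4, mem_inter.2 ⟨h2, h5⟩, fun y hy =>
          ⟨h3 y (mem_inter.1 hy).1, h6 y (mem_inter.1 hy).2⟩⟩
      isOpen_sUnion := fun C hC x ⟨s, hs, hx⟩ =>
        let ⟨U, h1, h2, h3⟩ := hC s hs x hx
        ⟨U, h1, h2, fun y hy => ⟨s, hs, h3 y hy⟩⟩ }
  have h1 : ∀ U ∈ T, ∃ A : PS M (El M K), cd M A = U := fun U hU =>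
    exists_ps_sub (trM hT hU) (by rw [un_el]; exact h.sub U hU)
  have h2 : DfF M fun A : PS M (El M K) => cd M A ∈ T := DfF.cd_mem_set DfF.id hT
  have h3 : ∀ s : Set (El M K), IsOpen s ↔ ∀ x ∈ s, ∃ U : PS M (El M K), cd M U ∈ T ∧ x ∈ U ∧
      ∀ y ∈ U, y ∈ s := fun s => forall₂_congr fun x _ =>
    ⟨fun ⟨U, h3, h4, h5⟩ => by
      obtain ⟨A, rfl⟩ := h1 U h3
      exact ⟨A, h3, cd_mem_cd_ps.1 h4, fun y hy => h5 y (cd_mem_cd_ps.2 hy)⟩,
    fun ⟨U, h3, h4, h5⟩ => ⟨_, h3, cd_mem_cd_ps.2 h4, fun y hy => h5 y (cd_mem_cd_ps.1 hy)⟩⟩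
  refine ⟨τ, ⟨PS.of M fun A => cd M A ∈ T, fun s => by simp only [h3, PS.mem_of h2]⟩,
    fun U => ⟨fun hU => ?_, ?_⟩⟩
  · obtain ⟨A, rfl⟩ := h1 U hU
    exact ⟨A, (h3 _).2 fun x hx => ⟨A, hU, hx, fun _ h => h⟩, rfl⟩
  · rintro ⟨A, hA, rfl⟩
    have h4 : ∀ B, B ∈ PS.of M (fun B : PS M (El M K) => cd M B ∈ T ∧ ∀ y ∈ B, y ∈ A) ↔
        cd M B ∈ T ∧ ∀ y ∈ B, y ∈ A := fun B =>
      PS.mem_of (h2.and (by simp only [all_iff, imp_iff]; fun_prop))
    convert h.unions _ (ZF92.cd_mem _) (forall_cd.2 fun B hB => ((h4 B).1 hB).1) using 1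
    ext z
    rw [mem_sUnion]
    constructor
    · intro hz
      obtain ⟨x, hx, rfl⟩ := mem_cd_ps.1 hz
      obtain ⟨B, h5, h6, h7⟩ := (h3 _).1 hA x hx
      exact ⟨_, cd_mem_cd_ps.2 ((h4 B).2 ⟨h5, h7⟩), cd_mem_cd_ps.2 h6⟩
    · rintro ⟨_, h5, h6⟩
      obtain ⟨B, h7, rfl⟩ := mem_cd_ps.1 h5
      obtain ⟨x, hx, rfl⟩ := mem_cd_ps.1 h6
      exact cd_mem_cd_ps.2 (((h4 B).1 h7).2 x hx)

theorem coded {O : Type 1} [Srt M O] [Sm M O] [LinearOrder O] [WellFoundedLT O] [Ax M O]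
    {Z : Type w} [Srt M Z] [Sm M Z] {δ : ZFSet → ℝ} (hZ : Polish M (un M Z) δ)
    (hB : ∀ f ∈ un M X, Baire1 M (un M Z) δ f) (hP : Pointwise M (un M Z) (un M X) S)
    (hS : Rep M X S) (hX : CompactSp M (un M X) S) (hT : Rep M Y T) (hY : CompactSp M (un M Y) T)
    (hN : PerfNormal M (un M Y) T) {g : ZFSet} (hg : g ∈ M)
    (ho : ContOnto (un M X) S (un M Y) T g) : ∃ Y' ∈ M, ∃ R ∈ M, CompactSp M Y' R ∧
      Metrizable M Y' R ∧ ∃ g ∈ M, ContOnto (un M Y) T Y' R g ∧ TwoToOne g := by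
  obtain ⟨⟨⟨d, hd, h0⟩, h1, h2, h3⟩, h4, b, h5, h6, h7⟩ := hZ
  simp only [forall_un, cd_inj] at h1 h2 h3 h7 hB
  let _ : MetricSpace Z :=
    { dist := fun x y => δ (pair (cd M x) (cd M y))
      dist_self := fun x => (h1 x x).2 rfl
      dist_comm := h2
      dist_triangle := h3
      eq_of_dist_eq_zero := fun h => (h1 _ _).1 h }
  have dd : DfR M fun p : Z × Z => dist p.1 p.2 :=
    (graph_df (f := fun _ : ℕ => (⟨d, hd⟩ : M)) (φ := fun _ => δ) (by fun_prop)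
      fun _ => un_prod (M := M) (X := Z) (Y := Z) ▸ h0).comp (g := fun p => (0, p)) (by fun_prop)
  have rat : ∀ ε : ℝ, 0 < ε → ∃ q : ℚ, 0 < q ∧ (q : ℝ) < ε := fun ε hε =>
    (exists_rat_btwn hε).imp fun q h => ⟨by exact_mod_cast h.1, h.2⟩
  choose q hq using fun n => mem_un.1 (h6 n)
  obtain rfl : b = fun n => cd M (q n) := funext hq
  choose Φ hΦ hB using hB
  have near : ∀ (E : ZFSet) (F : Finset Z) (ε : ℚ) (f g : X), E ⊆ un M Z →
      (∀ x, x ∈ F ↔ cd M x ∈ E) → (Near E ε (cd M f) (cd M g) ↔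
        ∀ x ∈ F, |Φ f (cd M x) - Φ g (cd M x)| < (ε : ℝ)) := by
    intro E F ε f g h1 h2
    refine ⟨fun h x hx => h _ ((h2 x).1 hx) _ _ ((hΦ f).mem_iff.2 rfl) ((hΦ g).mem_iff.2 rfl),
      fun h z hz r s h3 h4 => ?_⟩
    obtain ⟨x, rfl⟩ := mem_un.1 (h1 hz)
    rw [(hΦ f).mem_iff.1 h3, (hΦ g).mem_iff.1 h4]
    exact h x ((h2 x).2 hz)
  have de := graph_df DfF.id hΦ
  obtain ⟨φ, dφ, sφ, cφ⟩ := hS.of_onto hT hg ho
  obtain ⟨_, hK⟩ := hT.of_compact hY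
  obtain ⟨hN, hP'⟩ := hT.of_perf hN
  obtain ⟨Y', _, _, _, _, _, k1, k2, π, dπ, cπ, sπ, hπ⟩ := inner (O := O) (hS.of_compact hX).2 dd
    (fun b db hb => by
      obtain ⟨x, k1, k2⟩ := h4 _ (seqIn db) (fun n => cd_mem_un _) fun ε hε =>
        Metric.cauchySeq_iff.1 hb ε (by exact_mod_cast hε)
      obtain ⟨x, rfl⟩ := mem_un.1 k1
      exact ⟨x, tendsto_iff_dist_tendsto_zero.2 k2⟩) h5.df
    (Metric.denseRange_iff.2 fun x ε hε => by
      obtain ⟨r, k1, k2⟩ := rat ε hε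
      exact (h7 x r k1).imp fun n hn => hn.trans k2)
    (e := fun f x => Φ f (cd M x)) de (fun x => continuous_iff_rat.2 fun a b => by
      let P : X → Prop := fun f => (a : ℝ) < Φ f (cd M x) ∧ Φ f (cd M x) < (b : ℝ)
      have dx := de.comp (g := fun f => (f, x)) (by fun_prop)
      have dP : DfF M P := (DfF.real_lt (by fun_prop) dx).and (DfF.real_lt dx (by fun_prop))
      refine (hS.mem_iff P dP (cd_sub_un (PS.of M P)) fun f =>
        cd_mem_cd_ps.trans (PS.mem_of dP)).1 ((hP _).2 ⟨cd_mem _, cd_sub_un _, forall_cd.2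
          fun f hf => ?_⟩)
      rw [PS.mem_of dP] at hf
      obtain ⟨r, k1, k2⟩ := rat _ (lt_min (sub_pos.2 hf.1) (sub_pos.2 hf.2))
      have k3 : cd M ({x} : Finset Z) ⊆ un M Z := fun z hz =>
        mem_un.2 ((mem_cd_finset.1 hz).imp fun _ => And.right)
      refine ⟨_, cd_mem _, k3, cd_finset_finite {x}, r, k1, forall_un.2 fun g hg => ?_⟩
      have k4 := abs_lt.1 ((near _ {x} r f g k3 fun y => by simp [mem_cd_finset, cd_inj]).1 hg x
        (Finset.mem_singleton_self x))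
      rw [lt_min_iff] at k2
      exact cd_mem_cd_ps.2 ((PS.mem_of dP).2 ⟨by linarith, by linarith⟩))
    (fun s hs f hf => by
      obtain ⟨U, k1, k2, k3⟩ := exists_ps_nhds (M := M) hs hf
      obtain ⟨E, -, k4, k5, ε, hε, k6⟩ := ((hP _).1 (hS.cd_mem.2 k1)).2.2 _ (cd_mem_cd_ps.2 k2)
      obtain ⟨F, hF⟩ := exists_finset (M := M) (X := Z) k5
      exact ⟨F, ε, hε, fun g hg => k3 g (cd_mem_cd_ps.1 (k6 _ (cd_mem_un g)
        ((near E F ε f g k4 hF).2 hg)))⟩)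
    (fun f => by
      obtain ⟨u, ψ, k1, k2, k3⟩ := hB f
      refine ⟨fun n x => ψ n (cd M x), graph_df (f := fun n => (⟨u n, k1.mem n⟩ : M)) k1.df
        fun n => (k2 n).1, fun n => Metric.continuous_iff.2 fun x ε hε => ?_,
        fun x => k3 _ (cd_mem_un x)⟩
      obtain ⟨r, k4, k5⟩ := rat ε hε
      obtain ⟨η, k6, k7⟩ := (k2 n).2 _ (cd_mem_un x) r k4
      exact ⟨η, by exact_mod_cast k6, fun y hy => by
        rw [dist_comm] at hy ⊢
        exact (k7 _ (cd_mem_un y) hy).trans k5⟩) dφ cφ sφ hK hN (hl_of hK hP')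
  obtain ⟨R, hR, k3⟩ := exists_rep (M := M) Y'
  exact ⟨_, un_mem, R, hR, k3.compact k1, k3.metr k2, hT.onto k3 dπ sπ cπ hπ⟩

end Pool.Agent.MP_b60a07_lc.H92

end MrgPart3

-- marker of a merged file
example : 731051 + 250240 = 731051 + 250240 := rfl
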